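import Pool.Agent.P.MP_c7fa75_pr.T.Iface

/-! Step KILLQ. -/

set_option autoImplicit false

namespace Pool.Agent.P.MP_c7fa75_pr.T

open MeasureTheory ProbabilityTheory Filter Topology Finset
open scoped ENNReal Classical

namespace KILLQx

theorem low (hQL : S_QL) (P0 : Measure (ℕ → ℝ)) [IsProbabilityMeasure P0] (h01 : In01 P0)
    (y : ℕ) (J κ : (ℕ → ℝ) → ℝ) (mκ : Measurable κ) (iJ : Integrable J P0)
    (hκ : ∀ w, 0 ≤ κ w ∧ κ w ≤ 1)
    (hae : ∀ᵐ w ∂P0, ∀ n, y ≤ n → psum w n ≤ J w ∧ Vn w n ≤ κ w * n) (t : ℕ) (ht : 5 ≤ t) :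
    qq (t + 1) ^ y * (1 - 1 / (t : ℝ) * ∫ w, J w ∂P0 - 2 * (1 / (t : ℝ)) ^ 2 * ∫ w, |J w| ∂P0 -
      4 * (∫ w, κ w ∂P0) * (1 / (t : ℝ)) ^ 2 * y) ≤
      ∫ u, qq t ^ u ∂((Qa P0).map (fun a => Uo a y)) := by
  have ht' : (5 : ℝ) ≤ t := by exact_mod_cast ht
  have mφ : Measurable (fun a : ℕ → Bool => qq t ^ Uo a y) :=
    (Measurable.of_discrete (f := fun u : ℕ => qq t ^ u)).comp (meas_Uo y)
  have bφ : ∀ a : ℕ → Bool, |qq t ^ Uo a y| ≤ 1 := fun a => by
    rw [abs_of_nonneg (pow_nonneg (qq_nonneg t) _)]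
    exact pow_le_one₀ (qq_nonneg t) (qq_le_one t)
  obtain ⟨iQ, eQ⟩ := integral_Qa P0 mφ bφ
  rw [integral_map (meas_Uo y).aemeasurable
    (Measurable.of_discrete (f := fun u : ℕ => qq t ^ u)).aestronglyMeasurable, eQ]
  have iκ : Integrable κ P0 :=
    Integrable.of_bound mκ.aestronglyMeasurable 1 (ae_of_all _ fun w => by
      rw [Real.norm_eq_abs, abs_of_nonneg (hκ w).1]; exact (hκ w).2)
  have i1 : Integrable (fun w => 1 - 1 / (t : ℝ) * J w) P0 :=
    (integrable_const _).sub (iJ.const_mul _)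
  have i2 : Integrable (fun w => 1 - 1 / (t : ℝ) * J w - 2 * (1 / (t : ℝ)) ^ 2 * |J w|) P0 :=
    i1.sub (iJ.abs.const_mul _)
  have i3 : Integrable (fun w => 4 * κ w * (1 / (t : ℝ)) ^ 2 * y) P0 :=
    ((iκ.const_mul _).mul_const _).mul_const _
  have e : ∫ w, qq (t + 1) ^ y * (1 - 1 / (t : ℝ) * J w - 2 * (1 / (t : ℝ)) ^ 2 * |J w| -
      4 * κ w * (1 / (t : ℝ)) ^ 2 * y) ∂P0 =
      qq (t + 1) ^ y * (1 - 1 / (t : ℝ) * ∫ w, J w ∂P0 - 2 * (1 / (t : ℝ)) ^ 2 * ∫ w, |J w| ∂P0 -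
      4 * (∫ w, κ w ∂P0) * (1 / (t : ℝ)) ^ 2 * y) := by
    rw [integral_const_mul, integral_sub i2 i3, integral_sub i1 (iJ.abs.const_mul _),
      integral_sub (integrable_const _) (iJ.const_mul _), integral_const_mul, integral_const_mul,
      integral_mul_const, integral_mul_const, integral_const_mul]
    simp
  rw [← e]
  refine integral_mono_ae ((i2.sub i3).const_mul _) iQ ?_
  filter_upwards [h01, hae] with w hw hw'
  have := hQL w hw (1 / (t : ℝ)) (by positivity)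
    (one_div_le_one_div_of_le (by norm_num) ht') y (J w) (κ w) (hκ w).1 (hκ w).2 hw'
  rw [qq_succ (by omega : 1 ≤ t)] at this
  exact this

theorem pos (hCYL : S_CYL) (P0 : Measure (ℕ → ℝ)) [IsProbabilityMeasure P0] (h01 : In01 P0)
    (hW : Wl P0) (y r : ℕ) (hr : 1 ≤ r) : 0 < Qa P0 {e | Uo e y < r} := by
  have mA : MeasurableSet {a : ℕ → Bool | ∀ c ∈ range y, a c = false} := by
    have : {a : ℕ → Bool | ∀ c ∈ range y, a c = false} =
        ⋂ c ∈ range y, {a : ℕ → Bool | a c = false} := by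
      ext a; simp
    rw [this]
    exact Finset.measurableSet_biInter _ fun c _ =>
      measurableSet_eq_fun (measurable_pi_apply c) measurable_const
  have sub : {a : ℕ → Bool | ∀ c ∈ range y, a c = false} ⊆ {e | Uo e y < r} := by
    intro a ha
    have h1 : Rr a y = 0 := by
      unfold Rr
      rw [card_eq_zero, filter_eq_empty_iff]
      intro c hc
      simp [ha c hc]
    have h2 := Rr_add_Ll a y
    have h3 := Uo_le (a := a) (y := y) (n := y) (by omega)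
    show Uo a y < r
    omega
  refine lt_of_lt_of_le ?_ (measure_mono sub)
  rw [pos_iff_ne_zero]
  intro h0
  rw [Qa, Measure.map_apply meas_arr2 mA, Measure.measure_prod_null (meas_arr2 mA)] at h0
  have h1 : ∀ᵐ w ∂P0, ¬ ∀ n, w n < 1 := by
    filter_upwards [h01, h0] with w hw hw0 hlt
    have h2 := hCYL ℕ w hw (range y) (fun _ => false)
    have h3 : lamU ℕ {u | ∀ c ∈ range y, arr w u c = false} = 0 := hw0
    rw [Measure.real, h3, ENNReal.toReal_zero] at h2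
    have h4 : 0 < ∏ c ∈ range y, pr (w c) false :=
      prod_pos fun c _ => by rw [pr_false]; linarith [hlt c]
    linarith
  rw [ae_iff] at h1
  simp only [not_not] at h1
  exact hW.ne' h1

theorem inf (hINF : S_INF) (P0 : Measure (ℕ → ℝ)) [IsProbabilityMeasure P0] (h01 : In01 P0)
    (y : ℕ) (J : (ℕ → ℝ) → ℝ) (hae : ∀ᵐ w ∂P0, ∀ n, y ≤ n → psum w n ≤ J w) :
    ∀ᵐ a ∂Qa P0, ∀ m, ∃ i, m ≤ i ∧ a i = false := by
  refine ae_Qa P0 (measSet_inf false) ?_
  filter_upwards [h01, hae] with w hw hJ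
  refine hINF w hw false ?_
  have h1 : Tendsto (fun n : ℕ => ((n : ℝ) + -J w) / 2) atTop atTop :=
    (tendsto_atTop_add_const_right _ _ tendsto_natCast_atTop_atTop).atTop_div_const (by norm_num)
  refine tendsto_atTop_mono' _ ?_ h1
  filter_upwards [eventually_ge_atTop y] with n hn
  rw [sum_pr_false]
  linarith [hJ n hn]

theorem alive (a : ℤ → ℕ → Bool) (r : ℕ) (hi : ∀ x m, ∃ i, m ≤ i ∧ a x i = false)
    (hs : Surv a r) :
    ∃ z, ∀ n, r ≤ it (fun e z => Uo e (z + 1 - r)) (fun i : ℕ => a ((i : ℤ) + 1)) z (n + 1) := by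
  obtain ⟨n, hn⟩ := hs
  refine ⟨Rr (a ((0 : ℕ) : ℤ)) (n 0), fun x => ?_⟩
  have key : ∀ x : ℕ, Rr (a (x : ℤ)) (n x) ≤
      it (fun e z => Uo e (z + 1 - r)) (fun i : ℕ => a ((i : ℤ) + 1))
        (Rr (a ((0 : ℕ) : ℤ)) (n 0)) x := by
    intro x
    induction x with
    | zero => exact le_rfl
    | succ x ih =>
      have h1 := hn x
      rw [Nat.cast_succ]
      exact le_Uo (exists_Ll_ge (hi _) _) (by omega)
  have h1 := hn (x + 1)
  have h2 := key (x + 1)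
  omega

end KILLQx

theorem p_KILLQ (hCYL : S_CYL) (hINF : S_INF) (hQL : S_QL) (hCH : S_CH) (hKILL : S_KILL) (hLR2 : S_LR2) :
    S_KILLQ := by
  intro P0 _ r h01 hW hr hC
  obtain ⟨K, η, hK, hη, hL⟩ := hLR2 r hr
  obtain ⟨B, y0, hB⟩ := hC (4 * K) η (by positivity) hη
  obtain ⟨f, z0, hf, hft, hfs⟩ := hL (2 * B) y0 (fun y => (Qa P0).map (fun a => Uo a y))
    (fun y => Measure.isProbabilityMeasure_map (meas_Uo y).aemeasurable) (by
      intro y hy
      obtain ⟨J, κ, -, mκ, iJ, hκ, hJB, hJ, hae⟩ := hB y hy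
      have k0 : 0 ≤ ∫ w, κ w ∂P0 := integral_nonneg fun w => (hκ w).1
      have k1 : ∫ w, κ w ∂P0 ≤ 1 := by
        have iκ : Integrable κ P0 :=
          Integrable.of_bound mκ.aestronglyMeasurable 1 (ae_of_all _ fun w => by
            rw [Real.norm_eq_abs, abs_of_nonneg (hκ w).1]; exact (hκ w).2)
        have := integral_mono iκ (integrable_const (1 : ℝ)) fun w => (hκ w).2
        simpa using this
      refine ⟨4 * ∫ w, κ w ∂P0, by linarith, by linarith, fun t ht => ?_⟩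
      refine le_trans ?_ (KILLQx.low hQL P0 h01 y J κ mκ iJ hκ hae t ht)
      refine mul_le_mul_of_nonneg_left ?_ (pow_nonneg (qq_nonneg _) _)
      have ht' : (5 : ℝ) ≤ t := by exact_mod_cast ht
      have l0 : (0 : ℝ) ≤ 1 / t := by positivity
      have a1 : 1 / (t : ℝ) * ∫ w, J w ∂P0 ≤
          1 / (t : ℝ) * ((r : ℝ) + η / Real.log y - K * (4 * ∫ w, κ w ∂P0)) :=
        mul_le_mul_of_nonneg_left (by linarith) l0
      have a2 : 2 * (1 / (t : ℝ)) ^ 2 * ∫ w, |J w| ∂P0 ≤ 2 * (1 / (t : ℝ)) ^ 2 * B :=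
        mul_le_mul_of_nonneg_left hJB (by positivity)
      have e1 : ((r : ℝ) + η / Real.log y - K * (4 * ∫ w, κ w ∂P0)) / t =
          1 / (t : ℝ) * ((r : ℝ) + η / Real.log y - K * (4 * ∫ w, κ w ∂P0)) := by ring
      have e2 : 2 * B / (t : ℝ) ^ 2 = 2 * (1 / (t : ℝ)) ^ 2 * B := by ring
      have e3 : (4 * ∫ w, κ w ∂P0) * y / (t : ℝ) ^ 2 =
          4 * (∫ w, κ w ∂P0) * (1 / (t : ℝ)) ^ 2 * y := by ring
      rw [e1, e2, e3]
      linarith)
  have mF : ∀ z, Measurable (fun e : ℕ → Bool => Uo e (z + 1 - r)) := fun z => meas_Uo _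
  have hk := hKILL (ℕ → Bool) (Qa P0) (fun e z => Uo e (z + 1 - r)) r z0 f mF hf hft
    (fun z hz => by
      have := hfs z hz
      rwa [lintegral_map (Measurable.of_discrete (f := f)) (meas_Uo _)] at this)
    (fun z => KILLQx.pos hCYL P0 h01 hW _ r hr)
  have hnull : ∀ᵐ a ∂Fld P0, ∀ z, ¬ ∀ n, r ≤ it (fun e z => Uo e (z + 1 - r))
      (fun i : ℕ => a ((i : ℤ) + 1)) z (n + 1) := by
    rw [ae_all_iff]
    intro z
    have := (hCH (ℕ → Bool) (ℤ → ℕ → Bool) (Qa P0) (Fld P0) (fun n a => a ((n : ℤ) + 1))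
      (fun e z => Uo e (z + 1 - r)) r mF (fun n => measurable_pi_apply _) (fld_indep P0)
      (fun n => fld_map P0 _) z).2
    rw [hk z] at this
    rw [ae_iff]
    simpa only [not_not] using this
  obtain ⟨J, κ, -, -, -, -, -, -, hae⟩ := hB y0 le_rfl
  have hinf := ae_fld P0 (KILLQx.inf hINF P0 h01 y0 J
    (hae.mono fun w hw n hn => (hw n hn).1))
  filter_upwards [hnull, hinf] with a h1 h2 hs
  obtain ⟨z, hz⟩ := KILLQx.alive a r h2 hs
  exact h1 z hz

end Pool.Agent.P.MP_c7fa75_pr.T
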