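import Pool.Agent.P.MP_c7fa75_pr.T.Iface

/-! Step Main. -/

set_option autoImplicit false

namespace Pool.Agent.P.MP_c7fa75_pr.T

open MeasureTheory ProbabilityTheory Filter Topology Finset
open scoped ENNReal Classical

namespace Mainx

theorem lt_iff (a c : ℝ≥0∞) {b : ℝ≥0∞} (hb : b ≠ ⊤) :
    (c : EReal) < (a : EReal) - (b : EReal) ↔ c + b < a := by
  rw [EReal.lt_sub_iff_add_lt (Or.inl (EReal.coe_ennreal_ne_bot b))
    (Or.inl (by simpa using hb)), ← EReal.coe_ennreal_add, EReal.coe_ennreal_lt_coe_ennreal_iff]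

theorem le_iff (a c : ℝ≥0∞) {b : ℝ≥0∞} (hb : b ≠ ⊤) :
    (c : EReal) ≤ (a : EReal) - (b : EReal) ↔ c + b ≤ a := by
  rw [EReal.le_sub_iff_add_le (Or.inl (EReal.coe_ennreal_ne_bot b))
    (Or.inl (by simpa using hb)), ← EReal.coe_ennreal_add, EReal.coe_ennreal_le_coe_ennreal_iff]

theorem cast_nat (k : ℕ) : (k : EReal) = ((k : ℝ≥0∞) : EReal) := by
  induction k with
  | zero => simp
  | succ k ih => rw [Nat.cast_succ, Nat.cast_succ, EReal.coe_ennreal_add, ih]; simp

theorem meas_lim : MeasurableSet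
    {w : ℕ → ℝ | ∃ s : EReal, Tendsto (fun n : ℕ => (psum w n : EReal)) atTop (𝓝 s)} := by
  have : {w : ℕ → ℝ | ∃ s : EReal, Tendsto (fun n : ℕ => (psum w n : EReal)) atTop (𝓝 s)} =
      {w | liminf (fun n : ℕ => (psum w n : EReal)) atTop = total w} := by
    ext w
    constructor
    · rintro ⟨s, hs⟩
      exact hs.liminf_eq.trans hs.limsup_eq.symm
    · intro h
      exact ⟨total w, tendsto_of_liminf_eq_limsup h rfl⟩
  rw [this]
  exact measurableSet_eq_fun
    (Measurable.liminf fun n => measurable_coe_real_ereal.comp (meas_psum n)) meas_total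

theorem meas_in : MeasurableSet {w : ℕ → ℝ | ∀ i, w i ∈ Set.Icc (0 : ℝ) 1} := by
  have : {w : ℕ → ℝ | ∀ i, w i ∈ Set.Icc (0 : ℝ) 1} = ⋂ i, (fun w => w i) ⁻¹' Set.Icc (0 : ℝ) 1 := by
    ext w; simp
  rw [this]
  exact MeasurableSet.iInter fun i => measurable_pi_apply i measurableSet_Icc

theorem meas_l : MeasurableSet {w : ℕ → ℝ | ∀ n, w n < 1} := by
  have : {w : ℕ → ℝ | ∀ n, w n < 1} = ⋂ i, (fun w => w i) ⁻¹' Set.Iio (1 : ℝ) := by
    ext w; simp
  rw [this]
  exact MeasurableSet.iInter fun i => measurable_pi_apply i measurableSet_Iio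

theorem meas_r : MeasurableSet {w : ℕ → ℝ | ∀ n, 0 < w n} := by
  have : {w : ℕ → ℝ | ∀ n, 0 < w n} = ⋂ i, (fun w => w i) ⁻¹' Set.Ioi (0 : ℝ) := by
    ext w; simp
  rw [this]
  exact MeasurableSet.iInter fun i => measurable_pi_apply i measurableSet_Ioi

theorem env_of {Θ : Type} [MeasurableSpace Θ] {μ : Measure Θ} {W : Θ → ℤ → ℕ → ℝ}
    (hW : Measurable W) (hind : iIndepFun (fun (x : ℤ) (ω : ℤ → ℕ → ℝ) => ω x) (μ.map W))
    (hid : ∀ x : ℤ, IdentDistrib (fun ω : ℤ → ℕ → ℝ => ω x) (fun ω => ω 0) (μ.map W) (μ.map W)) :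
    Env μ W ((μ.map W).map (fun ω => ω 0)) := by
  constructor
  · rw [iIndepFun_iff_measure_inter_preimage_eq_mul] at hind ⊢
    intro S sets hs
    have h := hind S hs
    rw [Measure.map_apply hW
      (S.measurableSet_biInter fun i hi => measurable_pi_apply i (hs i hi))] at h
    rw [Finset.prod_congr rfl fun i hi => Measure.map_apply hW (measurable_pi_apply i (hs i hi))]
      at h
    rw [Set.preimage_iInter₂] at h
    exact h
  · intro x
    rw [← (hid x).map_eq, Measure.map_map (measurable_pi_apply x) hW]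
    rfl

end Mainx

theorem p_Main (hCORE : S_CORE) (hRFL0 : S_RFL0) :
    S_Main := by
  intro P hP h01 hind hid hell hlim hm hdr Θ _ μ hμ W X env hW hmap hX he0 heT heN hx0 hnn hce k hk
  subst hmap
  have m0 : Measurable (fun ω : ℤ → ℕ → ℝ => ω 0) := measurable_pi_apply 0
  set P := μ.map W with hPdef
  set P0 : Measure (ℕ → ℝ) := P.map (fun ω => ω 0) with hP0
  have : IsProbabilityMeasure P0 := Measure.isProbabilityMeasure_map m0.aemeasurable
  let M : Mod μ :=
    { W := W, X := X, env := env, mW := hW, mX := hX, env0 := he0, envT := heT, envN := heN,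
      nn := fun θ => ⟨fun j => hx0 j θ, fun j n => hnn j θ n⟩, ce := hce }
  have a01 : In01 P0 :=
    (ae_map_iff m0.aemeasurable Mainx.meas_in).2 (h01.mono fun ω h => h 0)
  have aenv : Env μ M.W P0 := Mainx.env_of hW hind hid
  have aWl : Wl P0 := by
    unfold Wl
    rw [Measure.map_apply m0 Mainx.meas_l]
    exact (hell 0).2
  have aWr : Wr P0 := by
    unfold Wr
    rw [Measure.map_apply m0 Mainx.meas_r]
    exact (hell 0).1
  have aLim : Lim P0 := (ae_map_iff m0.aemeasurable Mainx.meas_lim).2 hlim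
  have aHm : Hm P0 := by
    unfold Hm
    have hh : Measurable fun w : ℕ → ℝ => ⨆ n : ℕ, ENNReal.ofReal (- psum w n) :=
      Measurable.iSup fun n => (meas_psum n).neg.ennreal_ofReal
    rw [lintegral_map hh m0]
    exact hm
  have edr : drift P = (dp P0 : EReal) - (dm P0 : EReal) := by
    unfold drift dp dm
    have hh : Measurable fun w : ℕ → ℝ => (-(total w)).toENNReal := meas_total.neg.ereal_toENNReal
    rw [lintegral_map meas_total.ereal_toENNReal m0, lintegral_map hh m0]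
  have hfin : dm P0 ≠ ⊤ := ((hRFL0 P0).2.2.2.2.2.2.1 aHm).ne
  have hle : dm P0 ≤ dp P0 := by
    have := (Mainx.le_iff (dp P0) 0 hfin).1 (by rw [← edr]; simpa using hdr)
    simpa using this
  obtain ⟨c1, c2⟩ := hCORE Θ μ M P0 a01 aenv aWl aWr aLim aHm hle k hk
  rw [edr, Mainx.cast_nat k]
  refine ⟨fun h => c1 ((Mainx.lt_iff _ _ hfin).1 h), fun hp h => ?_⟩
  have aHp : Hp P0 := by
    unfold Hp
    rw [lintegral_map (Measurable.iSup fun n => (meas_psum n).ennreal_ofReal) m0]
    exact hp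
  have h3 := c2 aHp (by
    rcases h with h | ⟨h, hr⟩
    · exact Or.inl (not_le.1 fun h' => h.not_ge ((Mainx.le_iff _ _ hfin).2 h'))
    · refine Or.inr ⟨not_lt.1 fun h' => ((Mainx.lt_iff _ _ hfin).2 h').ne h.symm, ?_⟩
      unfold Rate
      refine hr.congr fun y => ?_
      rw [lintegral_map (meas_osc y) m0])
  rw [ae_iff] at h3
  simp only [not_not] at h3
  exact h3

end Pool.Agent.P.MP_c7fa75_pr.T
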