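import Pool.Agent.P.MP_c7fa75_pr.T.Iface

/-! Step SURVQ. -/

set_option autoImplicit false

namespace Pool.Agent.P.MP_c7fa75_pr.T

open MeasureTheory ProbabilityTheory Filter Topology Finset
open scoped ENNReal Classical

namespace SURVQx

theorem surv_of_alive (a : ℤ → ℕ → Bool) (r z : ℕ) (Nz : ℕ → ℕ) (hz : r ≤ z)
    (hinf : ∀ m, ∃ i, m ≤ i ∧ a 0 i = true)
    (hal : ∀ n, r ≤ it (fun (e : ℕ → Bool) (z : ℕ) => Rr e (tau e (z + 1 - r) (Nz z)))
      (fun i : ℕ => a ((i : ℤ) + 1)) z (n + 1)) : Surv a r := by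
  set s : ℕ → ℕ := it (fun (e : ℕ → Bool) (z : ℕ) => Rr e (tau e (z + 1 - r) (Nz z)))
      (fun i : ℕ => a ((i : ℤ) + 1)) z with hs
  have hs0 : s 0 = z := rfl
  have hs1 : ∀ n : ℕ, s (n + 1) =
      Rr (a ((n : ℤ) + 1)) (tau (a ((n : ℤ) + 1)) (s n + 1 - r) (Nz (s n))) := fun n => rfl
  have hr : ∀ n, r ≤ s n := by
    intro n
    cases n with
    | zero => exact hz
    | succ n => exact hal n
  obtain ⟨n0, hn0⟩ := exists_Rr_ge hinf z
  have hex : ∀ n : ℕ, ∃ m, Ll (a ((n : ℤ) + 1)) m < s n + 1 - r ∧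
      Rr (a ((n : ℤ) + 1)) m = s (n + 1) := by
    intro n
    have h1 : 1 ≤ s n + 1 - r := by have := hr n; omega
    rw [hs1]
    exact exists_of_tau _ h1 _
  choose m hm using hex
  refine ⟨fun x => Nat.casesOn x n0 m, fun x => ?_⟩
  have h1 := (hm x).1
  have h2 := hr x
  cases x with
  | zero =>
    have h3 : z ≤ Rr (a ((0 : ℕ) : ℤ)) n0 := hn0
    show Ll (a (((0 : ℕ) : ℤ) + 1)) (m 0) + r ≤ Rr (a ((0 : ℕ) : ℤ)) n0
    rw [hs0] at h1 h2
    omega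
  | succ x =>
    have h3 : Rr (a ((x + 1 : ℕ) : ℤ)) (m x) = s (x + 1) := by
      rw [Nat.cast_succ]
      exact (hm x).2
    show Ll (a (((x + 1 : ℕ) : ℤ) + 1)) (m (x + 1)) + r ≤ Rr (a ((x + 1 : ℕ) : ℤ)) (m x)
    omega

theorem inf_true (hINF : S_INF) (P0 : Measure (ℕ → ℝ)) [IsProbabilityMeasure P0] (h01 : In01 P0)
    (y0 : ℕ) (J : (ℕ → ℝ) → ℝ) (hae : ∀ᵐ w ∂P0, ∀ n, y0 ≤ n → J w ≤ psum w n) :
    ∀ᵐ a ∂Fld P0, ∀ x m, ∃ i, m ≤ i ∧ a x i = true := by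
  refine ae_fld P0 (φ := fun e => ∀ m, ∃ i, m ≤ i ∧ e i = true) ?_
  refine ae_Qa P0 (measSet_inf true) ?_
  unfold In01 at h01
  filter_upwards [h01, hae] with w hw hJ
  refine hINF w hw true ?_
  have h1 : Tendsto (fun n : ℕ => ((n : ℝ) + J w) / 2) atTop atTop :=
    (tendsto_atTop_add_const_right _ _ tendsto_natCast_atTop_atTop).atTop_div_const two_pos
  refine tendsto_atTop_mono' _ ?_ h1
  filter_upwards [eventually_ge_atTop y0] with n hn
  rw [sum_pr_true]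
  have := hJ n hn
  linarith

theorem step_bound (hQU : S_QU) (P0 : Measure (ℕ → ℝ)) [IsProbabilityMeasure P0] (h01 : In01 P0)
    (y0 : ℕ) (J : (ℕ → ℝ) → ℝ) (mJ : Measurable J)
    (hae : ∀ᵐ w ∂P0, ∀ n, y0 ≤ n → J w ≤ psum w n) (t y N : ℕ) (ht : 2 ≤ t) (hy : y0 ≤ y) :
    ∫ u, qq t ^ u ∂((Qa P0).map (fun e => Rr e (tau e y N))) ≤
      ∫ w, min 1 (qq (t + 1) ^ y * Real.exp (-(1 / (t : ℝ) * J w))) ∂P0 + qq t ^ (N - y) := by
  have hq0 := qq_nonneg t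
  have hq1 := qq_le_one t
  have mφ : Measurable (fun e : ℕ → Bool => qq t ^ Rr e (tau e y N)) :=
    (Measurable.of_discrete (f := fun u : ℕ => qq t ^ u)).comp (meas_Rr_tau y N)
  have bφ : ∀ e : ℕ → Bool, |qq t ^ Rr e (tau e y N)| ≤ 1 := fun e => by
    rw [abs_of_nonneg (pow_nonneg hq0 _)]
    exact pow_le_one₀ hq0 hq1
  rw [integral_map (meas_Rr_tau y N).aemeasurable
    (Measurable.of_discrete (f := fun u : ℕ => qq t ^ u)).aestronglyMeasurable]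
  obtain ⟨hi, he⟩ := integral_Qa P0 mφ bφ
  rw [he]
  have mA : Measurable (fun w => min 1 (qq (t + 1) ^ y * Real.exp (-(1 / (t : ℝ) * J w)))) := by
    fun_prop
  have iA : Integrable (fun w => min 1 (qq (t + 1) ^ y * Real.exp (-(1 / (t : ℝ) * J w)))) P0 := by
    refine Integrable.of_bound mA.aestronglyMeasurable 1 (ae_of_all _ fun w => ?_)
    rw [Real.norm_eq_abs, abs_of_nonneg (le_min zero_le_one
      (mul_nonneg (pow_nonneg (qq_nonneg _) _) (Real.exp_pos _).le))]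
    exact min_le_left _ _
  have hc : qq t ^ (N - y) = ∫ _w, qq t ^ (N - y) ∂P0 := by simp
  rw [hc, ← integral_add iA (integrable_const _)]
  refine integral_mono_ae hi (iA.add (integrable_const _)) ?_
  unfold In01 at h01
  filter_upwards [h01, hae] with w hw hJ
  have ht0 : (2 : ℝ) ≤ t := by exact_mod_cast ht
  have l0 : (0 : ℝ) < 1 / t := by positivity
  have l1 : (1 : ℝ) / t < 1 := by rw [div_lt_one (by linarith)]; linarith
  have h1 := hQU w hw (1 / t) l0 l1 y N (J w) fun n hn => hJ n (hy.trans hn)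
  rw [qq_succ (by omega)] at h1
  have h2 : ∫ u, qq t ^ Rr (arr w u) (tau (arr w u) y N) ∂lamU ℕ ≤ 1 := by
    have h3 := norm_integral_le_of_norm_le_const (μ := lamU ℕ)
      (f := fun u => qq t ^ Rr (arr w u) (tau (arr w u) y N)) (C := 1)
      (ae_of_all _ fun u => bφ (arr w u))
    rw [Real.norm_eq_abs, probReal_univ, mul_one] at h3
    exact (le_abs_self _).trans h3
  have h4 : 0 ≤ qq t ^ (N - y) := pow_nonneg hq0 _
  have h5 : ∫ u, qq t ^ Rr (arr w u) (tau (arr w u) y N) ∂lamU ℕ ≤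
      qq (t + 1) ^ y * Real.exp (-(1 / (t : ℝ) * J w)) + qq t ^ (N - y) := h1
  show ∫ u, qq t ^ Rr (arr w u) (tau (arr w u) y N) ∂lamU ℕ ≤
    min 1 (qq (t + 1) ^ y * Real.exp (-(1 / (t : ℝ) * J w))) + qq t ^ (N - y)
  rcases le_total 1 (qq (t + 1) ^ y * Real.exp (-(1 / (t : ℝ) * J w))) with h | h
  · rw [min_eq_left h]; linarith
  · rw [min_eq_right h]; exact h5

end SURVQx

theorem p_SURVQ (hINF : S_INF) (hQU : S_QU) (hCH : S_CH) (hSUP : S_SUP) (hLT0 : S_LT0) (hLT1 : S_LT1) (hLT2 : S_LT2) (hHT : S_HT) :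
    S_SURVQ := by
  intro P0 _ r h01 hLim hHm hr hd
  obtain ⟨y0, J, mJ, iJ, hJ, hae⟩ := hHT P0 (r : NNReal) 0 hLim hHm (by simpa using hd)
  have hJ' : (r : ℝ) < ∫ w, J w ∂P0 := by simpa using hJ
  obtain ⟨η, η0, η1, η2⟩ : ∃ η : ℝ, 0 < η ∧ η ≤ 1 ∧ (r : ℝ) + 3 * η < ∫ w, J w ∂P0 := by
    refine ⟨min ((∫ w, J w ∂P0 - r) / 4) 1, lt_min (by linarith) one_pos, min_le_right _ _, ?_⟩
    have := min_le_left ((∫ w, J w ∂P0 - r) / 4) 1
    linarith
  obtain ⟨c, hc, hc2⟩ := hLT0 (ℕ → ℝ) P0 J (1 + η) mJ iJ (by linarith) (by linarith)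
  obtain ⟨f, z0, Nz, hz0, hf1, hf0, hfs⟩ := hLT2 r y0 (1 + η) η c
    (fun y N => (Qa P0).map (fun e => Rr e (tau e y N))) hr η0 hc
    (fun y N => Measure.isProbabilityMeasure_map (meas_Rr_tau y N).aemeasurable) (by
      intro β hβ
      obtain ⟨t0, ht0⟩ := hLT1 (ℕ → ℝ) P0 J ((r : ℝ) + 3 * η) β mJ iJ η2 hβ
      refine ⟨max t0 2, fun t ht y hy hy1 N => ?_⟩
      have h1 := SURVQx.step_bound hQU P0 h01 y0 J mJ hae t y N (le_of_max_le_right ht) hy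
      have h2 := ht0 t (le_of_max_le_left ht) y
      have h3 := hc2 y hy1
      have h4 : (r : ℝ) - 1 + (1 + η) + 2 * η = (r : ℝ) + 3 * η := by ring
      rw [h4]
      linarith)
  have mF : ∀ z : ℕ, Measurable (fun e : ℕ → Bool => Rr e (tau e (z + 1 - r) (Nz z))) :=
    fun z => meas_Rr_tau _ _
  have hsup := hSUP (ℕ → Bool) (Qa P0) (fun e z => Rr e (tau e (z + 1 - r) (Nz z))) r z0 f mF hz0
    hf1 (fun z hz => by
      have h1 := hfs z hz
      rw [lintegral_map (Measurable.of_discrete (f := f)) (mF z)] at h1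
      exact h1)
  have hch := hCH (ℕ → Bool) (ℤ → ℕ → Bool) (Qa P0) (Fld P0)
    (fun (n : ℕ) (a : ℤ → ℕ → Bool) => a ((n : ℤ) + 1))
    (fun e z => Rr e (tau e (z + 1 - r) (Nz z))) r mF (fun n => measurable_pi_apply _)
    (fld_indep P0) (fun n => fld_map P0 _)
  set A : ℕ → Set (ℤ → ℕ → Bool) := fun z => {ω | ∀ n, r ≤
    it (fun (e : ℕ → Bool) (z : ℕ) => Rr e (tau e (z + 1 - r) (Nz z)))
      (fun i : ℕ => ω ((i : ℤ) + 1)) z (n + 1)} with hA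
  have hcompl : ∀ z, Fld P0 (A z)ᶜ ≤ f z := by
    intro z
    have h1 := hsup z
    rw [← (hch z).2] at h1
    have h2 : Fld P0 (A z) + Fld P0 (A z)ᶜ = 1 := prob_add_prob_compl (hch z).1
    have h3 : Fld P0 (A z) + Fld P0 (A z)ᶜ ≤ Fld P0 (A z) + f z := h2.le.trans h1
    exact (ENNReal.add_le_add_iff_left (measure_ne_top _ _)).1 h3
  have hal : ∀ᵐ a ∂Fld P0, ∃ z, r ≤ z ∧ a ∈ A z := by
    rw [ae_iff]
    refine le_antisymm (ge_of_tendsto hf0 ?_) zero_le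
    filter_upwards [eventually_ge_atTop r] with z hz
    refine (measure_mono fun a ha => ?_).trans (hcompl z)
    exact fun h => ha ⟨z, hz, h⟩
  filter_upwards [hal, SURVQx.inf_true hINF P0 h01 y0 J hae] with a ha hi
  obtain ⟨z, hz, ha⟩ := ha
  exact ⟨SURVQx.surv_of_alive a r z Nz hz (hi 0) ha, hi⟩

end Pool.Agent.P.MP_c7fa75_pr.T
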