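import Pool.Agent.P.MP_c7fa75_pr.T.Iface

/-! Step ARR. -/

set_option autoImplicit false

namespace Pool.Agent.P.MP_c7fa75_pr.T

open MeasureTheory ProbabilityTheory Filter Topology Finset
open scoped ENNReal Classical

namespace ARRx

/-- The cookie `(x, m)` was eaten before step `t` of walker `j`, with a step of sign `b`. -/
def Hit (p : ℕ → ℕ → ℤ) (j t : ℕ) (x : ℤ) (m : ℕ) (b : Bool) : Prop :=
  ∃ i s, (i < j ∨ (i = j ∧ s < t)) ∧ Good p i ∧ p i s = x ∧ idx p i s = m ∧
    ((p i (s + 1) = p i s + 1) ↔ b = true)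

/-- The revealed environment. -/
noncomputable def Vv (w : ℤ → ℕ → ℝ) (p : ℕ → ℕ → ℤ) (j t : ℕ) (x : ℤ) (m : ℕ) : ℝ :=
  if Hit p j t x m true then 1 else if Hit p j t x m false then 0 else w x m

variable {w : ℤ → ℕ → ℝ} {p : ℕ → ℕ → ℤ}

theorem uniq (hI : S_IDX) {i i' s s' : ℕ} (h : Good p i) (h' : Good p i') (e : p i s = p i' s')
    (e' : idx p i s = idx p i' s') : i = i' ∧ s = s' := by
  by_contra hn
  have : (i < i' ∨ (i = i' ∧ s < s')) ∨ (i' < i ∨ (i' = i ∧ s' < s)) := by omega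
  rcases this with c | c
  · exact (hI p i i' s s' h' c e).ne e'
  · exact (hI p i' i s' s h c e.symm).ne e'.symm

theorem val (hI : S_IDX) {i s j t : ℕ} (c : i < j ∨ (i = j ∧ s < t)) (h : Good p i) :
    Vv w p j t (p i s) (idx p i s) = if p i (s + 1) = p i s + 1 then 1 else 0 := by
  unfold Vv
  by_cases hu : p i (s + 1) = p i s + 1
  · rw [if_pos ⟨i, s, c, h, rfl, rfl, by simp [hu]⟩, if_pos hu]
  · rw [if_neg, if_pos ⟨i, s, c, h, rfl, rfl, by simp [hu]⟩, if_neg hu]
    rintro ⟨i', s', _, h', e, e', u⟩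
    obtain ⟨rfl, rfl⟩ := uniq hI h' h e e'
    exact hu (u.2 rfl)

theorem fresh (hI : S_IDX) {j t : ℕ} (h : Good p j) :
    Vv w p j t (p j t) (idx p j t) = w (p j t) (idx p j t) := by
  have : ∀ b, ¬ Hit p j t (p j t) (idx p j t) b := by
    rintro b ⟨i, s, c, _, e, e', _⟩
    exact (hI p i j s t h c e).ne e'
  unfold Vv
  rw [if_neg (this _), if_neg (this _)]

theorem same {j t : ℕ} {x : ℤ} {m : ℕ} (h : ¬ (Good p j ∧ (x, m) = (p j t, idx p j t))) :
    Vv w p j (t + 1) x m = Vv w p j t x m := by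
  have : ∀ b, Hit p j (t + 1) x m b ↔ Hit p j t x m b := by
    intro b
    constructor
    · rintro ⟨i, s, c, g, e, e', u⟩
      refine ⟨i, s, ?_, g, e, e', u⟩
      by_contra hc
      obtain ⟨rfl, rfl⟩ : i = j ∧ s = t := by omega
      exact h ⟨g, by rw [e', e]⟩
    · rintro ⟨i, s, c, r⟩
      exact ⟨i, s, by omega, r⟩
  unfold Vv
  rw [this, this]

theorem lim (j : ℕ) (x : ℤ) (m : ℕ) : ∀ᶠ t in atTop, Vv w p j t x m = Vv w p (j + 1) 0 x m := by
  have : ∀ b, ∀ᶠ t in atTop, Hit p j t x m b ↔ Hit p (j + 1) 0 x m b := by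
    intro b
    by_cases h : Hit p (j + 1) 0 x m b
    · obtain ⟨i, s, c, r⟩ := id h
      filter_upwards [eventually_gt_atTop s] with t ht
      exact ⟨fun _ => h, fun _ => ⟨i, s, by omega, r⟩⟩
    · refine Eventually.of_forall fun t => ⟨?_, fun h' => absurd h' h⟩
      rintro ⟨i, s, c, r⟩
      exact ⟨i, s, by omega, r⟩
  filter_upwards [this true, this false] with t h1 h2
  unfold Vv
  rw [h1, h2]

theorem zero (x : ℤ) (m : ℕ) : Vv w p 0 0 x m = w x m := by
  have : ∀ b, ¬ Hit p 0 0 x m b := by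
    rintro b ⟨i, s, c, _⟩
    omega
  unfold Vv
  rw [if_neg (this _), if_neg (this _)]

theorem mem (h : ∀ x n, w x n ∈ Set.Icc (0 : ℝ) 1) (j t : ℕ) (x : ℤ) (m : ℕ) :
    Vv w p j t x m ∈ Set.Icc (0 : ℝ) 1 := by
  unfold Vv
  split_ifs
  · simp
  · simp
  · exact h x m

theorem abs_prod (h : ∀ x n, w x n ∈ Set.Icc (0 : ℝ) 1) (j t : ℕ) (C : Finset (ℤ × ℕ))
    (e : ℤ × ℕ → Bool) : |∏ c ∈ C, pr (Vv w p j t c.1 c.2) (e c)| ≤ 1 := by
  rw [abs_of_nonneg (prod_nonneg fun c _ => (pr_mem (mem h j t _ _) _).1)]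
  exact prod_le_one (fun c _ => (pr_mem (mem h j t _ _) _).1) fun c _ => (pr_mem (mem h j t _ _) _).2

/-- The predictable factor of one step. -/
noncomputable def Zz (w : ℤ → ℕ → ℝ) (p : ℕ → ℕ → ℤ) (j t : ℕ) (C : Finset (ℤ × ℕ))
    (e : ℤ × ℕ → Bool) (c0 : ℤ × ℕ) : ℝ :=
  if Good p j ∧ c0 ∈ C then
    (if e c0 = true then 1 else -1) * ∏ c ∈ C.erase c0, pr (Vv w p j t c.1 c.2) (e c) else 0

theorem incr (hI : S_IDX) (j t : ℕ) (C : Finset (ℤ × ℕ)) (e : ℤ × ℕ → Bool) :
    ∏ c ∈ C, pr (Vv w p j (t + 1) c.1 c.2) (e c) - ∏ c ∈ C, pr (Vv w p j t c.1 c.2) (e c) =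
      Zz w p j t C e (p j t, idx p j t) *
        ((if p j (t + 1) = p j t + 1 then (1 : ℝ) else 0) - w (p j t) (idx p j t)) := by
  unfold Zz
  by_cases h : Good p j ∧ (p j t, idx p j t) ∈ C
  · rw [if_pos h, ← mul_prod_erase C _ h.2, ← mul_prod_erase C _ h.2]
    have : ∏ c ∈ C.erase (p j t, idx p j t), pr (Vv w p j (t + 1) c.1 c.2) (e c) =
        ∏ c ∈ C.erase (p j t, idx p j t), pr (Vv w p j t c.1 c.2) (e c) :=
      prod_congr rfl fun c hc => by rw [same fun h' => (mem_erase.1 hc).1 h'.2]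
    rw [this]
    simp only
    rw [val hI (Or.inr ⟨rfl, Nat.lt_succ_self t⟩) h.1, fresh hI h.1]
    cases e (p j t, idx p j t)
    · simp only [pr_false, Bool.false_eq_true, if_false]; ring
    · simp only [pr_true, if_true]; ring
  · rw [if_neg h, zero_mul, sub_eq_zero]
    refine prod_congr rfl fun c hc => ?_
    rw [same fun h' => h ⟨h'.1, h'.2 ▸ hc⟩]

section meas

variable {Θ : Type} [MeasurableSpace Θ] {W : Θ → ℤ → ℕ → ℝ} {X : ℕ → Θ → ℕ → ℤ} {j t : ℕ}

theorem measHit (hM : S_MEAS) (hX : ∀ i, i < j → Measurable (X i))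
    (hj : ∀ s, s ≤ t → Measurable (fun θ => X j θ s)) (x : ℤ) (m : ℕ) (b : Bool) :
    MeasurableSet {θ | Hit (fun i => X i θ) j t x m b} := by
  have : {θ | Hit (fun i => X i θ) j t x m b} = ⋃ i, ⋃ s, ⋃ _ : i < j ∨ (i = j ∧ s < t),
      {θ | Good (fun i => X i θ) i} ∩ ({θ | X i θ s = x} ∩ ({θ | idx (fun i => X i θ) i s = m} ∩
        (fun θ => (X i θ (s + 1), X i θ s)) ⁻¹' {q | (q.1 = q.2 + 1) ↔ b = true})) := by
    ext θ
    simp only [Hit, Set.mem_setOf_eq, Set.mem_iUnion, Set.mem_inter_iff, Set.mem_preimage,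
      exists_prop]
  rw [this]
  refine MeasurableSet.iUnion fun i => MeasurableSet.iUnion fun s => MeasurableSet.iUnion fun c => ?_
  have h1 : ∀ s', s' ≤ s + 1 → Measurable (fun θ => X i θ s') := by
    intro s' hs'
    rcases c with c | ⟨rfl, c⟩
    · exact (measurable_pi_apply s').comp (hX i c)
    · exact hj s' (by omega)
  obtain ⟨a1, -, -, a4⟩ := hM Θ X i s (fun i' hi' => hX i' (by omega)) fun s' hs' => h1 s' (by omega)
  exact a1.inter ((measurableSet_eq_fun (h1 s (by omega)) measurable_const).inter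
    ((measurableSet_eq_fun a4 measurable_const).inter
      (((h1 (s + 1) le_rfl).prodMk (h1 s (by omega))) MeasurableSet.of_discrete)))

theorem measV (hM : S_MEAS) (hW : Measurable W) (hX : ∀ i, i < j → Measurable (X i))
    (hj : ∀ s, s ≤ t → Measurable (fun θ => X j θ s)) (x : ℤ) (m : ℕ) :
    Measurable (fun θ => Vv (W θ) (fun i => X i θ) j t x m) :=
  Measurable.ite (measHit hM hX hj x m true) measurable_const
    (Measurable.ite (measHit hM hX hj x m false) measurable_const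
      ((measurable_pi_apply m).comp ((measurable_pi_apply x).comp hW)))

theorem measP (hM : S_MEAS) (hW : Measurable W) (hX : ∀ i, i < j → Measurable (X i))
    (hj : ∀ s, s ≤ t → Measurable (fun θ => X j θ s)) (C : Finset (ℤ × ℕ)) (e : ℤ × ℕ → Bool) :
    Measurable (fun θ => ∏ c ∈ C, pr (Vv (W θ) (fun i => X i θ) j t c.1 c.2) (e c)) :=
  Finset.measurable_prod _ fun c _ => (meas_pr (e c)).comp (measV hM hW hX hj c.1 c.2)

theorem measZ (hM : S_MEAS) (hW : Measurable W) (hX : ∀ i, i < j → Measurable (X i))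
    (hj : ∀ s, s ≤ t → Measurable (fun θ => X j θ s)) (C : Finset (ℤ × ℕ)) (e : ℤ × ℕ → Bool) :
    Measurable (fun θ => Zz (W θ) (fun i => X i θ) j t C e (X j θ t, idx (fun i => X i θ) j t)) := by
  obtain ⟨a1, -, -, a4⟩ := hM Θ X j t hX hj
  refine meas_app ((hj t le_rfl).prodMk a4) (g := fun θ c0 => Zz (W θ) (fun i => X i θ) j t C e c0)
    fun c0 => ?_
  exact Measurable.ite (a1.inter (MeasurableSet.const _))
    (measurable_const.mul (measP hM hW hX hj _ e)) measurable_const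

end meas

end ARRx

theorem p_ARR (hIDX : S_IDX) (hMEAS : S_MEAS) :
    S_ARR := by
  intro Θ _ μ _ k R h01
  have hj : ∀ j t s, s ≤ t → Measurable (fun θ => R.X j θ s) :=
    fun j _ s _ => (measurable_pi_apply s).comp (R.mX j)
  refine ⟨fun θ => ARRx.Vv (R.W θ) (fun i => R.X i θ) k 0, ?_, ?_, ?_, fun C e => ?_⟩
  · exact measurable_pi_lambda _ fun x => measurable_pi_lambda _ fun m =>
      ARRx.measV hMEAS R.mW (fun i _ => R.mX i) (hj k 0) x m
  · filter_upwards [h01] with θ h using ARRx.mem h k 0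
  · intro θ j hk g t
    exact ARRx.val hIDX (p := fun i => R.X i θ) (Or.inl hk) g
  · set M : ℕ → ℕ → Θ → ℝ := fun j t θ =>
      ∏ c ∈ C, pr (ARRx.Vv (R.W θ) (fun i => R.X i θ) j t c.1 c.2) (e c) with hM
    have mM : ∀ j t, Measurable (M j t) := fun j t =>
      ARRx.measP hMEAS R.mW (fun i _ => R.mX i) (hj j t) C e
    have bM : ∀ j t, ∀ᵐ θ ∂μ, ‖M j t θ‖ ≤ 1 := fun j t => by
      filter_upwards [h01] with θ h using ARRx.abs_prod h j t C e
    have iM : ∀ j t, Integrable (M j t) μ := fun j t =>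
      Integrable.of_bound (mM j t).aestronglyMeasurable 1 (bM j t)
    have st : ∀ j, j < k → ∀ t, ∫ θ, M j t θ ∂μ = ∫ θ, M j 0 θ ∂μ := by
      intro j hk t
      induction t with
      | zero => rfl
      | succ t ih =>
        rw [← ih, ← sub_eq_zero, ← integral_sub (iM j _) (iM j _)]
        have := R.step j hk t (fun θ => ARRx.Zz (R.W θ) (fun i => R.X i θ) j t C e
          (R.X j θ t, idx (fun i => R.X i θ) j t))
          (@ARRx.measZ Θ (past R.W R.X j t) R.W R.X j t hMEAS (past_W _ _ _ _)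
            (fun i hi => past_X _ _ _ _ hi) (fun s hs => past_Xj _ _ _ _ hs) C e) ?_ ?_
        · rw [← this]
          exact integral_congr_ae (ae_of_all _ fun θ => ARRx.incr hIDX j t C e)
        · filter_upwards [h01] with θ h
          unfold ARRx.Zz
          split_ifs
          · rw [one_mul]; exact ARRx.abs_prod h j t _ e
          · rw [neg_one_mul, abs_neg]; exact ARRx.abs_prod h j t _ e
          · simp
        · intro θ hθ
          by_contra hg
          exact hθ (if_neg fun h' => hg h'.1)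
    have nx : ∀ j, j < k → ∫ θ, M (j + 1) 0 θ ∂μ = ∫ θ, M j 0 θ ∂μ := by
      intro j hk
      have h1 : Tendsto (fun t => ∫ θ, M j t θ ∂μ) atTop (𝓝 (∫ θ, M (j + 1) 0 θ ∂μ)) := by
        refine tendsto_integral_of_dominated_convergence (fun _ => 1)
          (fun t => (mM j t).aestronglyMeasurable) (integrable_const _) (bM j)
          (ae_of_all _ fun θ => tendsto_const_nhds.congr' ?_)
        have : ∀ᶠ t in atTop, ∀ c ∈ C, ARRx.Vv (R.W θ) (fun i => R.X i θ) j t c.1 c.2 =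
            ARRx.Vv (R.W θ) (fun i => R.X i θ) (j + 1) 0 c.1 c.2 :=
          (eventually_all_finset C).2 fun c _ => ARRx.lim j c.1 c.2
        filter_upwards [this] with t ht
        exact prod_congr rfl fun c hc => by rw [ht c hc]
      simp only [st j hk] at h1
      exact tendsto_nhds_unique h1 tendsto_const_nhds
    have al : ∀ j, j ≤ k → ∫ θ, M j 0 θ ∂μ = ∫ θ, M 0 0 θ ∂μ := by
      intro j hk
      induction j with
      | zero => rfl
      | succ j ih => rw [nx j hk, ih (by omega)]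
    have := al k le_rfl
    simpa only [hM, ARRx.zero] using this

end Pool.Agent.P.MP_c7fa75_pr.T
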