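import Pool.Agent.P.MP_c7fa75_pr.T.Iface

/-! Step CH. -/

set_option autoImplicit false

namespace Pool.Agent.P.MP_c7fa75_pr.T

open MeasureTheory ProbabilityTheory Filter Topology Finset
open scoped ENNReal Classical

namespace CHx

variable {E : Type}

theorem it_congr (F : E → ℕ → ℕ) {x x' : ℕ → E} (z : ℕ) {n : ℕ} (h : ∀ i, i < n → x i = x' i) :
    it F x z n = it F x' z n := by
  induction n with
  | zero => rfl
  | succ n ih =>
    show F (x n) (it F x z n) = F (x' n) (it F x' z n)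
    rw [h n (by omega), ih fun i hi => h i (by omega)]

theorem meas_it [MeasurableSpace E] {F : E → ℕ → ℕ} (hF : ∀ z, Measurable (fun e => F e z))
    (z n : ℕ) : Measurable (fun x : ℕ → E => it F x z n) := by
  induction n with
  | zero => exact measurable_const
  | succ n ih =>
    exact meas_app ih (g := fun (x : ℕ → E) y => F (x n) y)
      fun y => (hF y).comp (measurable_pi_apply n)

theorem indep_it [MeasurableSpace E] {Ω : Type} [MeasurableSpace Ω] {μ : Measure Ω}
    [Nonempty E] {ξ : ℕ → Ω → E} {F : E → ℕ → ℕ}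
    (hF : ∀ z, Measurable (fun e => F e z)) (hξ : ∀ n, Measurable (ξ n)) (hi : iIndepFun ξ μ)
    (z n : ℕ) : IndepFun (fun ω => it F (fun i => ξ i ω) z n) (ξ n) μ := by
  have h1 := iIndepFun.indepFun_finset (range n) {n} (by simp) hi hξ
  let ex : (range n → E) → ℕ → E := fun v i =>
    if h : i ∈ range n then v ⟨i, h⟩ else Classical.arbitrary E
  have hex : Measurable ex := by
    refine measurable_pi_lambda _ fun i => ?_
    by_cases h : i ∈ range n
    · simp only [ex, dif_pos h]
      exact measurable_pi_apply _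
    · simp only [ex, dif_neg h]
      exact measurable_const
  have h2 := h1.comp ((meas_it hF z n).comp hex)
    (measurable_pi_apply (⟨n, mem_singleton_self n⟩ : ({n} : Finset ℕ)))
  have e : (((fun x : ℕ → E => it F x z n) ∘ ex) ∘ fun a (i : range n) => ξ i a) =
      fun ω => it F (fun i => ξ i ω) z n := by
    funext ω
    refine it_congr F z fun i hi => ?_
    simp only [ex, dif_pos (mem_range.2 hi)]
  rw [e] at h2
  exact h2

theorem step [MeasurableSpace E] {Ω : Type} [MeasurableSpace Ω] {μ : Measure Ω}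
    [IsProbabilityMeasure μ] {Q : Measure E} [IsProbabilityMeasure Q]
    {ξ : ℕ → Ω → E} {F : E → ℕ → ℕ}
    (hF : ∀ z, Measurable (fun e => F e z)) (hξ : ∀ n, Measurable (ξ n)) (hi : iIndepFun ξ μ)
    (hQ : ∀ n, μ.map (ξ n) = Q) (z n : ℕ) (φ : ℕ → ℝ≥0∞) :
    ∫⁻ ω, φ (it F (fun i => ξ i ω) z (n + 1)) ∂μ =
      ∫⁻ ω, (∫⁻ e, φ (F e (it F (fun i => ξ i ω) z n)) ∂Q) ∂μ := by
  haveI : Nonempty E := nonempty_of_isProbabilityMeasure Q
  have hS : Measurable (fun ω => it F (fun i => ξ i ω) z n) :=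
    (meas_it hF z n).comp (measurable_pi_lambda _ hξ)
  have h1 := (indepFun_iff_map_prod_eq_prod_map_map hS.aemeasurable (hξ n).aemeasurable).1
    (indep_it hF hξ hi z n)
  rw [hQ n] at h1
  have hψ : Measurable (fun p : ℕ × E => φ (F p.2 p.1)) :=
    measurable_from_prod_countable_right fun y => (Measurable.of_discrete (f := φ)).comp (hF y)
  have h2 := lintegral_map (μ := μ) hψ (hS.prodMk (hξ n))
  rw [h1, lintegral_prod _ hψ.aemeasurable,
    lintegral_map (Measurable.of_discrete) hS] at h2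
  exact h2.symm

/-- The chain killed below `r`, shifted by one, with `0` as the cemetery. -/
def kil (F : E → ℕ → ℕ) (r : ℕ) (e : E) (s : ℕ) : ℕ :=
  if s = 0 then 0 else if r ≤ F e (s - 1) then F e (s - 1) + 1 else 0

def lift (g : ℕ → ℝ≥0∞) (s : ℕ) : ℝ≥0∞ := if s = 0 then 0 else g (s - 1)

theorem meas_kil [MeasurableSpace E] {F : E → ℕ → ℕ} (hF : ∀ z, Measurable (fun e => F e z))
    (r s : ℕ) : Measurable (fun e => kil F r e s) :=
  (Measurable.of_discrete
    (f := fun y : ℕ => if s = 0 then 0 else if r ≤ y then y + 1 else 0)).comp (hF (s - 1))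

theorem it_kil (F : E → ℕ → ℕ) (r : ℕ) (x : ℕ → E) (z n : ℕ) :
    it (kil F r) x (z + 1) n =
      if ∀ m, m < n → r ≤ it F x z (m + 1) then it F x z n + 1 else 0 := by
  induction n with
  | zero => rw [if_pos fun m hm => absurd hm (Nat.not_lt_zero m)]; rfl
  | succ n ih =>
    show kil F r (x n) (it (kil F r) x (z + 1) n) = _
    rw [ih]
    by_cases h : ∀ m, m < n → r ≤ it F x z (m + 1)
    · rw [if_pos h, kil, if_neg (Nat.succ_ne_zero _), Nat.add_sub_cancel]
      by_cases h' : r ≤ F (x n) (it F x z n)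
      · rw [if_pos h', if_pos]
        · rfl
        · intro m hm
          rcases Nat.lt_succ_iff_lt_or_eq.1 hm with hm | rfl
          · exact h m hm
          · exact h'
      · rw [if_neg h', if_neg fun h2 => h' (h2 n (Nat.lt_succ_self n))]
    · rw [if_neg h, kil, if_pos rfl, if_neg fun h2 => h fun m hm => h2 m (by omega)]

theorem lift_Kop [MeasurableSpace E] (Q : Measure E) (F : E → ℕ → ℕ) (r : ℕ) (g : ℕ → ℝ≥0∞)
    (s : ℕ) : ∫⁻ e, lift g (kil F r e s) ∂Q = lift (Kop Q F r g) s := by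
  by_cases hs : s = 0
  · simp [lift, kil, hs]
  · rw [lift, if_neg hs, Kop]
    refine lintegral_congr fun e => ?_
    rw [kil, if_neg hs]
    split_ifs with h
    · rw [lift, if_neg (Nat.succ_ne_zero _), Nat.add_sub_cancel]
    · rw [lift, if_pos rfl]

theorem iter [MeasurableSpace E] {Ω : Type} [MeasurableSpace Ω] {μ : Measure Ω}
    [IsProbabilityMeasure μ] {Q : Measure E} [IsProbabilityMeasure Q]
    {ξ : ℕ → Ω → E} {F : E → ℕ → ℕ}
    (hF : ∀ z, Measurable (fun e => F e z)) (hξ : ∀ n, Measurable (ξ n)) (hi : iIndepFun ξ μ)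
    (hQ : ∀ n, μ.map (ξ n) = Q) (r z n : ℕ) (g : ℕ → ℝ≥0∞) :
    ∫⁻ ω, lift g (it (kil F r) (fun i => ξ i ω) (z + 1) n) ∂μ = (Kop Q F r)^[n] g z := by
  induction n generalizing g with
  | zero => simp [it, lift]
  | succ n ih =>
    rw [step (meas_kil hF r) hξ hi hQ, Function.iterate_succ_apply, ← ih]
    exact lintegral_congr fun ω => lift_Kop Q F r g _

end CHx

theorem p_CH :
    S_CH := by
  intro E Ω _ _ Q _ μ _ ξ F r hF hξ hi hQ z
  have hm : ∀ m, MeasurableSet {ω | r ≤ it F (fun i => ξ i ω) z (m + 1)} := fun m =>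
    measurableSet_le measurable_const
      ((CHx.meas_it hF z (m + 1)).comp (measurable_pi_lambda _ hξ))
  let A : ℕ → Set Ω := fun n => {ω | ∀ m, m < n → r ≤ it F (fun i => ξ i ω) z (m + 1)}
  have hA : ∀ n, MeasurableSet (A n) := by
    intro n
    have : A n = ⋂ m, ⋂ (_ : m < n), {ω | r ≤ it F (fun i => ξ i ω) z (m + 1)} := by
      ext ω; simp [A]
    rw [this]
    exact MeasurableSet.iInter fun m => MeasurableSet.iInter fun _ => hm m
  have hI : {ω | ∀ n, r ≤ it F (fun i => ξ i ω) z (n + 1)} = ⋂ n, A n := by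
    ext ω
    simp only [A, Set.mem_iInter]
    exact ⟨fun h n m _ => h m, fun h n => h (n + 1) n (Nat.lt_succ_self n)⟩
  have hanti : Antitone A := fun a b hab ω h m hm => h m (lt_of_lt_of_le hm hab)
  rw [hI]
  refine ⟨MeasurableSet.iInter hA, ?_⟩
  rw [hanti.measure_iInter (fun n => (hA n).nullMeasurableSet) ⟨0, measure_ne_top _ _⟩]
  refine iInf_congr fun n => ?_
  rw [← CHx.iter hF hξ hi hQ r z n, ← lintegral_indicator_one (hA n)]
  refine lintegral_congr fun ω => ?_
  rw [CHx.it_kil]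
  by_cases h : ∀ m, m < n → r ≤ it F (fun i => ξ i ω) z (m + 1)
  · rw [Set.indicator_of_mem (show ω ∈ A n from h), if_pos h, CHx.lift,
      if_neg (Nat.succ_ne_zero _)]
    rfl
  · rw [Set.indicator_of_notMem (show ω ∉ A n from h), if_neg h, CHx.lift, if_pos rfl]

end Pool.Agent.P.MP_c7fa75_pr.T
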