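import Pool.Agent.P.MP_c7fa75_pr.T.Iface

/-! Step CYL. -/

set_option autoImplicit false

namespace Pool.Agent.P.MP_c7fa75_pr.T

open MeasureTheory ProbabilityTheory Filter Topology Finset
open scoped ENNReal Classical

namespace CYLx

theorem ms (w : ℝ) (b : Bool) : MeasurableSet {v : unitInterval | arr1 w v = b} :=
  (meas_arr1 (w := fun _ : unitInterval => w) (u := fun v => v) measurable_const measurable_id)
    (measurableSet_singleton b)

theorem one_true {w : ℝ} (h : w ∈ Set.Icc (0 : ℝ) 1) :
    (volume : Measure unitInterval).real {v | arr1 w v = true} = w := by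
  by_cases h1 : 1 ≤ w
  · have hw : w = 1 := le_antisymm h.2 h1
    have : {v : unitInterval | arr1 w v = true} = Set.univ := by
      ext v; simp [arr1, h1]
    rw [this, hw]; simp
  · have : {v : unitInterval | arr1 w v = true} = Set.Iio (⟨w, h⟩ : unitInterval) := by
      ext v
      simp only [arr1, h1, or_false, decide_eq_true_eq, Set.mem_Iio]
      exact Iff.rfl
    rw [this, measureReal_def, unitInterval.volume_Iio]
    simp [h.1]

theorem one {w : ℝ} (h : w ∈ Set.Icc (0 : ℝ) 1) (b : Bool) :
    (volume : Measure unitInterval).real {v | arr1 w v = b} = pr w b := by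
  cases b
  · have : {v : unitInterval | arr1 w v = false} = {v : unitInterval | arr1 w v = true}ᶜ := by
      ext v; simp
    rw [this, probReal_compl_eq_one_sub (ms w true), one_true h]; rfl
  · exact one_true h

end CYLx

theorem p_CYL :
    S_CYL := by
  intro ι w hw C e
  have hs : {u : ι → unitInterval | ∀ c ∈ C, arr w u c = e c} =
      Set.pi (C : Set ι) (fun c => {v : unitInterval | arr1 (w c) v = e c}) := by
    ext u; simp [Set.mem_pi, arr]
  rw [hs, measureReal_def, lamU, Measure.infinitePi_pi _ (fun c _ => CYLx.ms (w c) (e c)),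
    ENNReal.toReal_prod]
  exact Finset.prod_congr rfl (fun c _ => CYLx.one (hw c) (e c))

end Pool.Agent.P.MP_c7fa75_pr.T
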