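import Pool.Agent.P.MP_c7fa75_pr.T.Iface

/-! Step DT. -/

set_option autoImplicit false

namespace Pool.Agent.P.MP_c7fa75_pr.T

open MeasureTheory ProbabilityTheory Filter Topology Finset
open scoped ENNReal Classical

namespace DTx

theorem vst_succ (q : ℕ → ℤ) (x : ℤ) (t : ℕ) :
    vst q x (t + 1) = vst q x t + if q t = x then 1 else 0 := by
  unfold vst
  rw [range_add_one, filter_insert]
  split_ifs with h
  · rw [card_insert_of_notMem (by simp)]
  · rfl

theorem stp_le (q : ℕ → ℤ) (x : ℤ) (t : ℕ) : stp q x true t ≤ vst q (x + 1) (t + 1) := by
  unfold stp vst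
  refine card_le_card_of_injOn (fun m => m + 1) ?_ ?_
  · intro m hm
    simp only [coe_filter, mem_range, Set.mem_ofPred_eq, iff_true] at hm ⊢
    obtain ⟨h1, h2, h3⟩ := hm
    exact ⟨by omega, by rw [h3, h2]⟩
  · intro m _ m' _ h
    simpa using h

end DTx

open DTx in
theorem p_DT (hFLOW : S_FLOW) (hUSE : S_USE) (hNET : S_NET) :
    S_DT := by
  intro a p k hNN hF hS hinf
  obtain ⟨n, hn⟩ := hS
  have key : ∀ j, j ≤ k → Good p j ∧ ∀ x : ℕ, off p j x ≤ n x := by
    intro j
    induction j with
    | zero =>
      intro _
      exact ⟨fun i hi => absurd hi (Nat.not_lt_zero _), fun x => by simp [off]⟩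
    | succ j ih =>
      intro hj
      have hjk : j < k := hj
      obtain ⟨hG, hoff⟩ := ih hjk.le
      obtain ⟨f1, _, f3, f4⟩ := hFLOW (p j) (hNN.1 j) (hNN.2 j)
      have hA : ∀ t, ∀ x : ℕ, off p j x + vst (p j) x t ≤ n x := by
        intro t
        induction t with
        | zero => intro x; simpa [vst] using hoff x
        | succ t iht =>
          intro x
          rw [vst_succ]
          split_ifs with hq
          · have h0 := iht x
            rcases h0.lt_or_eq with h0 | h0
            · omega
            · exfalso
              have u1 := (hUSE a p k j hF hjk hG x t).1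
              have u2 := (hUSE a p k j hF hjk hG ((x : ℤ) + 1) t).2
              have n1 := hNET a p k j hNN hF hjk.le hG x
              have fl := f1 x t
              rw [if_neg (by rw [hq]; exact lt_irrefl _)] at fl
              have h1 := iht (x + 1)
              push_cast at h1
              have m1 := Ll_mono (a ((x : ℤ) + 1)) h1
              have c1 : ((range j).filter (fun i => Tendsto (p i) atTop atTop)).card ≤ j :=
                (card_filter_le _ _).trans (card_range j).le
              have s1 := hn x
              rw [h0] at u1
              omega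
          · simpa using iht x
      have hB : ∀ m : ℕ, ∃ M, ∀ t, vst (p j) (-(m : ℤ)) t ≤ M := by
        intro m
        induction m with
        | zero =>
          refine ⟨n 0, fun t => ?_⟩
          have := hA t 0
          simp only [Nat.cast_zero, neg_zero] at this ⊢
          omega
        | succ m ihm =>
          obtain ⟨M, hM⟩ := ihm
          set x : ℤ := -((m + 1 : ℕ) : ℤ) with hx
          have hx1 : x + 1 = -(m : ℤ) := by rw [hx]; push_cast; ring
          obtain ⟨N, hN⟩ := exists_Rr_ge (hinf x) (Rr (a x) (off p j x) + M + 1)
          refine ⟨N, fun t => ?_⟩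
          have u1 := (hUSE a p k j hF hjk hG x t).1
          have s1 := stp_le (p j) x t
          rw [hx1] at s1
          have s2 := hM (t + 1)
          by_contra hc
          have h2 : N ≤ off p j x + vst (p j) x t := by omega
          have := Rr_mono (a x) h2
          omega
      have hTr : Tr (p j) := by
        refine f4 fun x => ?_
        rcases Int.eq_nat_or_neg x with ⟨m, rfl | rfl⟩
        · exact ⟨n m, fun t => by have := hA t m; omega⟩
        · exact hB m
      refine ⟨fun i hi => ?_, fun x => ?_⟩
      · rcases (Nat.lt_succ_iff.1 hi).lt_or_eq with h | h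
        · exact hG i h
        · rw [h]; exact hTr
      · obtain ⟨T, hT⟩ := f3 hTr x
        have e1 := (hT T le_rfl).1
        have e2 : off p (j + 1) x = off p j x + vis (p j) x := by
          unfold off; rw [sum_range_succ]
        have := hA T x
        omega
  exact (key k le_rfl).1

end Pool.Agent.P.MP_c7fa75_pr.T
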