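import Pool.Agent.P.MP_c7fa75_pr.T.Iface

/-! Step EXT. -/

set_option autoImplicit false

namespace Pool.Agent.P.MP_c7fa75_pr.T

open MeasureTheory ProbabilityTheory Filter Topology Finset
open scoped ENNReal Classical

theorem p_EXT :
    S_EXT := by
  intro μ ν _ _ h
  let S : Set (Set (ℤ → ℕ → Bool)) := {A | ∃ (C : Finset (ℤ × ℕ)) (e : ℤ × ℕ → Bool),
    A = {a | ∀ c ∈ C, a c.1 c.2 = e c}}
  refine ext_of_generate_finite S (le_antisymm ?_ (MeasurableSpace.generateFrom_le ?_)) ?_ ?_
    (by simp)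
  · have : @Measurable _ _ (MeasurableSpace.generateFrom S) _ (id : (ℤ → ℕ → Bool) → _) := by
      refine @measurable_pi_lambda _ _ _ (MeasurableSpace.generateFrom S) _ _ fun x => ?_
      refine @measurable_pi_lambda _ _ _ (MeasurableSpace.generateFrom S) _ _ fun n => ?_
      refine @measurable_to_bool _ (MeasurableSpace.generateFrom S) _ ?_
      refine MeasurableSpace.measurableSet_generateFrom ⟨{(x, n)}, fun _ => true, ?_⟩
      ext a; simp
    exact fun s hs => this hs
  · rintro _ ⟨C, e, rfl⟩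
    simp only [Set.setOf_forall]
    exact MeasurableSet.iInter fun c => MeasurableSet.iInter fun _ => measurableSet_eq_fun
      ((measurable_pi_apply c.2).comp (measurable_pi_apply c.1)) measurable_const
  · rintro _ ⟨C, e, rfl⟩ _ ⟨C', e', rfl⟩ ⟨a0, h1, h2⟩
    refine ⟨C ∪ C', fun c => a0 c.1 c.2, ?_⟩
    ext a
    simp only [Set.mem_inter_iff, Set.mem_setOf_eq, mem_union]
    constructor
    · rintro ⟨x, y⟩ c (hc | hc)
      · rw [x c hc, h1 c hc]
      · rw [y c hc, h2 c hc]
    · intro x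
      exact ⟨fun c hc => (x c (Or.inl hc)).trans (h1 c hc),
        fun c hc => (x c (Or.inr hc)).trans (h2 c hc)⟩
  · rintro _ ⟨C, e, rfl⟩
    exact h C e

end Pool.Agent.P.MP_c7fa75_pr.T
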