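import Pool.Agent.P.MP_c7fa75_pr.T.Iface

/-! Step FLD. -/

set_option autoImplicit false

namespace Pool.Agent.P.MP_c7fa75_pr.T

open MeasureTheory ProbabilityTheory Filter Topology Finset
open scoped ENNReal Classical

theorem p_FLD (hARR : S_ARR) (hLAW : S_LAW) :
    S_FLD := by
  intro Θ _ μ _ k R P0 _ h01 hE φ hφ
  have hW := hE.ae R.mW h01
  obtain ⟨V, mV, hV, hF, hC⟩ := hARR Θ μ k R hW
  have hL := hLAW Θ μ R.W V P0 R.mW mV h01 hE hV hC
  have hm : Measurable (fun (p : Θ × (ℤ × ℕ → unitInterval)) (x : ℤ) (n : ℕ) =>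
      arr1 (V p.1 x n) (p.2 (x, n))) :=
    measurable_pi_lambda _ fun x => measurable_pi_lambda _ fun n =>
      meas_arr1 ((measurable_pi_apply n).comp ((measurable_pi_apply x).comp
        (mV.comp measurable_fst))) ((measurable_pi_apply (x, n)).comp measurable_snd)
  rw [← hL] at hφ
  have h1 := ae_of_ae_map hm.aemeasurable hφ
  have h2 := Measure.ae_ae_of_ae_prod h1
  filter_upwards [h2] with θ hθ
  obtain ⟨u, hu⟩ := hθ.exists
  refine ⟨_, hu, ?_⟩
  intro j hj hG t
  have e := hF θ j hj hG t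
  show arr1 (V θ (R.X j θ t) (idx (fun i => R.X i θ) j t)) _ = true ↔ _
  rw [e]
  split_ifs with h
  · simp [arr1_one, h]
  · simp [arr1_zero, h]

end Pool.Agent.P.MP_c7fa75_pr.T
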