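import Pool.Agent.P.MP_c7fa75_pr.T.Iface

/-! Step FLOW. -/

set_option autoImplicit false

namespace Pool.Agent.P.MP_c7fa75_pr.T

open MeasureTheory ProbabilityTheory Filter Topology Finset
open scoped ENNReal Classical

namespace FLOWx

theorem stp_succ (q : ℕ → ℤ) (x : ℤ) (b : Bool) (t : ℕ) :
    stp q x b (t + 1) = stp q x b t +
      if (q t = x ∧ ((q (t + 1) = q t + 1) ↔ b = true)) then 1 else 0 := by
  unfold stp
  rw [range_add_one, filter_insert]
  split_ifs with h
  · rw [card_insert_of_notMem (by simp)]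
  · rfl

theorem flow (q : ℕ → ℤ) (h0 : q 0 = 0) (hn : ∀ n, q (n + 1) = q n + 1 ∨ q (n + 1) = q n - 1)
    (x : ℕ) (t : ℕ) :
    stp q x true t = stp q ((x : ℤ) + 1) false t + if (x : ℤ) < q t then 1 else 0 := by
  induction t with
  | zero =>
    have : ¬ ((x : ℤ) < q 0) := by rw [h0]; omega
    rw [if_neg this]
    rfl
  | succ t ih =>
    rw [stp_succ, stp_succ, ih]
    have e := hn t
    simp only [iff_true, Bool.false_eq_true, iff_false]
    split_ifs <;> omega

theorem sign (q : ℕ → ℤ) (hn : ∀ n, q (n + 1) = q n + 1 ∨ q (n + 1) = q n - 1) (h : Tr q) :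
    Tendsto q atTop atTop ∨ Tendsto q atTop atBot := by
  obtain ⟨T, hT⟩ := eventually_atTop.1 (tendsto_atTop.1 h 1)
  have hne : ∀ t, T ≤ t → q t ≠ 0 := fun t ht e => by
    have := hT t ht
    rw [e] at this
    simp at this
  rcases lt_or_gt_of_ne (hne T le_rfl) with hs | hs
  · right
    have hall : ∀ t, T ≤ t → q t < 0 := by
      intro t ht
      induction t, ht using Nat.le_induction with
      | base => exact hs
      | succ t ht ih =>
        have := hne (t + 1) (by omega)
        have := hn t
        omega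
    refine (tendsto_neg_atTop_atBot.comp h).congr' ?_
    filter_upwards [eventually_ge_atTop T] with t ht
    simp only [Function.comp]
    rw [abs_of_neg (hall t ht), neg_neg]
  · left
    have hall : ∀ t, T ≤ t → 0 < q t := by
      intro t ht
      induction t, ht using Nat.le_induction with
      | base => exact hs
      | succ t ht ih =>
        have := hne (t + 1) (by omega)
        have := hn t
        omega
    refine Tendsto.congr' ?_ h
    filter_upwards [eventually_ge_atTop T] with t ht
    exact abs_of_pos (hall t ht)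

theorem visits (q : ℕ → ℤ) (h : Tr q) (x : ℤ) :
    ∃ T, ∀ t, T ≤ t → vst q x t = vis q x ∧ q t ≠ x := by
  obtain ⟨T, hT⟩ := eventually_atTop.1 (tendsto_atTop.1 h (|x| + 1))
  have hne : ∀ t, T ≤ t → q t ≠ x := fun t ht e => by
    have := hT t ht
    rw [e] at this
    omega
  refine ⟨T, fun t ht => ⟨?_, hne t ht⟩⟩
  unfold vst vis
  refine (Nat.subtype_card _ fun m => ?_).symm
  rw [mem_filter, mem_range]
  refine ⟨fun e => e.2, fun e => ⟨?_, e⟩⟩
  by_contra hm
  exact hne m (by omega) e

theorem trans (q : ℕ → ℤ) (h : ∀ x, ∃ M, ∀ t, vst q x t ≤ M) : Tr q := by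
  have hev : ∀ x, ∀ᶠ t in atTop, q t ≠ x := by
    intro x
    obtain ⟨M, hM⟩ := h x
    have hfin : Set.Finite {m | q m = x} := by
      by_contra hinf
      obtain ⟨s, hs, hc⟩ := Set.Infinite.exists_subset_card_eq hinf (M + 1)
      have h1 : s ⊆ (range (s.sup id + 1)).filter (fun m => q m = x) := by
        intro m hm
        rw [mem_filter, mem_range]
        exact ⟨Nat.lt_succ_of_le (le_sup (f := id) hm), hs hm⟩
      have h2 := card_le_card h1
      have h3 := hM (s.sup id + 1)
      unfold vst at h3
      omega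
    obtain ⟨B, hB⟩ := hfin.bddAbove
    filter_upwards [eventually_gt_atTop B] with t ht e
    exact absurd (hB e) (not_le.2 ht)
  refine tendsto_atTop.2 fun b => ?_
  have := (eventually_all_finset (Finset.Icc (-b) b)).2 fun x _ => hev x
  filter_upwards [this] with t ht
  by_contra hb
  have hb' := abs_lt.1 (not_le.1 hb)
  exact ht (q t) (mem_Icc.2 ⟨hb'.1.le, hb'.2.le⟩) rfl

end FLOWx

theorem p_FLOW :
    S_FLOW := fun q h0 hn =>
  ⟨FLOWx.flow q h0 hn, FLOWx.sign q hn, FLOWx.visits q, FLOWx.trans q⟩

end Pool.Agent.P.MP_c7fa75_pr.T
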