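import Pool.Agent.P.MP_c7fa75_pr.T.Iface

/-! Step HALF. -/

set_option autoImplicit false

namespace Pool.Agent.P.MP_c7fa75_pr.T

open MeasureTheory ProbabilityTheory Filter Topology Finset
open scoped ENNReal Classical

namespace HALFx

noncomputable def hw : ℕ → ℝ := fun _ => 1 / 2

theorem psum_hw (n : ℕ) : psum hw n = 0 := by
  simp [psum, hw]

theorem total_hw : total hw = 0 := by
  simp [total, psum_hw]

theorem dp_hw : dp (Measure.dirac hw) = 0 := by
  simp [dp, lintegral_dirac, total_hw]

theorem dm_hw : dm (Measure.dirac hw) = 0 := by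
  simp [dm, lintegral_dirac, total_hw]

theorem in01_hw : In01 (Measure.dirac hw) := by
  unfold In01
  rw [ae_dirac_eq]
  intro i
  simp only [hw, Set.mem_Icc]
  norm_num

theorem lim_hw : Lim (Measure.dirac hw) := by
  unfold Lim
  rw [ae_dirac_eq]
  refine ⟨0, ?_⟩
  simp [psum_hw]

theorem hp_hw : Hp (Measure.dirac hw) := by
  simp [Hp, lintegral_dirac, psum_hw]

theorem hm_hw : Hm (Measure.dirac hw) := by
  simp [Hm, lintegral_dirac, psum_hw]

theorem wl_hw : Wl (Measure.dirac hw) := by
  unfold Wl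
  rw [Measure.dirac_apply_of_mem]
  · exact zero_lt_one
  · intro n
    simp only [hw]
    norm_num

theorem wr_hw : Wr (Measure.dirac hw) := by
  unfold Wr
  rw [Measure.dirac_apply_of_mem]
  · exact zero_lt_one
  · intro n
    simp only [hw]
    norm_num

theorem env_hw {Θ : Type} [MeasurableSpace Θ] (μ : Measure Θ) [IsProbabilityMeasure μ]
    (W : Θ → ℤ → ℕ → ℝ) (h : ∀ θ x n, W θ x n = 1 / 2) : Env μ W (Measure.dirac hw) := by
  have hW : ∀ θ x, W θ x = hw := fun θ x => funext fun n => h θ x n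
  refine ⟨?_, fun x => ?_⟩
  · rw [iIndepFun_iff_measure_inter_preimage_eq_mul]
    intro S sets _
    by_cases hall : ∀ i ∈ S, hw ∈ sets i
    · have h1 : ∀ i ∈ S, (fun θ => W θ i) ⁻¹' sets i = Set.univ := by
        intro i hi
        ext θ
        simp [hW, hall i hi]
      rw [Finset.prod_congr rfl (fun i hi => by rw [h1 i hi, measure_univ]),
        Set.iInter₂_congr h1]
      simp
    · push Not at hall
      obtain ⟨i, hi, hn⟩ := hall
      have h1 : (fun θ => W θ i) ⁻¹' sets i = ∅ := by
        ext θ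
        simp [hW, hn]
      rw [Finset.prod_eq_zero hi (by rw [h1, measure_empty])]
      refine measure_mono_null (Set.biInter_subset_of_mem (s := (S : Set ℤ)) hi) ?_
      rw [h1, measure_empty]
  · have : (fun θ => W θ x) = fun _ => hw := funext fun θ => hW θ x
    rw [this, Measure.map_const]
    simp

end HALFx

open HALFx in
theorem p_HALF (hNOR : S_NOR) (hNOL : S_NOL) (hHR1 : S_HR1) (hFLOW : S_FLOW) :
    S_HALF := by
  intro Θ _ μ _ R hW
  have hE := env_hw μ R.W hW
  have h1 := hNOR Θ μ 1 R (Measure.dirac hw) 1 in01_hw hE wl_hw le_rfl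
    (fun K η hK hη => hHR1 _ 1 K η in01_hw lim_hw hp_hw (by simp [dp_hw, dm_hw]) hK hη)
  have h2 := hNOL Θ μ 1 R (Measure.dirac hw) in01_hw hE wr_hw lim_hw hm_hw
    (by simp [dp_hw, dm_hw])
  filter_upwards [h1, h2] with θ a b hT
  have hG : Good (fun i => R.X i θ) 1 := by
    intro i hi
    have : i = 0 := by omega
    subst this
    exact hT
  have hn := R.nn θ
  rcases (hFLOW (R.X 0 θ) (hn.1 0) (hn.2 0)).2.1 hT with h | h
  · have := a hG
    have h0 : (0 : ℕ) ∈ (range 1).filter (fun i => Tendsto (R.X i θ) atTop atTop) := by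
      simp [h]
    have := Finset.card_pos.mpr ⟨0, h0⟩
    omega
  · exact b hG 0 zero_lt_one h

end Pool.Agent.P.MP_c7fa75_pr.T
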