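import Pool.Agent.P.MP_c7fa75_pr.T.Iface

/-! Step HR1. -/

set_option autoImplicit false

namespace Pool.Agent.P.MP_c7fa75_pr.T

open MeasureTheory ProbabilityTheory Filter Topology Finset
open scoped ENNReal Classical

namespace HR1x

theorem upper (hHT : S_HT) (hRFL0 : S_RFL0) (P0 : Measure (ℕ → ℝ)) [IsProbabilityMeasure P0]
    (a b : NNReal) (hL : Lim P0) (hp : Hp P0)
    (h : (a : ℝ≥0∞) + dp P0 < dm P0 + (b : ℝ≥0∞)) :
    ∃ (y0 : ℕ) (J : (ℕ → ℝ) → ℝ), Measurable J ∧ Integrable J P0 ∧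
      ∫ w, J w ∂P0 < (b : ℝ) - (a : ℝ) ∧ ∀ᵐ w ∂P0, ∀ n, y0 ≤ n → psum w n ≤ J w := by
  obtain ⟨h1, -, h3, -, h5, -, -, -⟩ := hRFL0 P0
  obtain ⟨h31, h32, h33⟩ := h3 hL
  have := h1
  obtain ⟨y0, J, hJm, hJi, hJ, hae⟩ := hHT (P0.map rfl1) a b h31 (h5 hp) (by rw [h32, h33]; exact h)
  refine ⟨y0, fun w => - J (rfl1 w), (hJm.comp meas_rfl1).neg, ?_, ?_, ?_⟩
  · exact (hJi.comp_measurable meas_rfl1).neg
  · rw [integral_map meas_rfl1.aemeasurable hJm.aestronglyMeasurable] at hJ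
    rw [integral_neg]
    linarith
  · filter_upwards [ae_of_ae_map meas_rfl1.aemeasurable hae] with w hw n hn
    have := hw n hn
    rw [psum_rfl1] at this
    linarith

theorem fin (P0 : Measure (ℕ → ℝ)) (r : ℕ) (K η : ℝ) (hη : 0 < η) (y0 : ℕ)
    (J κ : (ℕ → ℝ) → ℝ) (hJ : Measurable J) (hκ : Measurable κ) (hJi : Integrable J P0)
    (h01 : ∀ w, 0 ≤ κ w ∧ κ w ≤ 1) (hs : ∫ w, J w ∂P0 + K * ∫ w, κ w ∂P0 ≤ r)
    (hae : ∀ᵐ w ∂P0, ∀ n, y0 ≤ n → psum w n ≤ J w ∧ Vn w n ≤ κ w * n) : Ctl P0 r K η := by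
  refine ⟨∫ w, |J w| ∂P0, y0, fun y hy => ⟨J, κ, hJ, hκ, hJi, h01, le_rfl, ?_, ?_⟩⟩
  · have : 0 ≤ η / Real.log y := div_nonneg hη.le (Real.log_natCast_nonneg y)
    linarith
  · filter_upwards [hae] with w hw n hn
    exact hw n (hy.trans hn)

theorem Vn_le (w : ℕ → ℝ) (hw : ∀ i, w i ∈ Set.Icc (0 : ℝ) 1) (n : ℕ) : Vn w n ≤ 1 * n := by
  unfold Vn
  calc ∑ i ∈ range n, (2 * w i - 1) ^ 2 ≤ ∑ _i ∈ range n, (1 : ℝ) := by
        refine sum_le_sum fun i _ => ?_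
        obtain ⟨h0, h1⟩ := hw i
        nlinarith
    _ = 1 * n := by simp

theorem conv (P0 : Measure (ℕ → ℝ)) (hL : Lim P0) (hp : dp P0 < ⊤) (hm : dm P0 < ⊤) :
    ∀ᵐ w ∂P0, ∃ s : ℝ, Tendsto (psum w) atTop (𝓝 s) := by
  have h1 := ae_lt_top meas_total.ereal_toENNReal hp.ne
  have h2 := ae_lt_top meas_total.neg.ereal_toENNReal hm.ne
  filter_upwards [hL, h1, h2] with w hw h1 h2
  obtain ⟨s, hs⟩ := hw
  have ht : total w = s := hs.limsup_eq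
  rw [Pi.neg_apply] at h2
  rw [ht] at h1 h2
  induction s using EReal.rec with
  | bot => simp at h2
  | top => simp at h1
  | coe s => exact ⟨s, EReal.tendsto_coe.1 hs⟩

end HR1x

theorem p_HR1 (hHT : S_HT) (hKAP : S_KAP) (hRFL0 : S_RFL0) :
    S_HR1 := by
  intro P0 _ r K η h01 hL hp hlt hK hη
  have hdp : dp P0 < ⊤ := (hRFL0 P0).2.2.2.2.2.2.2 hp
  by_cases hdm : dm P0 = ⊤
  · obtain ⟨y0, J, hJm, hJi, hJ, hae⟩ := HR1x.upper hHT hRFL0 P0 K.toNNReal (r : NNReal) hL hp (by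
      rw [hdm, top_add]
      exact ENNReal.add_lt_top.2 ⟨ENNReal.coe_lt_top, hdp⟩)
    refine HR1x.fin P0 r K η hη y0 J (fun _ => 1) hJm measurable_const hJi
      (fun _ => ⟨zero_le_one, le_rfl⟩) ?_ ?_
    · rw [Real.coe_toNNReal K hK.le] at hJ
      simp only [integral_const, probReal_univ, smul_eq_mul, mul_one]
      push_cast at hJ
      linarith
    · filter_upwards [hae, h01] with w hw hw' n hn
      exact ⟨hw n hn, HR1x.Vn_le w hw' n⟩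
  · obtain ⟨y0, J, hJm, hJi, hJ, hae⟩ := HR1x.upper hHT hRFL0 P0 0 (r : NNReal) hL hp (by
      rw [ENNReal.coe_zero, zero_add, add_comm]
      simpa using hlt)
    have hJ' : ∫ w, J w ∂P0 < r := by
      push_cast at hJ
      linarith
    obtain ⟨y1, κ, hκm, hκ, hκi, hae'⟩ := hKAP P0 ((r - ∫ w, J w ∂P0) / K) h01
      (HR1x.conv P0 hL hdp (lt_top_iff_ne_top.2 hdm)) (div_pos (by linarith) hK)
    refine HR1x.fin P0 r K η hη (max y0 y1) J κ hJm hκm hJi hκ ?_ ?_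
    · have := mul_le_mul_of_nonneg_left hκi hK.le
      rw [mul_div_cancel₀ _ hK.ne'] at this
      linarith
    · filter_upwards [hae, hae'] with w hw hw' n hn
      exact ⟨hw n ((le_max_left _ _).trans hn), hw' n ((le_max_right _ _).trans hn)⟩

end Pool.Agent.P.MP_c7fa75_pr.T
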