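import Pool.Agent.P.MP_c7fa75_pr.T.Iface

/-! Step HT. -/

set_option autoImplicit false

namespace Pool.Agent.P.MP_c7fa75_pr.T

open MeasureTheory ProbabilityTheory Filter Topology Finset
open scoped ENNReal Classical

namespace HTx

noncomputable def A (w : ℕ → ℝ) : ℝ≥0∞ := ⨆ n : ℕ, ENNReal.ofReal (- psum w n)

theorem meas_A : Measurable A :=
  Measurable.iSup fun n => (meas_psum n).neg.ennreal_ofReal

noncomputable def H (y : ℕ) (w : ℕ → ℝ) : ℝ≥0∞ :=
  min (y : ℝ≥0∞) (⨅ n : ℕ, ENNReal.ofReal (psum w (y + n) + (A w).toReal))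

theorem meas_H (y : ℕ) : Measurable (H y) :=
  measurable_const.min (Measurable.iInf fun n =>
    ((meas_psum (y + n)).add meas_A.ennreal_toReal).ennreal_ofReal)

theorem H_mono : Monotone H := by
  refine monotone_nat_of_le_succ fun y w => ?_
  refine min_le_min (by exact_mod_cast Nat.le_succ y) (le_iInf fun n => ?_)
  have : y + 1 + n = y + (n + 1) := by omega
  rw [this]
  exact iInf_le (fun n : ℕ => ENNReal.ofReal (psum w (y + n) + (A w).toReal)) (n + 1)

theorem H_le (y : ℕ) (w : ℕ → ℝ) : H y w ≤ y := min_le_left _ _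

theorem H_le_psum {y n : ℕ} (h : y ≤ n) (w : ℕ → ℝ) :
    H y w ≤ ENNReal.ofReal (psum w n + (A w).toReal) := by
  obtain ⟨m, rfl⟩ := Nat.exists_eq_add_of_le h
  exact (min_le_right _ _).trans
    (iInf_le (fun n : ℕ => ENNReal.ofReal (psum w (y + n) + (A w).toReal)) m)

theorem psum_ge {w : ℕ → ℝ} (h : A w ≠ ⊤) (n : ℕ) : 0 ≤ psum w n + (A w).toReal := by
  have h1 : ENNReal.ofReal (- psum w n) ≤ A w :=
    le_iSup (fun n : ℕ => ENNReal.ofReal (- psum w n)) n
  have := (ENNReal.ofReal_le_iff_le_toReal h).1 h1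
  linarith

theorem le_sup {w : ℕ → ℝ} {s : EReal}
    (hs : Tendsto (fun n : ℕ => (psum w n : EReal)) atTop (𝓝 s)) {c : ℝ} (hc : (c : EReal) < s) :
    ENNReal.ofReal (c + (A w).toReal) ≤ ⨆ y, H y w := by
  obtain ⟨y0, hy0⟩ := eventually_atTop.1 (hs.eventually (lt_mem_nhds hc))
  obtain ⟨y1, hy1⟩ := exists_nat_ge (c + (A w).toReal)
  refine le_iSup_of_le (y0 + y1) (le_min ?_ (le_iInf fun n => ?_))
  · rw [← ENNReal.ofReal_natCast]
    refine ENNReal.ofReal_le_ofReal (hy1.trans ?_)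
    exact_mod_cast Nat.le_add_left y1 y0
  · refine ENNReal.ofReal_le_ofReal ?_
    have := hy0 (y0 + y1 + n) (by omega)
    have h2 : c < psum w (y0 + y1 + n) := EReal.coe_lt_coe_iff.1 this
    linarith

theorem pointwise {w : ℕ → ℝ} (hA : A w ≠ ⊤) {s : EReal}
    (hs : Tendsto (fun n : ℕ => (psum w n : EReal)) atTop (𝓝 s)) :
    (total w).toENNReal + A w ≤ (⨆ y, H y w) + (-(total w)).toENNReal := by
  have ht : total w = s := hs.limsup_eq
  rw [ht]
  have h0 : 0 ≤ (A w).toReal := ENNReal.toReal_nonneg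
  induction s using EReal.rec with
  | bot => simp
  | top =>
    have : (⨆ y, H y w) = ⊤ := by
      refine ENNReal.eq_top_of_forall_nnreal_le fun r => ?_
      refine le_trans ?_ (le_sup hs (EReal.coe_lt_top (r : ℝ)))
      rw [← ENNReal.ofReal_coe_nnreal]
      exact ENNReal.ofReal_le_ofReal (by linarith)
    rw [this]; simp
  | coe s =>
    have h1 : ENNReal.ofReal (s + (A w).toReal) ≤ ⨆ y, H y w := by
      refine ENNReal.le_of_forall_pos_le_add fun ε hε _ => ?_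
      have hε' : (0 : ℝ) < ε := hε
      have h2 := le_sup hs (c := s - ε) (EReal.coe_lt_coe_iff.2 (by linarith))
      calc ENNReal.ofReal (s + (A w).toReal)
          = ENNReal.ofReal ((s - ε + (A w).toReal) + ε) := by congr 1; ring
        _ ≤ ENNReal.ofReal (s - ε + (A w).toReal) + ENNReal.ofReal ε := ENNReal.ofReal_add_le
        _ ≤ (⨆ y, H y w) + ε := by rw [ENNReal.ofReal_coe_nnreal]; gcongr
    rw [← EReal.coe_neg, EReal.real_coe_toENNReal, EReal.real_coe_toENNReal]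
    refine le_trans ?_ (add_le_add h1 le_rfl)
    conv_lhs => rw [← ENNReal.ofReal_toReal hA]
    rcases le_total 0 s with h | h
    · rw [← ENNReal.ofReal_add h h0]; exact le_self_add
    · rw [ENNReal.ofReal_of_nonpos h, zero_add]
      calc ENNReal.ofReal (A w).toReal = ENNReal.ofReal ((s + (A w).toReal) + -s) := by
            congr 1; ring
        _ ≤ _ := ENNReal.ofReal_add_le

end HTx

open HTx in
theorem p_HT :
    S_HT := by
  intro P0 _ a b hL hm hab
  have hm' : ∫⁻ w, A w ∂P0 ≠ ⊤ := ne_of_lt hm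
  have hA : ∀ᵐ w ∂P0, A w < ⊤ := ae_lt_top meas_A hm'
  have h1 : dp P0 + ∫⁻ w, A w ∂P0 ≤ (⨆ y, ∫⁻ w, H y w ∂P0) + dm P0 := by
    rw [← lintegral_iSup meas_H H_mono, dp, dm, ← lintegral_add_right _ meas_A,
      ← lintegral_add_left (Measurable.iSup meas_H)]
    refine lintegral_mono_ae ?_
    filter_upwards [hA, hL] with w h1 h2
    obtain ⟨s, hs⟩ := h2
    exact pointwise h1.ne hs
  have h2 : (a : ℝ≥0∞) + ∫⁻ w, A w ∂P0 < (⨆ y, ∫⁻ w, H y w ∂P0) + b := by
    by_contra hc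
    rw [not_lt] at hc
    have h3 : dp P0 + b + ∫⁻ w, A w ∂P0 ≤ a + dm P0 + ∫⁻ w, A w ∂P0 := by
      calc dp P0 + b + ∫⁻ w, A w ∂P0 = dp P0 + ∫⁻ w, A w ∂P0 + b := by ring
        _ ≤ (⨆ y, ∫⁻ w, H y w ∂P0) + dm P0 + b := by gcongr
        _ = (⨆ y, ∫⁻ w, H y w ∂P0) + b + dm P0 := by ring
        _ ≤ a + ∫⁻ w, A w ∂P0 + dm P0 := by gcongr
        _ = a + dm P0 + ∫⁻ w, A w ∂P0 := by ring
    exact absurd ((ENNReal.add_le_add_iff_right hm').1 h3) (not_le.2 hab)
  rw [ENNReal.iSup_add, lt_iSup_iff] at h2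
  obtain ⟨y, hy⟩ := h2
  have hHf : ∫⁻ w, H y w ∂P0 ≠ ⊤ := by
    refine ne_top_of_le_ne_top (ENNReal.natCast_ne_top y) ?_
    calc ∫⁻ w, H y w ∂P0 ≤ ∫⁻ _, (y : ℝ≥0∞) ∂P0 := lintegral_mono fun w => H_le y w
      _ = y := by simp
  have hHa : ∀ᵐ w ∂P0, H y w < ⊤ :=
    Eventually.of_forall fun w => (H_le y w).trans_lt (ENNReal.natCast_lt_top y)
  have iH : Integrable (fun w => (H y w).toReal) P0 :=
    integrable_toReal_of_lintegral_ne_top (meas_H y).aemeasurable hHf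
  have iA : Integrable (fun w => (A w).toReal) P0 :=
    integrable_toReal_of_lintegral_ne_top meas_A.aemeasurable hm'
  refine ⟨y, fun w => (H y w).toReal - (A w).toReal,
    (meas_H y).ennreal_toReal.sub meas_A.ennreal_toReal, iH.sub iA, ?_, ?_⟩
  · rw [integral_sub iH iA, integral_toReal (meas_H y).aemeasurable hHa,
      integral_toReal meas_A.aemeasurable hA]
    have h4 := (ENNReal.toReal_lt_toReal (ENNReal.add_ne_top.2 ⟨ENNReal.coe_ne_top, hm'⟩)
      (ENNReal.add_ne_top.2 ⟨hHf, ENNReal.coe_ne_top⟩)).2 hy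
    rw [ENNReal.toReal_add ENNReal.coe_ne_top hm', ENNReal.toReal_add hHf ENNReal.coe_ne_top,
      ENNReal.coe_toReal, ENNReal.coe_toReal] at h4
    linarith
  · filter_upwards [hA] with w hw n hn
    have h5 := ENNReal.toReal_le_of_le_ofReal (psum_ge hw.ne n) (H_le_psum hn w)
    linarith

end Pool.Agent.P.MP_c7fa75_pr.T
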