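import Pool.Agent.P.MP_c7fa75_pr.T.Iface

/-! Step IDX. -/

set_option autoImplicit false

namespace Pool.Agent.P.MP_c7fa75_pr.T

open MeasureTheory ProbabilityTheory Filter Topology Finset
open scoped ENNReal Classical

namespace IDXx

theorem fin_of_tr (q : ℕ → ℤ) (h : Tr q) (x : ℤ) : {m : ℕ | q m = x}.Finite := by
  have h1 : ∀ᶠ m in atTop, |x| + 1 ≤ |q m| := tendsto_atTop.1 h (|x| + 1)
  obtain ⟨N, hN⟩ := eventually_atTop.1 h1
  refine (Set.finite_lt_nat N).subset ?_
  intro m hm
  simp only [Set.mem_setOf_eq] at hm ⊢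
  by_contra hc
  have := hN m (not_lt.1 hc)
  rw [hm] at this
  omega

theorem cnt_lt_vis (q : ℕ → ℤ) (h : Tr q) (s : ℕ) : cnt q s < vis q (q s) := by
  have hf := fin_of_tr q h (q s)
  have e : vis q (q s) = hf.toFinset.card := by
    unfold vis
    rw [← Set.ncard_eq_toFinset_card _ hf]
    rfl
  rw [e]
  unfold cnt
  apply card_lt_card
  refine ⟨?_, ?_⟩
  · intro m hm
    simp only [mem_filter, mem_range] at hm
    simpa using hm.2
  · intro hc
    have : s ∈ hf.toFinset := by simp
    have := hc this
    simp at this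

theorem cnt_lt (q : ℕ → ℤ) (s t : ℕ) (hst : s < t) (e : q s = q t) : cnt q s < cnt q t := by
  unfold cnt
  apply card_lt_card
  refine ⟨?_, ?_⟩
  · intro m hm
    simp only [mem_filter, mem_range] at hm ⊢
    exact ⟨hm.1.trans hst, hm.2.trans e⟩
  · intro hc
    have : s ∈ (range t).filter (fun m => q m = q t) := by
      simp only [mem_filter, mem_range]
      exact ⟨hst, e⟩
    have := hc this
    simp at this

end IDXx

theorem p_IDX :
    S_IDX := by
  intro p i j s t hG h e
  rcases h with h | ⟨h, hst⟩
  · have h1 := IDXx.cnt_lt_vis (p i) (hG i h) s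
    have h2 : off p (i + 1) (p i s) ≤ off p j (p i s) := by
      unfold off
      exact sum_le_sum_of_subset (range_mono h)
    have h3 : off p (i + 1) (p i s) = off p i (p i s) + vis (p i) (p i s) := by
      unfold off
      rw [sum_range_succ]
    unfold idx
    rw [← e]
    omega
  · subst h
    have h1 := IDXx.cnt_lt (p i) s t hst e
    unfold idx
    rw [← e]
    omega

end Pool.Agent.P.MP_c7fa75_pr.T
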