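import Pool.Agent.P.MP_c7fa75_pr.T.Iface

/-! Step INF. -/

set_option autoImplicit false

namespace Pool.Agent.P.MP_c7fa75_pr.T

open MeasureTheory ProbabilityTheory Filter Topology Finset
open scoped ENNReal Classical

namespace INFx

theorem pr_not (w : ℝ) (b : Bool) : pr w (!b) = 1 - pr w b := by
  cases b <;> simp [pr]

end INFx

theorem p_INF (hCYL : S_CYL) :
    S_INF := by
  intro w hw b hdiv
  rw [ae_all_iff]
  intro m
  rw [ae_iff]
  set A : Set (ℕ → unitInterval) := {u | ¬ ∃ i, m ≤ i ∧ arr w u i = b} with hA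
  have hle : ∀ N, m ≤ N → (lamU ℕ).real A ≤
      Real.exp (-(∑ i ∈ range N, pr (w i) b - ∑ i ∈ range m, pr (w i) b)) := by
    intro N hN
    have h1 : A ⊆ {u | ∀ c ∈ Ico m N, arr w u c = (fun _ => !b) c} := by
      intro u hu c hc
      have : ¬ arr w u c = b := fun h => hu ⟨c, (mem_Ico.1 hc).1, h⟩
      revert this
      cases arr w u c <;> cases b <;> simp
    refine (measureReal_mono h1).trans ?_
    rw [hCYL ℕ w hw (Ico m N) (fun _ => !b), ← sum_Ico_eq_sub _ hN, ← sum_neg_distrib,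
      Real.exp_sum]
    refine prod_le_prod (fun i _ => (pr_mem (hw i) _).1) fun i _ => ?_
    rw [INFx.pr_not]
    have := Real.add_one_le_exp (-(pr (w i) b))
    linarith
  have hlim : Tendsto (fun N => Real.exp
      (-(∑ i ∈ range N, pr (w i) b - ∑ i ∈ range m, pr (w i) b))) atTop (𝓝 0) := by
    refine Real.tendsto_exp_atBot.comp (tendsto_neg_atTop_atBot.comp ?_)
    exact tendsto_atTop_add_const_right _ (-(∑ i ∈ range m, pr (w i) b)) hdiv
  have h0 : (lamU ℕ).real A ≤ 0 :=
    ge_of_tendsto hlim (eventually_atTop.2 ⟨m, hle⟩)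
  have h1 : (lamU ℕ).real A = 0 := le_antisymm h0 measureReal_nonneg
  exact (measureReal_eq_zero_iff (measure_ne_top _ _)).1 h1

end Pool.Agent.P.MP_c7fa75_pr.T
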