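import Pool.Agent.P.MP_c7fa75_pr.T.Iface

/-! Step KAP. -/

set_option autoImplicit false

namespace Pool.Agent.P.MP_c7fa75_pr.T

open MeasureTheory ProbabilityTheory Filter Topology Finset
open scoped ENNReal Classical

namespace KAPx

noncomputable def g (n : ℕ) (w : ℕ → ℝ) : ℝ := min 1 (Vn w n / n)

noncomputable def kap (y : ℕ) (w : ℕ → ℝ) : ℝ := ⨆ n : ℕ, g (y + n) w

theorem Vn_nonneg (w : ℕ → ℝ) (n : ℕ) : 0 ≤ Vn w n := sum_nonneg fun _ _ => sq_nonneg _

theorem g_nonneg (n : ℕ) (w : ℕ → ℝ) : 0 ≤ g n w :=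
  le_min zero_le_one (div_nonneg (Vn_nonneg w n) (Nat.cast_nonneg n))

theorem bdd (y : ℕ) (w : ℕ → ℝ) : BddAbove (Set.range fun n : ℕ => g (y + n) w) :=
  ⟨1, by rintro _ ⟨n, rfl⟩; exact min_le_left _ _⟩

theorem le_kap {y n : ℕ} (h : y ≤ n) (w : ℕ → ℝ) : g n w ≤ kap y w := by
  obtain ⟨m, rfl⟩ := Nat.exists_eq_add_of_le h
  exact le_ciSup (bdd y w) m

theorem kap_mem (y : ℕ) (w : ℕ → ℝ) : 0 ≤ kap y w ∧ kap y w ≤ 1 :=
  ⟨(g_nonneg y w).trans (le_kap le_rfl w), ciSup_le fun _ => min_le_left _ _⟩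

theorem meas_g (n : ℕ) : Measurable (g n) := by
  unfold g Vn
  fun_prop

theorem meas_kap (y : ℕ) : Measurable (kap y) := Measurable.iSup fun n => meas_g (y + n)

theorem lim_V {w : ℕ → ℝ} {s : ℝ} (h : Tendsto (psum w) atTop (𝓝 s)) :
    Tendsto (fun n : ℕ => Vn w n / n) atTop (𝓝 0) := by
  have h1 : Tendsto (fun i : ℕ => 2 * w i - 1) atTop (𝓝 0) := by
    have := ((tendsto_add_atTop_iff_nat 1).mpr h).sub h
    rw [sub_self] at this
    refine this.congr fun i => ?_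
    simp only [psum, sum_range_succ, add_sub_cancel_left]
  have h2 : Tendsto (fun i : ℕ => (2 * w i - 1) ^ 2) atTop (𝓝 0) := by
    simpa using h1.pow 2
  refine h2.cesaro.congr fun n => ?_
  rw [Vn, div_eq_inv_mul]

theorem lim_kap {w : ℕ → ℝ} {s : ℝ} (h : Tendsto (psum w) atTop (𝓝 s)) :
    Tendsto (fun y => kap y w) atTop (𝓝 0) := by
  refine tendsto_order.mpr ⟨fun a ha => Eventually.of_forall fun y => ha.trans_le (kap_mem y w).1,
    fun a ha => ?_⟩
  obtain ⟨N, hN⟩ := eventually_atTop.mp ((tendsto_order.mp (lim_V h)).2 (a / 2) (half_pos ha))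
  refine eventually_atTop.mpr ⟨N, fun y hy => lt_of_le_of_lt (ciSup_le fun n => ?_) (half_lt_self ha)⟩
  exact (min_le_right _ _).trans (hN _ (by omega)).le

end KAPx

open KAPx in
theorem p_KAP :
    S_KAP := by
  intro P0 _ ε h01 hl hε
  have ht : Tendsto (fun y => ∫ w, kap y w ∂P0) atTop (𝓝 (∫ _w, (0 : ℝ) ∂P0)) := by
    refine tendsto_integral_of_dominated_convergence (fun _ => (1 : ℝ))
      (fun y => (meas_kap y).aestronglyMeasurable) (integrable_const _)
      (fun y => Eventually.of_forall fun w => ?_) ?_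
    · rw [Real.norm_eq_abs, abs_of_nonneg (kap_mem y w).1]
      exact (kap_mem y w).2
    · filter_upwards [hl] with w hw
      obtain ⟨s, hs⟩ := hw
      exact lim_kap hs
  rw [integral_zero] at ht
  obtain ⟨N, hN⟩ := eventually_atTop.mp ((tendsto_order.mp ht).2 ε hε)
  refine ⟨N + 1, kap (N + 1), meas_kap _, kap_mem _, (hN _ (Nat.le_succ N)).le, ?_⟩
  filter_upwards [h01] with w hw n hn
  have hn0 : (0 : ℝ) < n := by exact_mod_cast (show 0 < n by omega)
  have h1 : Vn w n ≤ n := by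
    have : Vn w n ≤ ∑ _i ∈ range n, (1 : ℝ) := sum_le_sum fun i _ => by
      have := (hw i).1
      have := (hw i).2
      nlinarith
    simpa using this
  have h2 := le_kap hn w
  rw [g, min_eq_right ((div_le_one hn0).mpr h1), div_le_iff₀ hn0] at h2
  exact h2

end Pool.Agent.P.MP_c7fa75_pr.T
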