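import Pool.Agent.P.MP_c7fa75_pr.T.Iface

/-! Step KILL. -/

set_option autoImplicit false

namespace Pool.Agent.P.MP_c7fa75_pr.T

open MeasureTheory ProbabilityTheory Filter Topology Finset
open scoped ENNReal Classical

namespace KILLx

theorem zero_of_le_mul {a q : ℝ≥0∞} (ha : a ≠ ⊤) (hq : q < 1) (h : a ≤ a * q) : a = 0 := by
  by_contra h0
  have h1 : a * q < a * 1 := ENNReal.mul_lt_mul_right h0 ha hq
  rw [mul_one] at h1
  exact absurd h (not_le.2 h1)

variable {E : Type} [MeasurableSpace E] (Q : Measure E) (F : E → ℕ → ℕ) (r : ℕ)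

theorem kop_mono : Monotone (Kop Q F r) := by
  intro g g' hg z
  unfold Kop
  refine lintegral_mono fun e => ?_
  by_cases h : r ≤ F e z
  · simp only [h, if_true]
    exact hg _
  · simp only [h, if_false]
    exact le_rfl

theorem meas_in (hF : ∀ z, Measurable (fun e => F e z)) (g : ℕ → ℝ≥0∞) (z : ℕ) :
    Measurable (fun e => if r ≤ F e z then g (F e z) else 0) :=
  (measurable_of_countable (fun u : ℕ => if r ≤ u then g u else 0)).comp (hF z)

theorem meas_alive (hF : ∀ z, Measurable (fun e => F e z)) (z : ℕ) :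
    MeasurableSet {e | r ≤ F e z} :=
  hF z (MeasurableSet.of_discrete (s := {u : ℕ | r ≤ u}))

theorem kop_one [IsProbabilityMeasure Q] : Kop Q F r (fun _ => 1) ≤ fun _ => 1 := by
  intro z
  unfold Kop
  calc ∫⁻ e, (if r ≤ F e z then (1 : ℝ≥0∞) else 0) ∂Q ≤ ∫⁻ _e, (1 : ℝ≥0∞) ∂Q := by
        refine lintegral_mono fun e => ?_
        by_cases h : r ≤ F e z
        · simp [h]
        · simp [h]
    _ = 1 := by simp

theorem iter_anti [IsProbabilityMeasure Q] :
    Antitone (fun n => (Kop Q F r)^[n] (fun _ => 1)) := by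
  refine antitone_nat_of_succ_le fun n => ?_
  rw [Function.iterate_succ_apply]
  exact (kop_mono Q F r).iterate n (kop_one Q F r)

theorem inf_le_kop [IsProbabilityMeasure Q] (hF : ∀ z, Measurable (fun e => F e z)) (z : ℕ) :
    (⨅ n, (Kop Q F r)^[n] (fun _ => 1) z) ≤
      Kop Q F r (fun u => ⨅ n, (Kop Q F r)^[n] (fun _ => 1) u) z := by
  have h1 : Kop Q F r (fun u => ⨅ n, (Kop Q F r)^[n] (fun _ => 1) u) z =
      ∫⁻ e, ⨅ n, (if r ≤ F e z then (Kop Q F r)^[n] (fun _ => 1) (F e z) else 0) ∂Q := by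
    conv_lhs => unfold Kop
    refine lintegral_congr fun e => ?_
    by_cases h : r ≤ F e z
    · simp only [h, if_true]
      rfl
    · simp only [h, if_false, iInf_const]
  rw [h1, lintegral_iInf (fun n => meas_in F r hF _ z)]
  · refine le_iInf fun n => ?_
    refine (iInf_le _ (n + 1)).trans (le_of_eq ?_)
    rw [Function.iterate_succ_apply']
    rfl
  · intro a b hab e
    by_cases h : r ≤ F e z
    · simp only [h, if_true]
      exact iter_anti Q F r hab _
    · simp only [h, if_false]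
      exact le_rfl
  · have h2 := kop_one Q F r z
    unfold Kop at h2
    exact ne_top_of_le_ne_top ENNReal.one_ne_top h2

theorem kop_le (hF : ∀ z, Measurable (fun e => F e z)) (g f : ℕ → ℝ≥0∞) (a ε : ℝ≥0∞)
    (hg : ∀ u, g u ≤ a + ε * f u) (z : ℕ) :
    Kop Q F r g z ≤ a * Q {e | r ≤ F e z} + ε * ∫⁻ e, f (F e z) ∂Q := by
  have hm : Measurable (fun e => f (F e z)) := (measurable_of_countable f).comp (hF z)
  rw [← lintegral_const_mul ε hm, ← lintegral_indicator_const (meas_alive F r hF z),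
    ← lintegral_add_right _ (hm.const_mul ε)]
  unfold Kop
  refine lintegral_mono fun e => ?_
  by_cases h : r ≤ F e z
  · have h' : e ∈ {e | r ≤ F e z} := h
    simp only [h, if_true, Set.indicator_of_mem h']
    exact hg _
  · simp only [h, if_false]
    exact zero_le

theorem alive_lt [IsProbabilityMeasure Q] (hF : ∀ z, Measurable (fun e => F e z)) (z : ℕ)
    (h : 0 < Q {e | F e z < r}) : Q {e | r ≤ F e z} < 1 := by
  refine lt_of_le_of_ne prob_le_one fun h1 => ?_
  have h2 : {e | F e z < r} = {e | r ≤ F e z}ᶜ := by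
    ext e
    simp
  rw [h2, (prob_compl_eq_zero_iff (meas_alive F r hF z)).2 h1] at h
  exact lt_irrefl _ h

end KILLx

open KILLx in
theorem p_KILL :
    S_KILL := by
  intro E _ Q _ F r z0 f hF hf hT hL hD
  set h : ℕ → ℝ≥0∞ := fun u => ⨅ n, (Kop Q F r)^[n] (fun _ => 1) u with hh
  have hK : ∀ z, h z ≤ Kop Q F r h z := fun z => inf_le_kop Q F r hF z
  have h1 : ∀ z, h z ≤ 1 := fun z => iInf_le (fun n => (Kop Q F r)^[n] (fun _ => 1) z) 0
  have hq : ∀ z, Q {e | r ≤ F e z} < 1 := fun z => alive_lt Q F r hF z (hD z)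
  set m : ℝ≥0∞ := (range z0).sup h with hm
  have hm1 : m ≤ 1 := Finset.sup_le fun z _ => h1 z
  have hmain : ∀ ε : ℝ≥0∞, ε ≠ 0 → ε ≠ ⊤ → ∀ u, h u ≤ m + ε * f u := by
    intro ε h0 ht
    have hev : ∀ᶠ z in atTop, ε⁻¹ < f z :=
      hT.eventually (lt_mem_nhds (lt_top_iff_ne_top.2 (ENNReal.inv_ne_top.2 h0)))
    obtain ⟨N, hN⟩ := eventually_atTop.1 hev
    obtain ⟨z1, -, hz1⟩ := Finset.exists_mem_eq_sup (range (N + 1))
      (Finset.nonempty_range_add_one) (fun z => h z - (m + ε * f z))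
    have hc : ∀ u, h u - (m + ε * f u) ≤ h z1 - (m + ε * f z1) := by
      intro u
      by_cases hu : u < N + 1
      · rw [← hz1]
        exact Finset.le_sup (f := fun z => h z - (m + ε * f z)) (Finset.mem_range.2 hu)
      · have h2 : (1 : ℝ≥0∞) ≤ ε * f u := by
          rw [← ENNReal.mul_inv_cancel h0 ht]
          exact mul_le_mul_right (hN u (by omega)).le ε
        rw [tsub_eq_zero_of_le ((h1 u).trans (h2.trans le_add_self))]
        exact zero_le
    set c : ℝ≥0∞ := h z1 - (m + ε * f z1) with hcdef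
    have hc0 : c = 0 := by
      by_contra hne
      have hlt : m + ε * f z1 < h z1 := tsub_pos_iff_lt.1 (pos_iff_ne_zero.2 hne)
      have hz : z0 ≤ z1 := by
        by_contra hz
        have h3 : h z1 ≤ m := Finset.le_sup (f := h) (Finset.mem_range.2 (not_le.1 hz))
        exact absurd (h3.trans le_self_add) (not_le.2 hlt)
      have he : h z1 = (c + m) + ε * f z1 := by
        rw [add_assoc, hcdef, tsub_add_cancel_of_le hlt.le]
      have hg : ∀ u, h u ≤ (c + m) + ε * f u := by
        intro u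
        rw [add_assoc]
        exact tsub_le_iff_right.1 (hc u)
      have h4 : (c + m) + ε * f z1 ≤ (c + m) * Q {e | r ≤ F e z1} + ε * f z1 := by
        rw [← he]
        refine (hK z1).trans ((kop_le Q F r hF h f (c + m) ε hg z1).trans ?_)
        exact add_le_add le_rfl (mul_le_mul_right (hL z1 hz) ε)
      have h5 : ε * f z1 ≠ ⊤ := ENNReal.mul_ne_top ht (hf z1).ne
      have h6 : c + m ≠ ⊤ := by
        have h7 : c + m ≤ 1 := le_self_add.trans (he.symm.le.trans (h1 z1))
        exact ne_top_of_le_ne_top ENNReal.one_ne_top h7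
      have h8 := zero_of_le_mul h6 (hq z1) ((ENNReal.add_le_add_iff_right h5).1 h4)
      exact hne (add_eq_zero.1 h8).1
    intro u
    have h9 := hc u
    rw [hc0] at h9
    exact tsub_eq_zero_iff_le.1 (le_antisymm h9 zero_le)
  have hle : ∀ u, h u ≤ m := by
    intro u
    refine ENNReal.le_of_forall_pos_le_add fun δ hδ _ => ?_
    have ha : f u + 1 ≠ 0 := by simp
    have hb : f u + 1 ≠ ⊤ := ENNReal.add_ne_top.2 ⟨(hf u).ne, ENNReal.one_ne_top⟩
    have hδ0 : (δ : ℝ≥0∞) ≠ 0 := by exact_mod_cast hδ.ne'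
    refine (hmain ((δ : ℝ≥0∞) / (f u + 1)) (ENNReal.div_ne_zero.2 ⟨hδ0, hb⟩)
      (ENNReal.div_ne_top ENNReal.coe_ne_top ha) u).trans (add_le_add le_rfl ?_)
    calc (δ : ℝ≥0∞) / (f u + 1) * f u ≤ (δ : ℝ≥0∞) / (f u + 1) * (f u + 1) :=
          mul_le_mul_right le_self_add _
      _ = δ := ENNReal.div_mul_cancel ha hb
  have hm0 : m = 0 := by
    rcases (range z0).eq_empty_or_nonempty with he | hne
    · rw [hm, he]
      simp
    · obtain ⟨z2, -, hz2⟩ := Finset.exists_mem_eq_sup (range z0) hne h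
      refine zero_of_le_mul (ne_top_of_le_ne_top ENNReal.one_ne_top hm1) (hq z2) ?_
      have h3 := kop_le Q F r hF h f m 0 (fun u => (hle u).trans le_self_add) z2
      rw [zero_mul, add_zero] at h3
      calc m = h z2 := hz2
        _ ≤ _ := (hK z2).trans h3
  intro z
  exact le_antisymm ((hle z).trans hm0.le) zero_le

end Pool.Agent.P.MP_c7fa75_pr.T
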