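import Pool.Agent.P.MP_c7fa75_pr.T.Iface

/-! Step LAW. -/

set_option autoImplicit false

namespace Pool.Agent.P.MP_c7fa75_pr.T

open MeasureTheory ProbabilityTheory Filter Topology Finset
open scoped ENNReal Classical

namespace LAWx

theorem meas_cyl {ι : Type} (C : Finset ι) (e : ι → Bool) :
    MeasurableSet {a : ι → Bool | ∀ c ∈ C, a c = e c} := by
  have : {a : ι → Bool | ∀ c ∈ C, a c = e c} = ⋂ c ∈ C, {a | a c = e c} := by
    ext a; simp
  rw [this]
  exact Finset.measurableSet_biInter C fun c _ =>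
    measurableSet_eq_fun (measurable_pi_apply c) measurable_const

theorem gen (hCYL : S_CYL) {ι Θ : Type} [MeasurableSpace Θ] (μ : Measure Θ)
    [IsProbabilityMeasure μ] (V : Θ → ι → ℝ) (hV : Measurable V)
    (h01 : ∀ᵐ θ ∂μ, ∀ i, V θ i ∈ Set.Icc (0 : ℝ) 1) (C : Finset ι) (e : ι → Bool) :
    ((μ.prod (lamU ι)).map (fun p => arr (V p.1) p.2)).real {a | ∀ c ∈ C, a c = e c} =
      ∫ θ, ∏ c ∈ C, pr (V θ c) (e c) ∂μ := by
  have hm : Measurable (fun p : Θ × (ι → unitInterval) => arr (V p.1) p.2) :=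
    meas_arr2.comp ((hV.comp measurable_fst).prodMk measurable_snd)
  have hS := hm (meas_cyl C e)
  rw [measureReal_def, Measure.map_apply hm (meas_cyl C e), Measure.prod_apply hS,
    ← integral_toReal (measurable_measure_prodMk_left hS).aemeasurable
      (ae_of_all _ fun θ => measure_lt_top _ _)]
  refine integral_congr_ae ?_
  filter_upwards [h01] with θ hθ
  exact hCYL ι (V θ) hθ C e

end LAWx

theorem p_LAW (hCYL : S_CYL) (hEXT : S_EXT) :
    S_LAW := by
  intro Θ _ μ _ W V P0 _ hW hV hP hE h01 hmom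
  have hV' : Measurable (fun θ (c : ℤ × ℕ) => V θ c.1 c.2) :=
    measurable_pi_lambda _ fun c =>
      (measurable_pi_apply c.2).comp ((measurable_pi_apply c.1).comp hV)
  have hm : Measurable (fun p : Θ × (ℤ × ℕ → unitInterval) =>
      arr (fun c : ℤ × ℕ => V p.1 c.1 c.2) p.2) :=
    meas_arr2.comp ((hV'.comp measurable_fst).prodMk measurable_snd)
  have hcur : Measurable (fun (a : ℤ × ℕ → Bool) (x : ℤ) (n : ℕ) => a (x, n)) :=
    measurable_pi_lambda _ fun x => measurable_pi_lambda _ fun n => measurable_pi_apply _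
  have hunc : Measurable (fun (a : ℤ → ℕ → Bool) (c : ℤ × ℕ) => a c.1 c.2) :=
    measurable_pi_lambda _ fun c => (measurable_pi_apply c.2).comp (measurable_pi_apply c.1)
  have hm2 : Measurable (fun (p : Θ × (ℤ × ℕ → unitInterval)) (x : ℤ) (n : ℕ) =>
      arr1 (V p.1 x n) (p.2 (x, n))) := hcur.comp hm
  have := Measure.isProbabilityMeasure_map (μ := μ.prod (lamU (ℤ × ℕ))) hm2.aemeasurable
  refine hEXT _ _ fun C e => ?_
  have hC : MeasurableSet {a : ℤ → ℕ → Bool | ∀ c ∈ C, a c.1 c.2 = e c} :=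
    hunc (LAWx.meas_cyl C e)
  rw [← ENNReal.toReal_eq_toReal_iff' (measure_ne_top _ _) (measure_ne_top _ _)]
  have hL := LAWx.gen hCYL μ (fun θ (c : ℤ × ℕ) => V θ c.1 c.2) hV'
    (h01.mono fun θ h c => h c.1 c.2) C e
  rw [measureReal_def, Measure.map_apply hm (LAWx.meas_cyl C e)] at hL
  rw [Measure.map_apply hm2 hC]
  refine hL.trans ((hmom C e).trans ?_)
  set S : Finset ℤ := C.image Prod.fst with hS
  set T : ℤ → Finset ℕ := fun x => (C.filter (fun c => c.1 = x)).image Prod.snd with hT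
  have hmem : ∀ p : ℤ × ℕ, p ∈ C ↔ p.1 ∈ S ∧ p.2 ∈ T p.1 := by
    intro p
    constructor
    · intro hp
      exact ⟨mem_image_of_mem _ hp, mem_image_of_mem _ (mem_filter.2 ⟨hp, rfl⟩)⟩
    · rintro ⟨_, hp⟩
      obtain ⟨c, hc, e2⟩ := mem_image.1 hp
      obtain ⟨hc, e1⟩ := mem_filter.1 hc
      have : c = p := Prod.ext e1 e2
      exact this ▸ hc
  have hset : {a : ℤ → ℕ → Bool | ∀ c ∈ C, a c.1 c.2 = e c} =
      Set.pi (S : Set ℤ) (fun x => {s : ℕ → Bool | ∀ n ∈ T x, s n = e (x, n)}) := by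
    ext a
    constructor
    · intro h x hx n hn
      exact h (x, n) ((hmem (x, n)).2 ⟨hx, hn⟩)
    · intro h c hc
      exact h c.1 ((hmem c).1 hc).1 c.2 ((hmem c).1 hc).2
  rw [hset, Fld, Measure.infinitePi_pi _ fun x _ => LAWx.meas_cyl (T x) (fun n => e (x, n)),
    ENNReal.toReal_prod]
  set g : ℤ → (ℕ → ℝ) → ℝ := fun x w => ∏ n ∈ T x, pr (w n) (e (x, n)) with hg
  have mg : ∀ x, Measurable (g x) := fun x =>
    Finset.measurable_prod _ fun n _ => (meas_pr _).comp (measurable_pi_apply n)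
  have mWx : ∀ x : ℤ, Measurable (fun θ => W θ x) := fun x => (measurable_pi_apply x).comp hW
  have h1 : ∀ θ, ∏ c ∈ C, pr (W θ c.1 c.2) (e c) = ∏ x : S, g x (W θ x) := by
    intro θ
    rw [prod_finset_product C S T hmem, prod_coe_sort S (fun x => g x (W θ x))]
  have hind : iIndepFun (fun (x : S) θ => W θ x) μ :=
    hE.1.precomp (g := fun x : S => (x : ℤ)) Subtype.val_injective
  have h2 := hind.integral_fun_prod_comp (f := fun (x : S) => g x)
    (fun x => (mWx x).aemeasurable) (fun x => (mg x).aestronglyMeasurable)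
  simp only [h1]
  rw [h2, prod_coe_sort S (fun x => ∫ θ, g x (W θ x) ∂μ)]
  refine prod_congr rfl fun x _ => ?_
  have h3 := LAWx.gen hCYL P0 (fun w => w) measurable_id hP (T x) (fun n => e (x, n))
  rw [← integral_map (mWx x).aemeasurable (mg x).aestronglyMeasurable, hE.2 x]
  exact h3.symm

end Pool.Agent.P.MP_c7fa75_pr.T
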