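import Pool.Agent.P.MP_c7fa75_pr.T.Iface

/-! Step LR0. -/

set_option autoImplicit false

namespace Pool.Agent.P.MP_c7fa75_pr.T

open MeasureTheory ProbabilityTheory Filter Topology Finset
open scoped ENNReal Classical

namespace LR0x

theorem log_ge_one {t : ℕ} (ht : 5 ≤ t) : 1 ≤ Real.log t := by
  have h5 : (5 : ℝ) ≤ t := by exact_mod_cast ht
  have h : Real.exp 1 ≤ (t : ℝ) := by
    have := Real.exp_one_lt_d9
    linarith
  rwa [Real.le_log_iff_exp_le (by linarith)]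

theorem low (z t : ℕ) (h : 2 * z ≤ t) : 1 / 2 ≤ qq (t + 1) ^ z := by
  unfold qq
  have h0 : (0 : ℝ) ≤ t := Nat.cast_nonneg t
  have hz : 2 * (z : ℝ) ≤ t := by exact_mod_cast h
  have h1 : (0 : ℝ) < (t : ℝ) + 1 := by linarith
  push_cast
  have h2 : 1 / ((t : ℝ) + 1) ≤ 1 := by
    rw [div_le_one h1]; linarith
  have h3 := one_add_mul_le_pow (a := -(1 / ((t : ℝ) + 1))) (by linarith) z
  have h4 : (z : ℝ) * (1 / ((t : ℝ) + 1)) ≤ 1 / 2 := by
    rw [mul_one_div, div_le_iff₀ h1]; linarith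
  have h5 : (1 : ℝ) + -(1 / ((t : ℝ) + 1)) = 1 - 1 / ((t : ℝ) + 1) := by ring
  rw [h5] at h3
  linarith

theorem tail (z N : ℕ) (hz : 1 ≤ z) : ∑ t ∈ Ico z N, ((t : ℝ) ^ 2)⁻¹ ≤ 2 / (z : ℝ) := by
  obtain ⟨k, rfl⟩ : ∃ k, z = k + 1 := ⟨z - 1, by omega⟩
  have h := sum_Ioo_inv_sq_le (α := ℝ) k N
  have e : Ico (k + 1) N = Ioo k N := by
    ext t; simp only [mem_Ico, mem_Ioo]; omega
  rw [e]
  push_cast
  exact h

theorem up (z t : ℕ) (hz : 1 ≤ z) : qq (t + 1) ^ z * (z : ℝ) ^ 4 ≤ 24 * ((t : ℝ) + 1) ^ 4 := by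
  have h0 : (0 : ℝ) ≤ t := Nat.cast_nonneg t
  have h1 : (0 : ℝ) < (t : ℝ) + 1 := by linarith
  have hz0 : (0 : ℝ) < z := by exact_mod_cast hz
  have hq : qq (t + 1) ≤ Real.exp (-(1 / ((t : ℝ) + 1))) := by
    unfold qq
    push_cast
    have := Real.add_one_le_exp (-(1 / ((t : ℝ) + 1)))
    linarith
  have h2 : qq (t + 1) ^ z ≤ Real.exp (-((z : ℝ) / ((t : ℝ) + 1))) := by
    calc qq (t + 1) ^ z ≤ Real.exp (-(1 / ((t : ℝ) + 1))) ^ z :=
          pow_le_pow_left₀ (qq_nonneg _) hq z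
      _ = Real.exp (-((z : ℝ) / ((t : ℝ) + 1))) := by
          rw [← Real.exp_nat_mul]; congr 1; ring
  have h3 := Real.pow_div_factorial_le_exp ((z : ℝ) / ((t : ℝ) + 1)) (by positivity) 4
  have h4 : ((Nat.factorial 4 : ℕ) : ℝ) = 24 := by norm_num [Nat.factorial]
  rw [h4, div_pow, div_div, div_le_iff₀ (by positivity)] at h3
  have h5 : Real.exp (-((z : ℝ) / ((t : ℝ) + 1))) * Real.exp ((z : ℝ) / ((t : ℝ) + 1)) = 1 := by
    rw [← Real.exp_add]; simp
  have h6 := Real.exp_pos (-((z : ℝ) / ((t : ℝ) + 1)))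
  calc qq (t + 1) ^ z * (z : ℝ) ^ 4
      ≤ Real.exp (-((z : ℝ) / ((t : ℝ) + 1))) * (z : ℝ) ^ 4 :=
        mul_le_mul_of_nonneg_right h2 (by positivity)
    _ ≤ Real.exp (-((z : ℝ) / ((t : ℝ) + 1))) *
          (Real.exp ((z : ℝ) / ((t : ℝ) + 1)) * (((t : ℝ) + 1) ^ 4 * 24)) :=
        mul_le_mul_of_nonneg_left h3 h6.le
    _ = 24 * ((t : ℝ) + 1) ^ 4 := by
        rw [← mul_assoc, h5]; ring

theorem log_cmp {z t : ℕ} (ht : 5 ≤ t) (h : t ≤ z) :
    (t : ℝ) * Real.log z ≤ (z : ℝ) * Real.log t := by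
  have h5 : (5 : ℝ) ≤ t := by exact_mod_cast ht
  have htz : (t : ℝ) ≤ z := by exact_mod_cast h
  have ht0 : (0 : ℝ) < t := by linarith
  have hz0 : (0 : ℝ) < z := by linarith
  have h1 := log_ge_one ht
  have h2 : Real.log ((z : ℝ) / t) ≤ (z : ℝ) / t - 1 := Real.log_le_sub_one_of_pos (by positivity)
  rw [Real.log_div hz0.ne' ht0.ne'] at h2
  have h3 : (t : ℝ) * (Real.log z - Real.log t) ≤ z - t := by
    calc (t : ℝ) * (Real.log z - Real.log t) ≤ (t : ℝ) * ((z : ℝ) / t - 1) :=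
          mul_le_mul_of_nonneg_left h2 ht0.le
      _ = z - t := by field_simp
  nlinarith [mul_nonneg (sub_nonneg.2 htz) (sub_nonneg.2 h1)]

/-- The terms below `z`. -/
theorem small {z t : ℕ} (ht : 5 ≤ t) (h : t ≤ z) :
    qq (t + 1) ^ z * z / ((t : ℝ) ^ 3 * Real.log t) ≤ 384 / ((z : ℝ) ^ 2 * Real.log z) := by
  have h5 : (5 : ℝ) ≤ t := by exact_mod_cast ht
  have htz : (t : ℝ) ≤ z := by exact_mod_cast h
  have ht0 : (0 : ℝ) < t := by linarith
  have hz0 : (0 : ℝ) < z := by linarith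
  have h1 := log_ge_one ht
  have h1' := log_ge_one (le_trans ht h)
  have h2 := log_cmp ht h
  have h3 := up z t (by omega)
  have hq : 0 ≤ qq (t + 1) ^ z := pow_nonneg (qq_nonneg _) _
  have h4 : ((t : ℝ) + 1) ^ 4 ≤ 16 * (t : ℝ) ^ 4 := by
    calc ((t : ℝ) + 1) ^ 4 ≤ (2 * (t : ℝ)) ^ 4 := pow_le_pow_left₀ (by linarith) (by linarith) 4
      _ = 16 * (t : ℝ) ^ 4 := by ring
  rw [div_le_div_iff₀ (by positivity) (by positivity)]
  have h6 : qq (t + 1) ^ z * (z : ℝ) ^ 4 ≤ 384 * (t : ℝ) ^ 4 := by linarith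
  apply le_of_mul_le_mul_left _ ht0
  calc (t : ℝ) * (qq (t + 1) ^ z * z * ((z : ℝ) ^ 2 * Real.log z))
      = qq (t + 1) ^ z * (z : ℝ) ^ 3 * ((t : ℝ) * Real.log z) := by ring
    _ ≤ qq (t + 1) ^ z * (z : ℝ) ^ 3 * ((z : ℝ) * Real.log t) :=
        mul_le_mul_of_nonneg_left h2 (by positivity)
    _ = qq (t + 1) ^ z * (z : ℝ) ^ 4 * Real.log t := by ring
    _ ≤ 384 * (t : ℝ) ^ 4 * Real.log t := mul_le_mul_of_nonneg_right h6 (by linarith)
    _ = (t : ℝ) * (384 * ((t : ℝ) ^ 3 * Real.log t)) := by ring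

/-- The terms above `z`. -/
theorem large {z t : ℕ} (hz : 5 ≤ z) (h : z ≤ t) :
    qq (t + 1) ^ z / ((t : ℝ) ^ 2 * Real.log t) ≤ ((t : ℝ) ^ 2)⁻¹ * (Real.log z)⁻¹ := by
  have h5 : (5 : ℝ) ≤ z := by exact_mod_cast hz
  have htz : (z : ℝ) ≤ t := by exact_mod_cast h
  have h1 := log_ge_one hz
  have h2 : Real.log z ≤ Real.log t := Real.log_le_log (by linarith) htz
  have hq : qq (t + 1) ^ z ≤ 1 := pow_le_one₀ (qq_nonneg _) (qq_le_one _)
  have ht0 : (0 : ℝ) < t := by linarith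
  rw [← mul_inv, ← one_div]
  apply div_le_div₀ zero_le_one hq (by positivity)
  exact mul_le_mul_of_nonneg_left h2 (by positivity)

theorem cmp_small {z t : ℕ} (ht : 5 ≤ t) (h : t ≤ z) :
    qq (t + 1) ^ z / ((t : ℝ) ^ 2 * Real.log t) ≤
      qq (t + 1) ^ z * z / ((t : ℝ) ^ 3 * Real.log t) := by
  have h5 : (5 : ℝ) ≤ t := by exact_mod_cast ht
  have htz : (t : ℝ) ≤ z := by exact_mod_cast h
  have ht0 : (0 : ℝ) < t := by linarith
  have h1 := log_ge_one ht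
  have hq : 0 ≤ qq (t + 1) ^ z := pow_nonneg (qq_nonneg _) _
  have e : qq (t + 1) ^ z / ((t : ℝ) ^ 2 * Real.log t) =
      qq (t + 1) ^ z * t / ((t : ℝ) ^ 3 * Real.log t) := by
    field_simp
  rw [e]
  apply div_le_div_of_nonneg_right _ (by positivity)
  exact mul_le_mul_of_nonneg_left htz hq

theorem cmp_large {z t : ℕ} (hz : 5 ≤ z) (h : z ≤ t) :
    qq (t + 1) ^ z * z / ((t : ℝ) ^ 3 * Real.log t) ≤
      qq (t + 1) ^ z / ((t : ℝ) ^ 2 * Real.log t) := by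
  have h5 : (5 : ℝ) ≤ z := by exact_mod_cast hz
  have htz : (z : ℝ) ≤ t := by exact_mod_cast h
  have ht0 : (0 : ℝ) < t := by linarith
  have h1 := log_ge_one (le_trans hz h)
  have hq : 0 ≤ qq (t + 1) ^ z := pow_nonneg (qq_nonneg _) _
  have e : qq (t + 1) ^ z / ((t : ℝ) ^ 2 * Real.log t) =
      qq (t + 1) ^ z * t / ((t : ℝ) ^ 3 * Real.log t) := by
    field_simp
  rw [e]
  apply div_le_div_of_nonneg_right _ (by positivity)
  exact mul_le_mul_of_nonneg_left htz hq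

theorem upper (z t0 N : ℕ) (h0 : 5 ≤ t0) (hz : t0 ≤ z) (hN : z ≤ N) (f : ℕ → ℝ)
    (h1 : ∀ t, 5 ≤ t → t ≤ z → f t ≤ 384 / ((z : ℝ) ^ 2 * Real.log z))
    (h2 : ∀ t, z ≤ t → f t ≤ ((t : ℝ) ^ 2)⁻¹ * (Real.log z)⁻¹) :
    ∑ t ∈ Ico t0 N, f t ≤ 400 / ((z : ℝ) * Real.log z) := by
  have hz5 : 5 ≤ z := le_trans h0 hz
  have h5 : (5 : ℝ) ≤ z := by exact_mod_cast hz5
  have hL := log_ge_one hz5
  have hz0 : (0 : ℝ) < z := by linarith
  have hL0 : 0 < Real.log z := by linarith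
  rw [← sum_Ico_consecutive f hz hN]
  have a1 : ∑ t ∈ Ico t0 z, f t ≤ 384 / ((z : ℝ) * Real.log z) := by
    calc ∑ t ∈ Ico t0 z, f t ≤ ∑ _t ∈ Ico t0 z, 384 / ((z : ℝ) ^ 2 * Real.log z) := by
          apply sum_le_sum
          intro t ht
          rw [mem_Ico] at ht
          exact h1 t (le_trans h0 ht.1) ht.2.le
      _ = ((z - t0 : ℕ) : ℝ) * (384 / ((z : ℝ) ^ 2 * Real.log z)) := by
          rw [sum_const, Nat.card_Ico, nsmul_eq_mul]
      _ ≤ (z : ℝ) * (384 / ((z : ℝ) ^ 2 * Real.log z)) := by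
          apply mul_le_mul_of_nonneg_right _ (by positivity)
          exact_mod_cast Nat.sub_le z t0
      _ = 384 / ((z : ℝ) * Real.log z) := by field_simp
  have a2 : ∑ t ∈ Ico z N, f t ≤ 2 / ((z : ℝ) * Real.log z) := by
    calc ∑ t ∈ Ico z N, f t ≤ ∑ t ∈ Ico z N, ((t : ℝ) ^ 2)⁻¹ * (Real.log z)⁻¹ := by
          apply sum_le_sum
          intro t ht
          rw [mem_Ico] at ht
          exact h2 t ht.1
      _ = (∑ t ∈ Ico z N, ((t : ℝ) ^ 2)⁻¹) * (Real.log z)⁻¹ := by rw [sum_mul]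
      _ ≤ 2 / (z : ℝ) * (Real.log z)⁻¹ :=
          mul_le_mul_of_nonneg_right (tail z N (by omega)) (by positivity)
      _ = 2 / ((z : ℝ) * Real.log z) := by field_simp
  have a3 : 384 / ((z : ℝ) * Real.log z) + 2 / ((z : ℝ) * Real.log z) ≤
      400 / ((z : ℝ) * Real.log z) := by
    rw [← add_div]
    apply div_le_div_of_nonneg_right _ (by positivity)
    norm_num
  linarith

theorem lower (z t0 N : ℕ) (hz : t0 ≤ z) (hN : 4 * z ≤ N) (f : ℕ → ℝ) (c : ℝ)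
    (h1 : ∀ t, t0 ≤ t → 0 ≤ f t) (h2 : ∀ t, 2 * z ≤ t → t ≤ 4 * z → c ≤ f t) :
    2 * (z : ℝ) * c ≤ ∑ t ∈ Ico t0 N, f t := by
  calc 2 * (z : ℝ) * c = ∑ _t ∈ Ico (2 * z) (4 * z), c := by
        rw [sum_const, Nat.card_Ico, nsmul_eq_mul]
        have : 4 * z - 2 * z = 2 * z := by omega
        rw [this]; push_cast; ring
    _ ≤ ∑ t ∈ Ico (2 * z) (4 * z), f t := by
        apply sum_le_sum
        intro t ht
        rw [mem_Ico] at ht
        exact h2 t ht.1 ht.2.le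
    _ ≤ ∑ t ∈ Ico t0 N, f t := by
        apply sum_le_sum_of_subset_of_nonneg
        · exact Ico_subset_Ico (by omega) hN
        · intro t ht _
          rw [mem_Ico] at ht
          exact h1 t ht.1

theorem log_two {z t : ℕ} (hz : 5 ≤ z) (h1 : 2 * z ≤ t) (h2 : t ≤ 4 * z) :
    Real.log t ≤ 2 * Real.log z := by
  have h5 : (5 : ℝ) ≤ z := by exact_mod_cast hz
  have a1 : 2 * (z : ℝ) ≤ t := by exact_mod_cast h1
  have a2 : (t : ℝ) ≤ 4 * z := by exact_mod_cast h2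
  have a3 : (t : ℝ) ≤ (z : ℝ) ^ 2 := by nlinarith
  calc Real.log t ≤ Real.log ((z : ℝ) ^ 2) := Real.log_le_log (by linarith) a3
    _ = 2 * Real.log z := by rw [Real.log_pow]; norm_num

end LR0x

open LR0x in
theorem p_LR0 :
    S_LR0 := by
  intro z t0 N h0 hz hN
  have hz5 : 5 ≤ z := le_trans h0 hz
  have h5 : (5 : ℝ) ≤ z := by exact_mod_cast hz5
  have hL := log_ge_one hz5
  have hz0 : (0 : ℝ) < z := by linarith
  have hL0 : 0 < Real.log z := by linarith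
  refine ⟨?_, ?_, ?_, ?_⟩
  · have h := lower z t0 N hz hN
      (fun t => qq (t + 1) ^ z / ((t : ℝ) ^ 2 * Real.log t ^ 2))
      ((1 / 2) / ((4 * (z : ℝ)) ^ 2 * (2 * Real.log z) ^ 2))
      (fun t _ => div_nonneg (pow_nonneg (qq_nonneg _) _) (by positivity))
      (fun t h1 h2 => by
        have a0 := log_ge_one (t := t) (by omega)
        have a1 : (t : ℝ) ≤ 4 * z := by exact_mod_cast h2
        have a2 : (0 : ℝ) < t := by exact_mod_cast (by omega : 0 < t)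
        apply div_le_div₀ (pow_nonneg (qq_nonneg _) _) (low z t h1) (by positivity)
        apply mul_le_mul _ _ (by positivity) (by positivity)
        · exact pow_le_pow_left₀ a2.le a1 2
        · exact pow_le_pow_left₀ (by linarith) (log_two hz5 h1 h2) 2)
    refine le_trans (le_of_eq ?_) h
    field_simp
    norm_num
  · have h := lower z t0 N hz hN
      (fun t => qq (t + 1) ^ z / ((t : ℝ) ^ 2 * Real.log t))
      ((1 / 2) / ((4 * (z : ℝ)) ^ 2 * (2 * Real.log z)))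
      (fun t ht => by
        have a0 := log_ge_one (t := t) (by omega)
        exact div_nonneg (pow_nonneg (qq_nonneg _) _) (by positivity))
      (fun t h1 h2 => by
        have a0 := log_ge_one (t := t) (by omega)
        have a1 : (t : ℝ) ≤ 4 * z := by exact_mod_cast h2
        have a2 : (0 : ℝ) < t := by exact_mod_cast (by omega : 0 < t)
        apply div_le_div₀ (pow_nonneg (qq_nonneg _) _) (low z t h1) (by positivity)
        apply mul_le_mul _ (log_two hz5 h1 h2) (by positivity) (by positivity)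
        exact pow_le_pow_left₀ a2.le a1 2)
    refine le_trans (le_of_eq ?_) h
    field_simp
    norm_num
  · apply upper z t0 N h0 hz (by omega)
    · intro t h1 h2
      exact le_trans (cmp_small h1 h2) (small h1 h2)
    · intro t h1
      exact large hz5 h1
  · apply upper z t0 N h0 hz (by omega)
    · intro t h1 h2
      exact small h1 h2
    · intro t h1
      exact le_trans (cmp_large hz5 h1) (large hz5 h1)

end Pool.Agent.P.MP_c7fa75_pr.T
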