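import Pool.Agent.P.MP_c7fa75_pr.T.Iface

/-! Step LR1. -/

set_option autoImplicit false

namespace Pool.Agent.P.MP_c7fa75_pr.T

open MeasureTheory ProbabilityTheory Filter Topology Finset
open scoped ENNReal Classical

namespace LR1x

theorem one_le_log {x : ℝ} (h : 3 ≤ x) : 1 ≤ Real.log x := by
  rw [Real.le_log_iff_exp_le (by linarith)]
  linarith [Real.exp_one_lt_d9]

theorem cc_nonneg (t : ℕ) : 0 ≤ cc t := by
  unfold cc
  have := Real.log_natCast_nonneg t
  positivity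

theorem abel (f : ℕ → ℝ) {a N : ℕ} (h : a ≤ N) :
    ∑ t ∈ Ico a N, (f (t + 1) - f t) = f N - f a := by
  induction N, h using Nat.le_induction with
  | base => simp
  | succ n hn ih => rw [sum_Ico_succ_top hn, ih]; ring

theorem cc_diff {t : ℕ} (ht : 8 ≤ t) :
    cc (t + 1) ≤ cc t * (1 - 1 / (t : ℝ) + 1 / (t : ℝ) ^ 2 - 1 / (2 * t * Real.log t)) := by
  have hT : (8 : ℝ) ≤ t := by exact_mod_cast ht
  have hl := one_le_log (x := t) (by linarith)
  have h1 : Real.log ((t : ℝ) + 1) ≤ Real.log t + 1 / t := by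
    have := Real.log_le_sub_one_of_pos (x := (t + 1) / t) (by positivity)
    rw [Real.log_div (by positivity) (by positivity)] at this
    have e : ((t : ℝ) + 1) / t - 1 = 1 / t := by field_simp; ring
    linarith
  have h2 : Real.log t + 1 / ((t : ℝ) + 1) ≤ Real.log ((t : ℝ) + 1) := by
    have := Real.log_le_sub_one_of_pos (x := t / (t + 1)) (by positivity)
    rw [Real.log_div (by positivity) (by positivity)] at this
    have e : (t : ℝ) / (t + 1) - 1 = -(1 / (t + 1)) := by field_simp; ring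
    linarith
  unfold cc
  push_cast
  generalize Real.log ((t : ℝ) + 1) = m at *
  generalize Real.log (t : ℝ) = l at *
  generalize (t : ℝ) = T at *
  have hT0 : 0 < T := by linarith
  have hm : 0 < m := by
    have : 0 < 1 / (T + 1) := by positivity
    linarith
  have h3 : 1 / T ≤ 1 / 8 := one_div_le_one_div_of_le (by norm_num) hT
  have h4 : (T + 1) ^ 2 * m ≤ 2 * T ^ 2 * l := by
    have a1 : m ≤ 9 / 8 * l := by linarith
    have a2 : (T + 1) ^ 2 ≤ 16 / 9 * T ^ 2 := by nlinarith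
    calc (T + 1) ^ 2 * m ≤ (16 / 9 * T ^ 2) * (9 / 8 * l) :=
          mul_le_mul a2 a1 hm.le (by positivity)
      _ = _ := by ring
  have h5 : 1 / (2 * T * l) ≤ T / ((T + 1) ^ 2 * m) := by
    rw [div_le_div_iff₀ (by positivity) (by positivity)]
    nlinarith
  have h6 : T / (T + 1) ≤ 1 - 1 / T + 1 / T ^ 2 := by
    have e : 1 - 1 / T + 1 / T ^ 2 - T / (T + 1) = 1 / (T ^ 2 * (T + 1)) := by
      field_simp; ring
    have : 0 ≤ 1 / (T ^ 2 * (T + 1)) := by positivity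
    linarith
  have h7 : T * l / ((T + 1) * m) ≤ T / (T + 1) - T / ((T + 1) ^ 2 * m) := by
    have e : T / (T + 1) - T / ((T + 1) ^ 2 * m) = T * (m - 1 / (T + 1)) / ((T + 1) * m) := by
      field_simp
    rw [e]
    exact div_le_div_of_nonneg_right (mul_le_mul_of_nonneg_left (by linarith) hT0.le)
      (by positivity)
  have e : 1 / ((T + 1) * m) = 1 / (T * l) * (T * l / ((T + 1) * m)) := by field_simp
  rw [e]
  exact mul_le_mul_of_nonneg_left (by linarith) (by positivity)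

theorem pow_eq {t : ℕ} (ht : 1 ≤ t) (y s : ℕ) :
    qq (t + 1) ^ y = qq (t + 1) ^ (y + s) * (1 + 1 / (t : ℝ)) ^ s := by
  rw [pow_add, mul_assoc, ← mul_pow, ← qq_succ ht, inv_mul_cancel₀ (by positivity), one_pow,
    mul_one]

theorem brk {T a A B s u ε y z : ℝ} (hT : 1 ≤ T) (ha : |a| ≤ A) (h1 : 2 * (A + |B|) ≤ T)
    (hs : 0 ≤ s) (hu : 1 + s / T ≤ u) {M : ℝ} (hM : u ≤ M) (hε : 0 ≤ ε) (hy : 0 ≤ y)
    (hz : y ≤ z) :
    1 - (a - s) / T - (|B| + s * A + s * |B|) / T ^ 2 - M * ε * z / T ^ 2 ≤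
      u * (1 - a / T - B / T ^ 2 - ε * y / T ^ 2) := by
  have hT0 : 0 < T := by linarith
  have hB := abs_nonneg B
  have hA : 0 ≤ A := (abs_nonneg a).trans ha
  have b1 := le_abs_self B
  have b2 := (le_abs_self a).trans ha
  have c1 : a / T ≤ A / T := div_le_div_of_nonneg_right b2 hT0.le
  have c2 : B / T ^ 2 ≤ |B| / T := by
    refine (div_le_div_of_nonneg_right b1 (by positivity)).trans ?_
    exact div_le_div_of_nonneg_left hB hT0 (by nlinarith)
  have c3 : A / T + |B| / T ≤ 1 / 2 := by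
    rw [← add_div, div_le_iff₀ hT0]; linarith
  have c4 : (1 + s / T) * (1 - a / T - B / T ^ 2) ≤ u * (1 - a / T - B / T ^ 2) :=
    mul_le_mul_of_nonneg_right hu (by linarith)
  have hu0 : 0 ≤ u := le_trans (by positivity) hu
  have c5 : u * (ε * y / T ^ 2) ≤ M * ε * z / T ^ 2 := by
    rw [← mul_div_assoc, mul_assoc]
    refine div_le_div_of_nonneg_right ?_ (by positivity)
    exact mul_le_mul hM (mul_le_mul_of_nonneg_left hz hε) (by positivity) (hu0.trans hM)
  have c6 : (B + s * a + s * (B / T)) / T ^ 2 ≤ (|B| + s * A + s * |B|) / T ^ 2 := by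
    refine div_le_div_of_nonneg_right ?_ (by positivity)
    have d1 : B / T ≤ |B| :=
      (div_le_div_of_nonneg_right b1 hT0.le).trans (div_le_self hB hT)
    have := mul_le_mul_of_nonneg_left b2 hs
    have := mul_le_mul_of_nonneg_left d1 hs
    linarith
  have e : (1 + s / T) * (1 - a / T - B / T ^ 2) =
      1 - (a - s) / T - (B + s * a + s * (B / T)) / T ^ 2 := by
    field_simp; ring
  rw [mul_sub u]
  linarith

theorem term {t y s : ℕ} {a A B ε : ℝ} (ht : 8 ≤ t) (ha : |a| ≤ A) (h1 : 2 * (A + |B|) ≤ t)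
    (h2 : 4 * (|B| + s * A + s * |B| + 1) * Real.log t ≤ t) (hε : 0 ≤ ε) :
    1 / 4 * (qq (t + 1) ^ (y + s) / ((t : ℝ) ^ 2 * Real.log t ^ 2)) -
      (a - s - 1) * (qq (t + 1) ^ (y + s) / ((t : ℝ) ^ 2 * Real.log t)) -
      2 ^ s * ε * (qq (t + 1) ^ (y + s) * (y + s : ℕ) / ((t : ℝ) ^ 3 * Real.log t)) +
      (cc (t + 1) * qq (t + 1) ^ (y + s) - cc t * qq t ^ (y + s)) ≤
    cc t * (qq (t + 1) ^ y * (1 - a / t - B / (t : ℝ) ^ 2 - ε * y / (t : ℝ) ^ 2) -
      qq t ^ (y + s)) := by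
  have hT : (8 : ℝ) ≤ t := by exact_mod_cast ht
  have hl := one_le_log (x := t) (by linarith)
  have hu : 1 + (s : ℝ) / t ≤ (1 + 1 / (t : ℝ)) ^ s := by
    have h0 : 0 ≤ 1 / (t : ℝ) := by positivity
    have := one_add_mul_le_pow (a := 1 / (t : ℝ)) (by linarith) s
    rwa [mul_one_div] at this
  have hM : (1 + 1 / (t : ℝ)) ^ s ≤ 2 ^ s := by
    refine pow_le_pow_left₀ (by positivity) ?_ s
    have : 1 / (t : ℝ) ≤ 1 := by rw [div_le_one (by linarith)]; linarith
    linarith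
  have hb := brk (B := B) (y := y) (z := (y + s : ℕ)) (by linarith) ha h1 (Nat.cast_nonneg s) hu hM
    hε (Nat.cast_nonneg y) (by push_cast; linarith [Nat.cast_nonneg (α := ℝ) s])
  have hQ : 0 ≤ qq (t + 1) ^ (y + s) := pow_nonneg (qq_nonneg _) _
  have hd := mul_le_mul_of_nonneg_right (cc_diff ht) hQ
  have hc := cc_nonneg t
  have h3 : (|B| + s * A + s * |B| + 1) / (t : ℝ) ^ 2 ≤ 1 / (4 * t * Real.log t) := by
    rw [div_le_div_iff₀ (by positivity) (by positivity)]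
    nlinarith
  rw [pow_eq (by omega : 1 ≤ t) y s]
  have h4 := mul_le_mul_of_nonneg_left hb (mul_nonneg hc hQ)
  have h5 := mul_le_mul_of_nonneg_left h3 (mul_nonneg hc hQ)
  generalize qq (t + 1) ^ (y + s) = Q at *
  generalize |B| + s * A + s * |B| = B1 at *
  generalize ((y + s : ℕ) : ℝ) = z at *
  have e : 1 / 4 * (Q / ((t : ℝ) ^ 2 * Real.log t ^ 2)) -
      (a - s - 1) * (Q / ((t : ℝ) ^ 2 * Real.log t)) -
      2 ^ s * ε * (Q * z / ((t : ℝ) ^ 3 * Real.log t)) =
      cc t * Q * (1 - (a - s) / t - B1 / (t : ℝ) ^ 2 - 2 ^ s * ε * z / (t : ℝ) ^ 2) -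
      cc t * (1 - 1 / (t : ℝ) + 1 / (t : ℝ) ^ 2 - 1 / (2 * t * Real.log t)) * Q +
      cc t * Q * ((B1 + 1) / (t : ℝ) ^ 2) - cc t * Q * (1 / (4 * t * Real.log t)) := by
    unfold cc
    field_simp
    ring
  rw [e]
  nlinarith

end LR1x

open LR1x in
theorem p_LR1 (hLR0 : S_LR0) :
    S_LR1 := by
  intro r hr
  obtain ⟨s, rfl⟩ : ∃ s, r = s + 1 := ⟨r - 1, by omega⟩
  refine ⟨2 ^ s * 400 * 32, 1 / 409600, by positivity, by positivity, fun B => ?_⟩
  obtain ⟨A, hA⟩ : ∃ A : ℝ, A = s + 2 + 4 * (2 ^ s * 400 * 32) := ⟨_, rfl⟩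
  have hA0 : 0 ≤ A := by rw [hA]; positivity
  have hB1 : 0 < 4 * (|B| + s * A + s * |B| + 1) := by positivity
  have e1 := (Real.isLittleO_log_id_atTop.comp_tendsto tendsto_natCast_atTop_atTop).bound
    (one_div_pos.2 hB1)
  have e2 := tendsto_natCast_atTop_atTop (R := ℝ).eventually_ge_atTop (2 * (A + |B|))
  obtain ⟨t0, ht0⟩ := eventually_atTop.1 (e1.and (e2.and (eventually_ge_atTop 8)))
  have h8 := (ht0 t0 le_rfl).2.2
  have e3 := (tendsto_pow_const_mul_const_pow_of_abs_lt_one 3 (r := qq t0)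
    (by rw [abs_of_nonneg (qq_nonneg _)]; exact qq_lt_one (by omega))).eventually_le_const
    (by norm_num : (0 : ℝ) < 1 / 512)
  obtain ⟨z1, hz1⟩ := eventually_atTop.1 e3
  refine ⟨t0, z1 + t0 + 2 * s + 6, by omega, by omega, fun z hz ε hε hε4 N hN => ?_⟩
  obtain ⟨y, rfl⟩ : ∃ y, z = y + s := ⟨z - s, by omega⟩
  rw [show y + s + 1 - (s + 1) = y by omega]
  obtain ⟨l1, l2, l3, l4⟩ := hLR0 (y + s) t0 N (by omega) (by omega) hN
  have hy : (s : ℝ) + 6 ≤ y := by exact_mod_cast (by omega : s + 6 ≤ y)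
  have hs : (0 : ℝ) ≤ s := Nat.cast_nonneg s
  have hLy := one_le_log (x := y) (by linarith)
  have hZ : (6 : ℝ) ≤ (y + s : ℕ) := by push_cast; linarith
  have hLz := one_le_log (x := (y + s : ℕ)) (by linarith)
  have hL2 : Real.log (y + s : ℕ) ≤ 2 * Real.log y := by
    have : Real.log (y + s : ℕ) ≤ Real.log ((y : ℝ) ^ 2) :=
      Real.log_le_log (by linarith) (by push_cast; nlinarith)
    rwa [Real.log_pow] at this
  have hη : 1 / 409600 / Real.log y ≤ 1 := (div_le_self (by norm_num) hLy).trans (by norm_num)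
  have hη0 : 0 ≤ 1 / 409600 / Real.log y := by positivity
  have hK : (0 : ℝ) ≤ 2 ^ s * 400 * 32 := by positivity
  have ha : |((s + 1 : ℕ) : ℝ) + 1 / 409600 / Real.log y - 2 ^ s * 400 * 32 * ε| ≤ A := by
    have := mul_le_mul_of_nonneg_left hε4 hK
    have := mul_nonneg hK hε
    rw [abs_le, hA]
    push_cast
    constructor <;> linarith
  refine le_trans ?_ (sum_le_sum fun t ht => term (y := y) (s := s) (B := B)
    (ht0 t (mem_Ico.1 ht).1).2.2 ha (ht0 t (mem_Ico.1 ht).1).2.1 ?_ hε)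
  swap
  · have := (ht0 t (mem_Ico.1 ht).1).1
    simp only [Function.comp, id, Real.norm_eq_abs] at this
    rw [abs_of_nonneg (Real.log_natCast_nonneg t), Nat.abs_cast,
      one_div_mul_eq_div, le_div_iff₀ hB1] at this
    linarith
  rw [sum_add_distrib, sum_sub_distrib, sum_sub_distrib, ← mul_sum, ← mul_sum, ← mul_sum,
    abel (fun t => cc t * qq t ^ (y + s)) (by omega : t0 ≤ N)]
  have f1 : 0 ≤ cc N * qq N ^ (y + s) := mul_nonneg (cc_nonneg _) (pow_nonneg (qq_nonneg _) _)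
  have f2 : cc t0 ≤ 1 := by
    have a1 : (8 : ℝ) ≤ t0 := by exact_mod_cast h8
    have a2 := one_le_log (x := t0) (by linarith)
    unfold cc
    rw [div_le_one (by positivity)]
    nlinarith
  have f3 := hz1 (y + s) (by omega)
  have f4 : Real.log (y + s : ℕ) ≤ (y + s : ℕ) :=
    (Real.log_le_sub_one_of_pos (by linarith)).trans (by linarith)
  have hq : 0 ≤ qq t0 ^ (y + s) := pow_nonneg (qq_nonneg _) _
  generalize qq t0 ^ (y + s) = q at *
  generalize cc N * qq N ^ (y + s) = c at *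
  generalize ∑ t ∈ Ico t0 N, qq (t + 1) ^ (y + s) / ((t : ℝ) ^ 2 * Real.log t ^ 2) = S1 at *
  generalize ∑ t ∈ Ico t0 N, qq (t + 1) ^ (y + s) / ((t : ℝ) ^ 2 * Real.log t) = S2 at *
  generalize ∑ t ∈ Ico t0 N, qq (t + 1) ^ (y + s) * (y + s : ℕ) / ((t : ℝ) ^ 3 * Real.log t) = S3
    at *
  generalize Real.log (y + s : ℕ) = L at *
  generalize ((y + s : ℕ) : ℝ) = Z at *
  have g1 : cc t0 * q ≤ 1 / 512 * (1 / (Z * L ^ 2)) := by
    refine (mul_le_of_le_one_left hq f2).trans ?_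
    rw [mul_one_div, le_div_iff₀ (by positivity)]
    refine le_trans ?_ f3
    have : Z * L ^ 2 ≤ Z ^ 3 := by
      have : L ^ 2 ≤ Z ^ 2 := pow_le_pow_left₀ (by linarith) f4 2
      nlinarith
    nlinarith
  have g2 : 1 / 409600 / Real.log y * S2 ≤ 1 / 512 * (1 / (Z * L ^ 2)) := by
    refine (mul_le_mul_of_nonneg_left l3 hη0).trans ?_
    have a1 : 1 / 409600 / Real.log y ≤ 1 / 204800 / L := by
      rw [div_le_div_iff₀ (by linarith) (by linarith)]; linarith
    refine (mul_le_mul_of_nonneg_right a1 (by positivity)).trans_eq ?_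
    field_simp
    norm_num
  have g3 : 2 ^ s * ε * S3 ≤ 2 ^ s * 400 * 32 * ε * S2 := by
    refine (mul_le_mul_of_nonneg_left l4 (by positivity)).trans ?_
    refine le_trans (le_of_eq ?_) (mul_le_mul_of_nonneg_left l2 (by positivity))
    field_simp
  have g4 : 1 / (64 * Z * L ^ 2) = 1 / 64 * (1 / (Z * L ^ 2)) := by field_simp
  push_cast
  nlinarith

end Pool.Agent.P.MP_c7fa75_pr.T
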