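import Pool.Agent.P.MP_c7fa75_pr.T.Iface

/-! Step LR2. -/

set_option autoImplicit false

namespace Pool.Agent.P.MP_c7fa75_pr.T

open MeasureTheory ProbabilityTheory Filter Topology Finset
open scoped ENNReal Classical

namespace LR2x

theorem log_ge {t : ℕ} (ht : 5 ≤ t) : 1 ≤ Real.log t := by
  have h5 : (5 : ℝ) ≤ t := by exact_mod_cast ht
  rw [Real.le_log_iff_exp_le (by linarith)]
  linarith [Real.exp_one_lt_d9]

theorem cc_nonneg {t : ℕ} (ht : 5 ≤ t) : 0 ≤ cc t := by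
  have := log_ge ht
  unfold cc
  positivity

theorem pow_mem (t z : ℕ) : 0 ≤ qq t ^ z ∧ qq t ^ z ≤ 1 :=
  ⟨pow_nonneg (qq_nonneg t) z, pow_le_one₀ (qq_nonneg t) (qq_le_one t)⟩

theorem term_nonneg {t : ℕ} (ht : 5 ≤ t) (z : ℕ) : 0 ≤ cc t * (1 - qq t ^ z) :=
  mul_nonneg (cc_nonneg ht) (sub_nonneg.2 (pow_mem t z).2)

theorem term_le {t : ℕ} (ht : 5 ≤ t) (z : ℕ) : cc t * (1 - qq t ^ z) ≤ z * (1 / (t : ℝ) ^ 2) := by
  have h5 : (5 : ℝ) ≤ t := by exact_mod_cast ht
  have h1 : cc t ≤ 1 / t := by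
    unfold cc
    exact one_div_le_one_div_of_le (by linarith) (by nlinarith [log_ge ht])
  have h3 : (1 : ℝ) / t ≤ 1 := by rw [div_le_one (by linarith)]; linarith
  have h2 : 1 + z * (-(1 / (t : ℝ))) ≤ (1 + -(1 / (t : ℝ))) ^ z := one_add_mul_le_pow (by linarith) z
  have h4 : 1 - qq t ^ z ≤ z * (1 / t) := by
    unfold qq
    rw [sub_eq_add_neg 1 (1 / (t : ℝ))]
    linarith
  calc cc t * (1 - qq t ^ z) ≤ 1 / t * (z * (1 / t)) :=
        mul_le_mul h1 h4 (sub_nonneg.2 (pow_mem t z).2) (by positivity)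
    _ = _ := by field_simp

theorem tele {t : ℕ} (ht : 5 ≤ t) :
    Real.log (Real.log ((t + 1 : ℕ) : ℝ)) - Real.log (Real.log t) ≤ cc t := by
  have h5 : (5 : ℝ) ≤ t := by exact_mod_cast ht
  have h1 := log_ge ht
  have h2 := log_ge (show 5 ≤ t + 1 by omega)
  have h3 : Real.log ((t + 1 : ℕ) : ℝ) - Real.log t ≤ 1 / t := by
    rw [← Real.log_div (by positivity) (by linarith)]
    refine (Real.log_le_sub_one_of_pos (by positivity)).trans (le_of_eq ?_)
    push_cast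
    field_simp
    ring
  rw [← Real.log_div (by linarith) (by linarith)]
  refine (Real.log_le_sub_one_of_pos (by positivity)).trans ?_
  unfold cc
  rw [div_sub_one (by linarith), ← div_div]
  exact div_le_div_of_nonneg_right h3 (by linarith)

theorem sum_ge {t0 : ℕ} (ht : 5 ≤ t0) (M : ℕ) :
    Real.log (Real.log ((t0 + M : ℕ) : ℝ)) - Real.log (Real.log t0) ≤ ∑ t ∈ range M, cc (t0 + t) := by
  induction M with
  | zero => simp
  | succ M ih =>
    have := tele (show 5 ≤ t0 + M by omega)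
    rw [sum_range_succ, ← add_assoc]
    linarith

theorem unbdd {t0 : ℕ} (ht : 5 ≤ t0) (n : ℝ) : ∃ M, n < ∑ t ∈ range M, cc (t0 + t) := by
  have h : Tendsto (fun M : ℕ => Real.log (Real.log ((t0 + M : ℕ) : ℝ))) atTop atTop :=
    Real.tendsto_log_atTop.comp (Real.tendsto_log_atTop.comp
      (tendsto_natCast_atTop_atTop.comp (tendsto_atTop_mono (fun M => Nat.le_add_left M t0) tendsto_id)))
  obtain ⟨M, hM⟩ := (h.eventually_gt_atTop (n + Real.log (Real.log t0))).exists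
  exact ⟨M, by linarith [sum_ge ht M]⟩

theorem lint (ν : Measure ℕ) [IsProbabilityMeasure ν] {t : ℕ} (ht : 5 ≤ t) :
    ∫⁻ u, ENNReal.ofReal (cc t * (1 - qq t ^ u)) ∂ν =
      ENNReal.ofReal (cc t * (1 - ∫ u, qq t ^ u ∂ν)) ∧ 0 ≤ cc t * (1 - ∫ u, qq t ^ u ∂ν) := by
  have h1 : Integrable (fun u : ℕ => qq t ^ u) ν :=
    (integrable_const (1 : ℝ)).mono' Measurable.of_discrete.aestronglyMeasurable
      (ae_of_all _ fun u => by rw [Real.norm_of_nonneg (pow_mem t u).1]; exact (pow_mem t u).2)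
  have h2 : ∫ u, cc t * (1 - qq t ^ u) ∂ν = cc t * (1 - ∫ u, qq t ^ u ∂ν) := by
    rw [integral_const_mul, integral_sub (integrable_const _) h1]
    simp
  rw [← h2]
  exact ⟨(ofReal_integral_eq_lintegral_ofReal (((integrable_const _).sub h1).const_mul _)
    (ae_of_all _ fun u => term_nonneg ht u)).symm, integral_nonneg fun u => term_nonneg ht u⟩

end LR2x

open LR2x in
theorem p_LR2 (hLR1 : S_LR1) :
    S_LR2 := by
  intro r hr
  obtain ⟨K, η, hK, hη, h⟩ := hLR1 r hr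
  refine ⟨K, η, hK, hη, fun B y0 ν hν hy => ?_⟩
  obtain ⟨t0, z0, ht0, hz0, h⟩ := h B
  have h5 : ∀ t, 5 ≤ t0 + t := fun t => by omega
  have hle : ∀ M z : ℕ, ENNReal.ofReal (∑ t ∈ range M, cc (t0 + t) * (1 - qq (t0 + t) ^ z)) ≤
      ∑' t, ENNReal.ofReal (cc (t0 + t) * (1 - qq (t0 + t) ^ z)) := fun M z => by
    rw [ENNReal.ofReal_sum_of_nonneg fun t _ => term_nonneg (h5 t) z]
    exact ENNReal.sum_le_tsum _
  refine ⟨fun z => ∑' t, ENNReal.ofReal (cc (t0 + t) * (1 - qq (t0 + t) ^ z)), z0 + y0 + r,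
    fun z => ?_, ?_, fun z hz => ?_⟩
  · have h1 : Summable fun t : ℕ => 1 / ((t0 + t : ℕ) : ℝ) ^ 2 :=
      (Real.summable_one_div_nat_pow.2 one_lt_two).comp_injective (add_right_injective t0)
    exact Summable.tsum_ofReal_lt_top (Summable.of_nonneg_of_le (fun t => term_nonneg (h5 t) z)
      (fun t => term_le (h5 t) z) (h1.mul_left _))
  · rw [ENNReal.tendsto_nhds_top_iff_nat]
    intro n
    obtain ⟨M, hM⟩ := unbdd ht0 n
    have h1 : Tendsto (fun z : ℕ => ∑ t ∈ range M, cc (t0 + t) * (1 - qq (t0 + t) ^ z)) atTop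
        (𝓝 (∑ t ∈ range M, cc (t0 + t) * (1 - 0))) :=
      tendsto_finsetSum _ fun t _ => (tendsto_const_nhds.sub (tendsto_pow_atTop_nhds_zero_of_lt_one
        (qq_nonneg _) (qq_lt_one (by have := h5 t; omega)))).const_mul _
    simp only [sub_zero, mul_one] at h1
    filter_upwards [h1.eventually_const_lt hM] with z hz
    refine lt_of_lt_of_le ?_ (hle M z)
    rw [← ENNReal.ofReal_natCast]
    exact (ENNReal.ofReal_lt_ofReal_iff ((Nat.cast_nonneg n).trans_lt hz)).2 hz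
  · obtain ⟨ε, he0, he4, he⟩ := hy (z + 1 - r) (by omega)
    have := hν (z + 1 - r)
    rw [lintegral_tsum fun t => Measurable.of_discrete.aemeasurable, ENNReal.tsum_eq_iSup_nat]
    refine iSup_le fun M => ?_
    refine (sum_le_sum_of_subset (range_mono (Nat.le_add_right M (4 * z)))).trans ?_
    refine le_trans ?_ (hle (M + 4 * z) z)
    rw [sum_congr rfl fun t _ => (lint (ν (z + 1 - r)) (h5 t)).1,
      ← ENNReal.ofReal_sum_of_nonneg fun t _ => (lint (ν (z + 1 - r)) (h5 t)).2]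
    refine ENNReal.ofReal_le_ofReal ?_
    have h1 := h z (by omega) ε he0 he4 (t0 + (M + 4 * z)) (by omega)
    rw [sum_Ico_eq_sum_range, Nat.add_sub_cancel_left] at h1
    rw [← sub_nonneg, ← sum_sub_distrib]
    refine h1.trans (sum_le_sum fun t _ => ?_)
    rw [← mul_sub]
    exact mul_le_mul_of_nonneg_left (by linarith [he (t0 + t) (h5 t)]) (cc_nonneg (h5 t))

end Pool.Agent.P.MP_c7fa75_pr.T
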