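import Pool.Agent.P.MP_c7fa75_pr.T.Iface

/-! Step MART. -/

set_option autoImplicit false

namespace Pool.Agent.P.MP_c7fa75_pr.T

open MeasureTheory ProbabilityTheory Filter Topology Finset
open scoped ENNReal Classical

namespace MARTx

/-- `ψ` depends only on the first `N` arrows. -/
def Dep (ψ : (ℕ → Bool) → ℝ) (N : ℕ) : Prop :=
  ∀ a a' : ℕ → Bool, (∀ i, i < N → a i = a' i) → ψ a = ψ a'

/-- Extension of a finite word by `false`. -/
def ext (N : ℕ) (v : {i // i ∈ range N} → Bool) : ℕ → Bool :=
  fun i => if h : i ∈ range N then v ⟨i, h⟩ else false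

theorem fac {ψ : (ℕ → Bool) → ℝ} {N : ℕ} (h : Dep ψ N) (a : ℕ → Bool) :
    ψ a = ψ (ext N (fun i => a i)) :=
  h _ _ fun i hi => by simp [ext, hi]

theorem meas_res (w : ℕ → ℝ) (S : Finset ℕ) :
    Measurable (fun (u : ℕ → unitInterval) (i : {i // i ∈ S}) => arr w u i) :=
  measurable_pi_lambda _ fun i => (measurable_pi_apply (i : ℕ)).comp (meas_arr w)

theorem integ (w : ℕ → ℝ) {ψ : (ℕ → Bool) → ℝ} {N : ℕ} (h : Dep ψ N) :
    Integrable (fun u => ψ (arr w u)) (lamU ℕ) := by
  have e : (fun u => ψ (arr w u)) =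
      (fun v => ψ (ext N v)) ∘ (fun (u : ℕ → unitInterval) (i : {i // i ∈ range N}) => arr w u i) :=
    funext fun u => fac h _
  rw [e]
  exact Integrable.comp_measurable Integrable.of_finite (meas_res w _)

theorem indep (w : ℕ → ℝ) {ψ : (ℕ → Bool) → ℝ} {N : ℕ} (h : Dep ψ N) (g : Bool → ℝ) :
    ∫ u, ψ (arr w u) * g (arr w u N) ∂lamU ℕ =
      (∫ u, ψ (arr w u) ∂lamU ℕ) * ∫ u, g (arr w u N) ∂lamU ℕ := by
  have h0 : iIndepFun (fun (i : ℕ) (u : ℕ → unitInterval) => arr1 (w i) (u i)) (lamU ℕ) :=
    iIndepFun_infinitePi (X := fun i (x : unitInterval) => arr1 (w i) x)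
      fun i => meas_arr1 measurable_const measurable_id
  have h1 := h0.indepFun_finset (range N) {N} (by simp)
    fun i => meas_arr1 measurable_const (measurable_pi_apply i)
  have h2 := h1.comp (φ := fun v => ψ (ext N v))
    (ψ := fun v : {i // i ∈ ({N} : Finset ℕ)} → Bool => g (v ⟨N, mem_singleton_self N⟩))
    Measurable.of_discrete Measurable.of_discrete
  have e : (fun u => ψ (arr w u)) =
      (fun v => ψ (ext N v)) ∘ (fun (u : ℕ → unitInterval) (i : {i // i ∈ range N}) => arr1 (w i) (u i)) :=
    funext fun u => fac h _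
  rw [← e] at h2
  exact h2.integral_fun_mul_eq_mul_integral (integ w h).aestronglyMeasurable
    ((Measurable.of_discrete (f := g)).comp
      ((measurable_pi_apply N).comp (meas_arr w))).aestronglyMeasurable

theorem one (hCYL : S_CYL) (w : ℕ → ℝ) (hw : ∀ i, w i ∈ Set.Icc (0 : ℝ) 1) (N : ℕ)
    (g : Bool → ℝ) : ∫ u, g (arr w u N) ∂lamU ℕ = w N * g true + (1 - w N) * g false := by
  have hm : MeasurableSet {u : ℕ → unitInterval | arr w u N = true} :=
    measurableSet_eq_fun ((measurable_pi_apply N).comp (meas_arr w)) measurable_const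
  have h1 : (lamU ℕ).real {u | arr w u N = true} = w N := by
    have := hCYL ℕ w hw {N} (fun _ => true)
    simpa [pr_true] using this
  have e : (fun u => g (arr w u N)) = fun u =>
      g false + Set.indicator {u : ℕ → unitInterval | arr w u N = true}
        (fun _ => g true - g false) u := by
    funext u
    by_cases hu : arr w u N = true
    · rw [Set.indicator_of_mem (by exact hu), hu]; ring
    · rw [Set.indicator_of_notMem (by exact hu), Bool.eq_false_iff.2 hu]; ring
  rw [e, integral_add (integrable_const _) ((integrable_const _).indicator hm),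
    integral_indicator_const _ hm, h1]
  simp only [integral_const, probReal_univ, smul_eq_mul]
  ring

theorem mart_congr (w : ℕ → ℝ) (l : ℝ) {a a' : ℕ → Bool} {n : ℕ}
    (h : ∀ i, i < n → a i = a' i) : mart w l a n = mart w l a' n := by
  unfold mart
  rw [Rr_congr h, Ll_congr h]

theorem dep_M (w : ℕ → ℝ) (l : ℝ) (y N : ℕ) : Dep (fun a => mart w l a (tau a y N)) N := by
  intro a a' h
  show mart w l a (tau a y N) = mart w l a' (tau a' y N)
  rw [← tau_congr y h]
  exact mart_congr w l fun i hi => h i (lt_of_lt_of_le hi (tau_le a y N))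

theorem dep_psi (w : ℕ → ℝ) (l : ℝ) (y N : ℕ) :
    Dep (fun a => if Ll a N < y then mart w l a (tau a y N) else 0) N := by
  intro a a' h
  show (if Ll a N < y then mart w l a (tau a y N) else 0) =
    if Ll a' N < y then mart w l a' (tau a' y N) else 0
  have e : mart w l a (tau a y N) = mart w l a' (tau a' y N) := dep_M w l y N a a' h
  rw [Ll_congr h, e]

theorem step (w : ℕ → ℝ) (l : ℝ) (y N : ℕ) (hd : 1 - l * (2 * w N - 1) ≠ 0) (a : ℕ → Bool) :
    mart w l a (tau a y (N + 1)) = mart w l a (tau a y N) +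
      (if Ll a N < y then mart w l a (tau a y N) else 0) *
        ((if a N = true then 1 - l else 1 + l) / (1 - l * (2 * w N - 1)) - 1) := by
  rw [tau_succ]
  by_cases h : Ll a N < y
  · rw [if_pos h, if_pos h, tau_of_lt h]
    unfold mart
    rw [Rr_succ, Ll_succ, prod_range_succ]
    by_cases e : a N = true
    · simp only [if_pos e, add_zero, pow_succ]
      rw [← div_div]
      field_simp
      ring
    · simp only [if_neg e, add_zero, pow_succ]
      rw [← div_div]
      field_simp
      ring
  · rw [if_neg h, if_neg h]; ring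

end MARTx

theorem p_MART (hCYL : S_CYL) :
    S_MART := by
  intro w hw l hl0 hl1 y N
  refine ⟨MARTx.integ w (MARTx.dep_M w l y N), ?_⟩
  induction N with
  | zero => simp [tau, mart]
  | succ N ih =>
    have hd : 1 - l * (2 * w N - 1) ≠ 0 := by
      have := (hw N).2
      nlinarith
    have hdep : MARTx.Dep (fun a => (if Ll a N < y then mart w l a (tau a y N) else 0) *
        ((if a N = true then 1 - l else 1 + l) / (1 - l * (2 * w N - 1)) - 1)) (N + 1) := by
      intro a a' h
      show _ * _ = _ * _
      rw [h N (Nat.lt_succ_self N)]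
      congr 1
      exact MARTx.dep_psi w l y N a a' fun i hi => h i (by omega)
    simp only [MARTx.step w l y N hd]
    rw [integral_add (MARTx.integ w (MARTx.dep_M w l y N)) (MARTx.integ w hdep), ih,
      MARTx.indep w (MARTx.dep_psi w l y N)
        (fun b => (if b = true then 1 - l else 1 + l) / (1 - l * (2 * w N - 1)) - 1),
      MARTx.one hCYL w hw N
        (fun b => (if b = true then 1 - l else 1 + l) / (1 - l * (2 * w N - 1)) - 1)]
    have : w N * ((1 - l) / (1 - l * (2 * w N - 1)) - 1) +
        (1 - w N) * ((1 + l) / (1 - l * (2 * w N - 1)) - 1) = 0 := by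
      have e : w N * ((1 - l) / (1 - l * (2 * w N - 1)) - 1) +
          (1 - w N) * ((1 + l) / (1 - l * (2 * w N - 1)) - 1) =
          (1 - l * (2 * w N - 1)) / (1 - l * (2 * w N - 1)) - 1 := by ring
      rw [e, div_self hd, sub_self]
    simp only [if_true, Bool.false_eq_true, if_false, this, mul_zero, add_zero]

end Pool.Agent.P.MP_c7fa75_pr.T
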