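import Pool.Agent.P.MP_c7fa75_pr.T.Iface

/-! Step MEAS. -/

set_option autoImplicit false

namespace Pool.Agent.P.MP_c7fa75_pr.T

open MeasureTheory ProbabilityTheory Filter Topology Finset
open scoped ENNReal Classical

namespace MEASx

theorem meas_Tr : MeasurableSet {q : ℕ → ℤ | Tr q} := by
  have : {q : ℕ → ℤ | Tr q} = ⋂ b : ℤ, ⋃ N : ℕ, ⋂ m : ℕ, ⋂ (_ : N ≤ m), {q | b ≤ |q m|} := by
    ext q
    simp only [Tr, tendsto_atTop_atTop, Set.mem_setOf_eq, Set.mem_iInter, Set.mem_iUnion]
  rw [this]
  refine MeasurableSet.iInter fun b => MeasurableSet.iUnion fun N =>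
    MeasurableSet.iInter fun m => MeasurableSet.iInter fun _ => ?_
  have h : Measurable (fun q : ℕ → ℤ => q m) := measurable_pi_apply m
  exact h (MeasurableSet.of_discrete (s := {z : ℤ | b ≤ |z|}))

theorem meas_vis (x : ℤ) : Measurable (fun q : ℕ → ℤ => vis q x) := by
  have h1 : Measurable (fun q : ℕ → ℤ => {m : ℕ | q m = x}) := by
    refine measurable_set_iff.2 fun m => ?_
    exact (Measurable.of_discrete (f := fun z : ℤ => z = x)).comp (measurable_pi_apply m)
  exact measurable_ncard.comp h1

end MEASx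

theorem p_MEAS :
    S_MEAS := by
  intro Θ _ X j t hX hj
  have hoff : ∀ x, Measurable (fun θ => off (fun i => X i θ) j x) := fun x => by
    unfold off
    exact Finset.measurable_sum _ fun i hi => (MEASx.meas_vis x).comp (hX i (mem_range.1 hi))
  have hcnt : Measurable (fun θ => cnt (X j θ) t) := by
    have : (fun θ => cnt (X j θ) t) =
        fun θ => ∑ m ∈ range t, if X j θ m = X j θ t then 1 else 0 := by
      funext θ
      rw [cnt, card_filter]
    rw [this]
    refine Finset.measurable_sum _ fun m hm => ?_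
    exact Measurable.ite (measurableSet_eq_fun (hj m (mem_range.1 hm).le) (hj t le_rfl))
      measurable_const measurable_const
  refine ⟨?_, hoff, hcnt, ?_⟩
  · have : {θ | Good (fun i => X i θ) j} = ⋂ i : ℕ, ⋂ (_ : i < j), X i ⁻¹' {q | Tr q} := by
      ext θ
      simp only [Good, Set.mem_setOf_eq, Set.mem_iInter, Set.mem_preimage]
    rw [this]
    exact MeasurableSet.iInter fun i => MeasurableSet.iInter fun hi => hX i hi MEASx.meas_Tr
  · unfold idx
    exact (meas_app (hj t le_rfl) (g := fun θ x => off (fun i => X i θ) j x) hoff).add hcnt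

end Pool.Agent.P.MP_c7fa75_pr.T
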