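import Pool.Agent.P.MP_c7fa75_pr.T.Iface

/-! Step NET. -/

set_option autoImplicit false

namespace Pool.Agent.P.MP_c7fa75_pr.T

open MeasureTheory ProbabilityTheory Filter Topology Finset
open scoped ENNReal Classical

namespace NETx

theorem off_succ (p : ℕ → ℕ → ℤ) (j : ℕ) (x : ℤ) :
    off p (j + 1) x = off p j x + vis (p j) x := by
  unfold off
  rw [Finset.sum_range_succ]

theorem card_succ (P : ℕ → Prop) (j : ℕ) :
    ((range (j + 1)).filter P).card = ((range j).filter P).card + if P j then 1 else 0 := by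
  rw [Finset.range_add_one, Finset.filter_insert]
  split_ifs with h
  · rw [Finset.card_insert_of_notMem]
    simp
  · simp

theorem ev_ind {q : ℕ → ℤ} (h : Tendsto q atTop atTop ∨ Tendsto q atTop atBot) (x : ℤ) :
    ∀ᶠ t in atTop, (x < q t ↔ Tendsto q atTop atTop) := by
  rcases h with h | h
  · filter_upwards [h.eventually_gt_atTop x] with t ht
    exact ⟨fun _ => h, fun _ => ht⟩
  · filter_upwards [h.eventually_le_atBot x] with t ht
    refine ⟨fun h' => absurd h' (not_lt.mpr ht), fun h' => ?_⟩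
    exfalso
    obtain ⟨s, hs1, hs2⟩ := ((h'.eventually_gt_atTop x).and (h.eventually_le_atBot x)).exists
    exact absurd hs1 (not_lt.mpr hs2)

end NETx

theorem p_NET (hFLOW : S_FLOW) (hUSE : S_USE) :
    S_NET := by
  intro a p k j hNN hF hjk hG x
  induction j with
  | zero => simp [off]
  | succ j ih =>
    have hG' : Good p j := fun i hi => hG i (Nat.lt_succ_of_lt hi)
    have hTr : Tr (p j) := hG j (Nat.lt_succ_self j)
    have hjk' : j < k := hjk
    have ih' := ih hjk'.le hG'
    obtain ⟨f1, f2, f3, -⟩ := hFLOW (p j) (hNN.1 j) (hNN.2 j)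
    obtain ⟨T1, hT1⟩ := f3 hTr (x : ℤ)
    obtain ⟨T2, hT2⟩ := f3 hTr ((x : ℤ) + 1)
    obtain ⟨t, ht, ht1, ht2⟩ := ((NETx.ev_ind (f2 hTr) (x : ℤ)).and
      ((eventually_ge_atTop T1).and (eventually_ge_atTop T2))).exists
    have u1 := (hUSE a p k j hF hjk' hG' (x : ℤ) t).1
    have u2 := (hUSE a p k j hF hjk' hG' ((x : ℤ) + 1) t).2
    rw [(hT1 t ht1).1] at u1
    rw [(hT2 t ht2).1] at u2
    rw [NETx.off_succ, NETx.off_succ, u1, u2, NETx.card_succ, ih', f1 x t]
    by_cases hq : Tendsto (p j) atTop atTop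
    · rw [if_pos hq, if_pos (ht.mpr hq)]
      omega
    · rw [if_neg hq, if_neg (fun h => hq (ht.mp h))]
      omega

end Pool.Agent.P.MP_c7fa75_pr.T
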