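import Pool.Agent.P.MP_c7fa75_pr.T.Iface

/-! Step NOL. -/

set_option autoImplicit false

namespace Pool.Agent.P.MP_c7fa75_pr.T

open MeasureTheory ProbabilityTheory Filter Topology Finset
open scoped ENNReal Classical

theorem p_NOL (hNOR : S_NOR) (hREFL : S_REFL) (hRFL0 : S_RFL0) (hHR1 : S_HR1) :
    S_NOL := by
  intro Θ _ μ _ k R P0 _ h01 hE hWr hL hHm hd
  obtain ⟨R', hX, hE'⟩ := hREFL Θ μ k R P0 hE
  obtain ⟨hP, h01', hL', hHp', -, hW', -, -⟩ := hRFL0 P0
  haveI := hP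
  obtain ⟨hL1, hdp, hdm⟩ := hL' hL
  have hC : ∀ K η : ℝ, 0 < K → 0 < η → Ctl (P0.map rfl1) 1 K η := by
    intro K η hK hη
    refine hHR1 (P0.map rfl1) 1 K η (h01' h01) hL1 (hHp' hHm) ?_ hK hη
    rw [hdp, hdm]
    simpa using hd
  have h := hNOR Θ μ k R' (P0.map rfl1) 1 (h01' h01) hE' (hW' hWr) le_rfl hC
  filter_upwards [h] with θ hθ hG i hi hT
  have hG' : Good (fun i => R'.X i θ) k := by
    intro j hj
    have h1 := hG j hj
    unfold Tr at h1 ⊢
    simpa [hX, abs_neg] using h1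
  have h0 := hθ hG'
  have hm : i ∈ (range k).filter (fun i => Tendsto (R'.X i θ) atTop atTop) := by
    refine mem_filter.2 ⟨mem_range.2 hi, ?_⟩
    have e : R'.X i θ = fun n => - R.X i θ n := funext fun n => hX i θ n
    rw [e]
    exact tendsto_neg_atBot_atTop.comp hT
  have := card_pos.2 ⟨i, hm⟩
  omega

end Pool.Agent.P.MP_c7fa75_pr.T
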