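import Pool.Agent.P.MP_c7fa75_pr.T.Iface

/-! Step NOR. -/

set_option autoImplicit false

namespace Pool.Agent.P.MP_c7fa75_pr.T

open MeasureTheory ProbabilityTheory Filter Topology Finset
open scoped ENNReal Classical

theorem p_NOR (hFLD : S_FLD) (hNET : S_NET) (hKILLQ : S_KILLQ) :
    S_NOR := by
  intro Θ _ μ _ k R P0 _ r h01 hE hW hr hC
  filter_upwards [hFLD Θ μ k R P0 h01 hE (fun a => ¬ Surv a r) (hKILLQ P0 r h01 hW hr hC)]
    with θ hθ hG
  obtain ⟨a, ha, hF⟩ := hθ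
  by_contra hh
  refine ha ⟨fun x => off (fun i => R.X i θ) k (x : ℤ), fun x => ?_⟩
  have h := hNET a (fun i => R.X i θ) k k (R.nn θ) hF le_rfl hG x
  have e : ((x + 1 : ℕ) : ℤ) = (x : ℤ) + 1 := by push_cast; rfl
  simp only [e]
  rw [h]
  exact Nat.add_le_add_left (not_lt.mp hh) _

end Pool.Agent.P.MP_c7fa75_pr.T
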