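import Pool.Agent.P.MP_c7fa75_pr.T.Iface

/-! Step QL. -/

set_option autoImplicit false

namespace Pool.Agent.P.MP_c7fa75_pr.T

open MeasureTheory ProbabilityTheory Filter Topology Finset
open scoped ENNReal Classical

namespace QLx

theorem one_le_mul_exp {u : ℝ} (h : u ≤ 1 / 2) : 1 ≤ (1 - u) * Real.exp (u + u ^ 2) := by
  have hu : 0 ≤ 1 - u := by linarith
  rcases le_total u 0 with h0 | h0
  · have h1 := mul_le_mul_of_nonneg_left (Real.add_one_le_exp (u + u ^ 2)) hu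
    have h2 : 0 ≤ (-u) * u ^ 2 := mul_nonneg (by linarith) (sq_nonneg u)
    nlinarith
  · have h1 := mul_le_mul_of_nonneg_left
      (Real.quadratic_le_exp_of_nonneg (x := u + u ^ 2) (by positivity)) hu
    have h2 : 0 ≤ (1 - u) * (1 + u) ^ 2 / 2 - u := by nlinarith [mul_nonneg h0 h0]
    have h3 := mul_nonneg (sq_nonneg u) h2
    nlinarith

theorem one_le_prod {w : ℕ → ℝ} (hw : ∀ i, w i ∈ Set.Icc (0 : ℝ) 1) {l : ℝ} (h0 : 0 < l)
    (h1 : l ≤ 1 / 2) (n : ℕ) :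
    1 ≤ (∏ i ∈ range n, (1 - l * (2 * w i - 1))) * Real.exp (l * psum w n + l ^ 2 * Vn w n) := by
  unfold psum Vn
  rw [mul_sum, mul_sum, ← sum_add_distrib, Real.exp_sum, ← prod_mul_distrib]
  refine Finset.one_le_prod fun i _ => ?_
  have := one_le_mul_exp (u := l * (2 * w i - 1)) (by nlinarith [(hw i).1, (hw i).2])
  rwa [mul_pow] at this

theorem mart_le {w : ℕ → ℝ} (hw : ∀ i, w i ∈ Set.Icc (0 : ℝ) 1) {l m : ℝ} (h0 : 0 < m)
    (h1 : m ≤ 1 / 2) {y n : ℕ} {J κ : ℝ} (hκ : 0 ≤ κ)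
    (hJ : psum w n ≤ J ∧ Vn w n ≤ κ * n) (hlm : (1 - m) * Real.exp (m ^ 2 * κ) ≤ 1 - l)
    (a : ℕ → Bool) (hL : Ll a n ≤ y) :
    mart w m a n ≤ (1 + m) ^ y * Real.exp (m * J + m ^ 2 * κ * y) * (1 - l) ^ Rr a n := by
  have hp : 0 < ∏ i ∈ range n, (1 - m * (2 * w i - 1)) :=
    prod_pos fun i _ => by nlinarith [(hw i).1, (hw i).2]
  have hm : 0 ≤ 1 - m := by linarith
  have h2 := one_le_prod hw h0 h1 n
  have hn : (n : ℝ) ≤ Rr a n + y := by
    have := Rr_add_Ll a n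
    exact_mod_cast (by omega : n ≤ Rr a n + y)
  have h3 : Real.exp (m * psum w n + m ^ 2 * Vn w n) ≤
      Real.exp (m * J + m ^ 2 * κ * y) * Real.exp (m ^ 2 * κ) ^ Rr a n := by
    rw [← Real.exp_nat_mul, ← Real.exp_add]
    refine Real.exp_le_exp.2 ?_
    have e1 := mul_le_mul_of_nonneg_left hJ.1 h0.le
    have e2 := mul_le_mul_of_nonneg_left (hJ.2.trans (mul_le_mul_of_nonneg_left hn hκ))
      (sq_nonneg m)
    nlinarith
  have h4 : (1 + m) ^ Ll a n ≤ (1 + m) ^ y := pow_le_pow_right₀ (by linarith) hL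
  have h5 : ((1 - m) * Real.exp (m ^ 2 * κ)) ^ Rr a n ≤ (1 - l) ^ Rr a n :=
    pow_le_pow_left₀ (by positivity) hlm _
  have h6 : 1 / ∏ i ∈ range n, (1 - m * (2 * w i - 1)) ≤
      Real.exp (m * J + m ^ 2 * κ * y) * Real.exp (m ^ 2 * κ) ^ Rr a n := by
    refine le_trans ?_ h3
    rw [div_le_iff₀ hp, mul_comm]
    exact h2
  calc mart w m a n
      = (1 - m) ^ Rr a n * (1 + m) ^ Ll a n * (1 / ∏ i ∈ range n, (1 - m * (2 * w i - 1))) := by
        unfold mart; ring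
    _ ≤ (1 - m) ^ Rr a n * (1 + m) ^ y *
        (Real.exp (m * J + m ^ 2 * κ * y) * Real.exp (m ^ 2 * κ) ^ Rr a n) := by
        gcongr
    _ = (1 + m) ^ y * Real.exp (m * J + m ^ 2 * κ * y) *
        ((1 - m) * Real.exp (m ^ 2 * κ)) ^ Rr a n := by
        rw [mul_pow]; ring
    _ ≤ _ := by gcongr

theorem point {w : ℕ → ℝ} (hw : ∀ i, w i ∈ Set.Icc (0 : ℝ) 1) {l m : ℝ} (hl0 : 0 < l)
    (hl1 : l ≤ 1) (h0 : 0 < m) (h1 : m ≤ 1 / 2) {y N : ℕ} (hN : y ≤ N) {J κ : ℝ} (hκ : 0 ≤ κ)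
    (hJ : ∀ n, y ≤ n → psum w n ≤ J ∧ Vn w n ≤ κ * n)
    (hlm : (1 - m) * Real.exp (m ^ 2 * κ) ≤ 1 - l) (a : ℕ → Bool) :
    mart w m a (tau a y N) ≤
      (1 + m) ^ y * Real.exp (m * J + m ^ 2 * κ * y) * ((1 - l) ^ Uo a y + (1 - l) ^ (N - y)) := by
  have hl : 0 ≤ 1 - l := by linarith
  have hA : 0 ≤ (1 + m) ^ y * Real.exp (m * J + m ^ 2 * κ * y) := by positivity
  rcases tau_cases a y N with h | ⟨h, h'⟩
  · refine (mart_le hw h0 h1 hκ (hJ _ (le_tau h)) hlm a h.le).trans ?_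
    rw [← Uo_eq_of_tau h]
    exact mul_le_mul_of_nonneg_left (le_add_of_nonneg_right (pow_nonneg hl _)) hA
  · rw [h]
    refine (mart_le hw h0 h1 hκ (hJ _ hN) hlm a h'.le).trans ?_
    refine mul_le_mul_of_nonneg_left (le_add_of_nonneg_of_le (pow_nonneg hl _) ?_) hA
    refine pow_le_pow_of_le_one hl (by linarith) ?_
    have := Rr_add_Ll a N
    omega

end QLx

theorem p_QL (hMART : S_MART) :
    S_QL := by
  intro w hw l h0 h1 y J κ hκ0 hκ1 hJ
  obtain ⟨m, hm⟩ : ∃ m, m = l + 2 * κ * l ^ 2 := ⟨_, rfl⟩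
  have hkl : 0 ≤ κ * l := by positivity
  have hkl' : κ * l ≤ 1 / 5 := by nlinarith
  have hk2 : 0 ≤ κ * l ^ 2 := by positivity
  have hm0 : 0 < m := by rw [hm]; positivity
  have hm1 : m ≤ 1 / 2 := by rw [hm]; nlinarith
  have hm2 : m ^ 2 ≤ 2 * l ^ 2 := by
    have e : m ^ 2 = l ^ 2 * (1 + 2 * (κ * l)) ^ 2 := by rw [hm]; ring
    have e2 : (1 + 2 * (κ * l)) ^ 2 ≤ 2 := by nlinarith
    rw [e, mul_comm]
    exact mul_le_mul_of_nonneg_right e2 (sq_nonneg l)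
  have hx : m ^ 2 * κ ≤ 2 * κ * l ^ 2 := by nlinarith
  have hx0 : 0 ≤ m ^ 2 * κ := by positivity
  have hlm : (1 - m) * Real.exp (m ^ 2 * κ) ≤ 1 - l := by
    have e1 : (1 - m ^ 2 * κ) * Real.exp (m ^ 2 * κ) ≤ 1 := by
      have := Real.add_one_le_exp (-(m ^ 2 * κ))
      have e := mul_le_mul_of_nonneg_right this (Real.exp_pos (m ^ 2 * κ)).le
      rw [← Real.exp_add, neg_add_cancel, Real.exp_zero] at e
      linarith
    have e2 : 1 - m ≤ (1 - l) * (1 - m ^ 2 * κ) := by nlinarith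
    calc (1 - m) * Real.exp (m ^ 2 * κ)
        ≤ (1 - l) * (1 - m ^ 2 * κ) * Real.exp (m ^ 2 * κ) :=
          mul_le_mul_of_nonneg_right e2 (Real.exp_pos _).le
      _ = (1 - l) * ((1 - m ^ 2 * κ) * Real.exp (m ^ 2 * κ)) := by ring
      _ ≤ (1 - l) * 1 := mul_le_mul_of_nonneg_left e1 (by linarith)
      _ = 1 - l := mul_one _
  have hl : 0 ≤ 1 - l := by linarith
  obtain ⟨A, hA⟩ : ∃ A, A = (1 + m) ^ y * Real.exp (m * J + m ^ 2 * κ * y) := ⟨_, rfl⟩
  have hA0 : 0 < A := by rw [hA]; positivity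
  have hint : Integrable (fun u => (1 - l) ^ Uo (arr w u) y) (lamU ℕ) := by
    refine Integrable.of_bound ?_ 1 (ae_of_all _ fun u => ?_)
    · exact ((Measurable.of_discrete (f := fun n : ℕ => (1 - l) ^ n)).comp
        ((meas_Uo y).comp (meas_arr w))).aestronglyMeasurable
    · rw [Real.norm_of_nonneg (pow_nonneg hl _)]
      exact pow_le_one₀ hl (by linarith)
  obtain ⟨I, hI⟩ : ∃ I, I = ∫ u, (1 - l) ^ Uo (arr w u) y ∂lamU ℕ := ⟨_, rfl⟩
  rw [← hI]
  have key : ∀ k : ℕ, 1 ≤ A * (I + (1 - l) ^ k) := by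
    intro k
    obtain ⟨hi, he⟩ := hMART w hw m hm0 (by linarith) y (y + k)
    have h2 := integral_mono hi ((hint.add (integrable_const ((1 - l) ^ k))).const_mul A)
      (fun u => by
        have := QLx.point hw h0 (by linarith) hm0 hm1 (Nat.le_add_right y k) hκ0 hJ hlm (arr w u)
        rw [← hA, Nat.add_sub_cancel_left] at this
        exact this)
    rw [he, integral_const_mul] at h2
    simp only [Pi.add_apply] at h2
    rw [integral_add hint (integrable_const _), ← hI] at h2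
    simpa using h2
  have hlim : Tendsto (fun k : ℕ => A * (I + (1 - l) ^ k)) atTop (𝓝 (A * (I + 0))) :=
    (tendsto_const_nhds.add (tendsto_pow_atTop_nhds_zero_of_lt_one hl (by linarith))).const_mul A
  have h3 : 1 ≤ A * I := by simpa using ge_of_tendsto' hlim key
  have hI0 : 0 ≤ I := by
    rw [hI]; exact integral_nonneg fun u => pow_nonneg hl _
  have h4 : A ≤ (1 + l) ^ y * Real.exp (m * J + 4 * κ * l ^ 2 * y) := by
    have e1 : 1 + m ≤ (1 + l) * Real.exp (2 * κ * l ^ 2) := by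
      have := mul_le_mul_of_nonneg_left (Real.add_one_le_exp (2 * κ * l ^ 2))
        (by linarith : 0 ≤ 1 + l)
      nlinarith [mul_nonneg h0.le hk2]
    have e2 : (1 + m) ^ y ≤ (1 + l) ^ y * Real.exp (y * (2 * κ * l ^ 2)) := by
      rw [Real.exp_nat_mul, ← mul_pow]
      exact pow_le_pow_left₀ (by linarith) e1 _
    have e3 := mul_le_mul_of_nonneg_right hx (Nat.cast_nonneg (α := ℝ) y)
    calc A ≤ (1 + l) ^ y * Real.exp (y * (2 * κ * l ^ 2)) * Real.exp (m * J + m ^ 2 * κ * y) := by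
          rw [hA]; gcongr
      _ = (1 + l) ^ y * Real.exp (y * (2 * κ * l ^ 2) + (m * J + m ^ 2 * κ * y)) := by
          rw [mul_assoc, ← Real.exp_add]
      _ ≤ _ := by
          refine mul_le_mul_of_nonneg_left (Real.exp_le_exp.2 ?_) (by positivity)
          nlinarith
  have h5 : 1 - l * J - 2 * l ^ 2 * |J| - 4 * κ * l ^ 2 * y ≤
      Real.exp (-(m * J + 4 * κ * l ^ 2 * y)) := by
    refine le_trans ?_ (Real.add_one_le_exp _)
    have e1 : κ * J ≤ |J| := by nlinarith [le_abs_self J, abs_nonneg J]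
    have e2 := mul_le_mul_of_nonneg_left e1 (sq_nonneg l)
    rw [hm]
    nlinarith
  have h6 : 1 ≤ (1 + l) ^ y * Real.exp (m * J + 4 * κ * l ^ 2 * y) * I :=
    h3.trans (mul_le_mul_of_nonneg_right h4 hI0)
  have hp : 0 < (1 + l) ^ y * Real.exp (m * J + 4 * κ * l ^ 2 * y) := by positivity
  calc _ ≤ ((1 + l)⁻¹) ^ y * Real.exp (-(m * J + 4 * κ * l ^ 2 * y)) :=
        mul_le_mul_of_nonneg_left h5 (by positivity)
    _ = 1 / ((1 + l) ^ y * Real.exp (m * J + 4 * κ * l ^ 2 * y)) := by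
        rw [inv_pow, Real.exp_neg, one_div, mul_inv]
    _ ≤ I := by
        rw [div_le_iff₀ hp, mul_comm]
        exact h6

end Pool.Agent.P.MP_c7fa75_pr.T
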