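import Pool.Agent.P.MP_c7fa75_pr.T.Iface

/-! Step REFL. -/

set_option autoImplicit false

namespace Pool.Agent.P.MP_c7fa75_pr.T

open MeasureTheory ProbabilityTheory Filter Topology Finset
open scoped ENNReal Classical

namespace REFLx

theorem tr_neg (q : ℕ → ℤ) : Tr (fun n => - q n) ↔ Tr q := by simp only [Tr, abs_neg]

theorem vis_neg (q : ℕ → ℤ) (x : ℤ) : vis (fun n => - q n) (-x) = vis q x := by
  simp only [vis, neg_inj]

theorem cnt_neg (q : ℕ → ℤ) (t : ℕ) : cnt (fun n => - q n) t = cnt q t := by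
  simp only [cnt, neg_inj]

theorem idx_neg (p : ℕ → ℕ → ℤ) (j t : ℕ) : idx (fun i n => - p i n) j t = idx p j t := by
  simp only [idx, off, vis_neg, cnt_neg]

theorem good_neg (p : ℕ → ℕ → ℤ) (j : ℕ) : Good (fun i n => - p i n) j ↔ Good p j := by
  simp only [Good, tr_neg]

theorem meas_W {Θ : Type} {m : MeasurableSpace Θ} {W : Θ → ℤ → ℕ → ℝ} (h : Measurable[m] W) :
    Measurable[m] (fun θ (x : ℤ) => rfl1 (W θ (-x))) :=
  measurable_pi_lambda _ fun x => meas_rfl1.comp ((measurable_pi_apply (-x)).comp h)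

theorem meas_X {Θ : Type} {m : MeasurableSpace Θ} {Y : Θ → ℕ → ℤ} (h : Measurable[m] Y) :
    Measurable[m] (fun θ (n : ℕ) => - Y θ n) :=
  measurable_pi_lambda _ fun n => ((measurable_pi_apply n).comp h).neg

end REFLx

open REFLx in
theorem p_REFL :
    S_REFL := by
  intro Θ _ μ _ k R P0 hE
  refine ⟨⟨fun θ x => rfl1 (R.W θ (-x)), fun j θ n => - R.X j θ n, meas_W R.mW,
    fun j => meas_X (R.mX j), fun θ => ⟨fun j => ?_, fun j n => ?_⟩, fun j hj t Z hZ hb hG => ?_⟩,
    fun _ _ _ => rfl, ?_, fun x => ?_⟩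
  · simp only [(R.nn θ).1 j, neg_zero]
  · have := (R.nn θ).2 j n
    simp only at this ⊢
    omega
  · have hle : past (fun θ x => rfl1 (R.W θ (-x))) (fun j θ n => - R.X j θ n) j t ≤
        past R.W R.X j t :=
      past_le_of _ _ j t (meas_W (past_W R.W R.X j t)) (fun i hi => meas_X (past_X R.W R.X j t hi))
        fun s hs => (past_Xj R.W R.X j t hs).neg
    have h := R.step j hj t Z (hZ.mono hle le_rfl) hb fun θ h => (good_neg _ j).1 (hG θ h)
    rw [← neg_eq_zero, ← integral_neg] at h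
    refine Eq.trans ?_ h
    refine integral_congr_ae (Eventually.of_forall fun θ => ?_)
    have e := idx_neg (fun i => R.X i θ) j t
    have hn := (R.nn θ).2 j t
    simp only at e hn ⊢
    rw [e, neg_neg, rfl1]
    rcases hn with hn | hn
    · rw [if_neg (by omega), if_pos hn]; ring
    · rw [if_pos (by omega), if_neg (by omega)]; ring
  · exact (hE.1.precomp (g := fun x : ℤ => -x) neg_injective).comp (fun _ => rfl1) fun _ => meas_rfl1
  · have hm : Measurable fun θ => R.W θ (-x) := (measurable_pi_apply (-x)).comp R.mW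
    rw [← hE.2 (-x), Measure.map_map meas_rfl1 hm]
    rfl

end Pool.Agent.P.MP_c7fa75_pr.T
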