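import Pool.Agent.P.MP_c7fa75_pr.T.Iface

/-! Step RFL0. -/

set_option autoImplicit false

namespace Pool.Agent.P.MP_c7fa75_pr.T

open MeasureTheory ProbabilityTheory Filter Topology Finset
open scoped ENNReal Classical

namespace RFL0x

noncomputable def eqv : (ℕ → ℝ) ≃ᵐ (ℕ → ℝ) where
  toFun := rfl1
  invFun := rfl1
  left_inv w := by funext i; simp [rfl1]
  right_inv w := by funext i; simp [rfl1]
  measurable_toFun := meas_rfl1
  measurable_invFun := meas_rfl1

theorem ae {P0 : Measure (ℕ → ℝ)} {φ : (ℕ → ℝ) → Prop} (h : ∀ᵐ w ∂P0, φ (rfl1 w)) :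
    ∀ᵐ w ∂P0.map rfl1, φ w := eqv.measurableEmbedding.ae_map_iff.2 h

theorem lint (P0 : Measure (ℕ → ℝ)) (f : (ℕ → ℝ) → ℝ≥0∞) :
    ∫⁻ w, f w ∂P0.map rfl1 = ∫⁻ w, f (rfl1 w) ∂P0 := lintegral_map_equiv f eqv

theorem neg {w : ℕ → ℝ} {s : EReal} (h : Tendsto (fun n : ℕ => (psum w n : EReal)) atTop (𝓝 s)) :
    Tendsto (fun n : ℕ => (psum (rfl1 w) n : EReal)) atTop (𝓝 (-s)) := by
  simp only [psum_rfl1, EReal.coe_neg]
  exact (continuous_neg.tendsto s).comp h

theorem up (w : ℕ → ℝ) : (total w).toENNReal ≤ ⨆ n : ℕ, ENNReal.ofReal (psum w n) := by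
  have : total w ≤ ((⨆ n : ℕ, ENNReal.ofReal (psum w n) : ℝ≥0∞) : EReal) := by
    refine limsup_le_of_le (by isBoundedDefault) (Eventually.of_forall fun n => ?_)
    refine le_trans ?_ (EReal.coe_ennreal_le_coe_ennreal_iff.2
      (le_iSup (fun n : ℕ => ENNReal.ofReal (psum w n)) n))
    rw [EReal.coe_ennreal_ofReal]
    exact EReal.coe_le_coe_iff.2 (le_max_left _ _)
  simpa using EReal.toENNReal_le_toENNReal this

theorem dn (w : ℕ → ℝ) : (-(total w)).toENNReal ≤ ⨆ n : ℕ, ENNReal.ofReal (- psum w n) := by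
  have : -(total w) ≤ ((⨆ n : ℕ, ENNReal.ofReal (- psum w n) : ℝ≥0∞) : EReal) := by
    rw [EReal.neg_le]
    refine le_limsup_of_frequently_le (Frequently.of_forall fun n => ?_)
    rw [EReal.neg_le]
    refine le_trans ?_ (EReal.coe_ennreal_le_coe_ennreal_iff.2
      (le_iSup (fun n : ℕ => ENNReal.ofReal (- psum w n)) n))
    rw [EReal.coe_ennreal_ofReal, ← EReal.coe_neg]
    exact EReal.coe_le_coe_iff.2 (le_max_left _ _)
  simpa using EReal.toENNReal_le_toENNReal this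

end RFL0x

theorem p_RFL0 :
    S_RFL0 := by
  intro P0 _
  refine ⟨Measure.isProbabilityMeasure_map meas_rfl1.aemeasurable, fun h => RFL0x.ae ?_,
    fun h => ⟨RFL0x.ae ?_, ?_, ?_⟩, fun h => ?_, fun h => ?_, fun h => ?_,
    fun h => lt_of_le_of_lt (lintegral_mono RFL0x.dn) h,
    fun h => lt_of_le_of_lt (lintegral_mono RFL0x.up) h⟩
  · filter_upwards [h] with w hw i
    exact ⟨by simp only [rfl1]; linarith [(hw i).2], by simp only [rfl1]; linarith [(hw i).1]⟩
  · filter_upwards [h] with w ⟨s, hs⟩ using ⟨-s, RFL0x.neg hs⟩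
  · rw [dp, dm, RFL0x.lint]
    refine lintegral_congr_ae ?_
    filter_upwards [h] with w ⟨s, hs⟩
    rw [show total (rfl1 w) = -s from (RFL0x.neg hs).limsup_eq, show total w = s from hs.limsup_eq]
  · rw [dp, dm, RFL0x.lint]
    refine lintegral_congr_ae ?_
    filter_upwards [h] with w ⟨s, hs⟩
    rw [show total (rfl1 w) = -s from (RFL0x.neg hs).limsup_eq, show total w = s from hs.limsup_eq,
      neg_neg]
  · rw [Hp, RFL0x.lint]
    simp only [psum_rfl1]
    exact h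
  · rw [Hm, RFL0x.lint]
    simp only [psum_rfl1, neg_neg]
    exact h
  · have := RFL0x.eqv.map_apply (μ := P0) {w | ∀ n, w n < 1}
    rw [Wl, show P0.map rfl1 = P0.map RFL0x.eqv from rfl, this]
    refine lt_of_lt_of_le h (measure_mono fun w hw n => ?_)
    show 1 - w n < 1
    linarith [hw n]

end Pool.Agent.P.MP_c7fa75_pr.T
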