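import Pool.Agent.P.MP_c7fa75_pr.T.Iface

/-! Step RUN0. -/

set_option autoImplicit false

namespace Pool.Agent.P.MP_c7fa75_pr.T

open MeasureTheory ProbabilityTheory Filter Topology Finset
open scoped ENNReal Classical

namespace RUN0x

theorem env_eq {Θ : Type} [MeasurableSpace Θ] {μ : Measure Θ} (M : Mod μ) (θ : Θ) (x : ℤ) :
    ∀ (j n : ℕ), Good (fun i => M.X i θ) j →
      M.env j θ x n = M.W θ x (off (fun i => M.X i θ) j x + n) := by
  intro j
  induction j with
  | zero =>
    intro n _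
    rw [M.env0]
    simp [off]
  | succ j ih =>
    intro n hg
    have hT : Tr (M.X j θ) := hg j (Nat.lt_succ_self j)
    have hg' : Good (fun i => M.X i θ) j := fun i hi => hg i (Nat.lt_succ_of_lt hi)
    rw [M.envT j θ x n hT, ih _ hg']
    congr 1
    simp only [off, sum_range_succ]
    omega

end RUN0x

theorem p_RUN0 (hCE : S_CE) :
    S_RUN0 := by
  intro Θ _ μ _ M k
  refine ⟨⟨M.W, M.X, M.mW, M.mX, M.nn, ?_⟩, rfl, rfl⟩
  intro j _ t Z hZ hb hG
  refine Eq.trans ?_ (hCE Θ μ M j t Z hZ hb)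
  refine integral_congr_ae (Eventually.of_forall fun θ => ?_)
  by_cases h0 : Z θ = 0
  · simp only [h0, zero_mul]
  · simp only [RUN0x.env_eq M θ (M.X j θ t) j _ (hG θ h0), idx]

end Pool.Agent.P.MP_c7fa75_pr.T
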