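import Pool.Agent.P.MP_c7fa75_pr.T.Iface

/-! Step SRW. -/

set_option autoImplicit false

namespace Pool.Agent.P.MP_c7fa75_pr.T

open MeasureTheory ProbabilityTheory Filter Topology Finset
open scoped ENNReal Classical

namespace SRWx

theorem env_half {Θ : Type} [MeasurableSpace Θ] {μ : Measure Θ} (M : Mod μ) (θ : Θ) (x : ℤ) :
    ∀ (j n : ℕ), ¬ Good (fun i => M.X i θ) j → M.env j θ x n = 1 / 2 := by
  intro j
  induction j with
  | zero =>
    intro n h
    exact absurd (fun i hi => absurd hi (Nat.not_lt_zero i)) h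
  | succ j ih =>
    intro n h
    by_cases hT : Tr (M.X j θ)
    · rw [M.envT j θ x n hT]
      refine ih _ fun hg => h fun i hi => ?_
      rcases Nat.lt_succ_iff_lt_or_eq.1 hi with hi | rfl
      · exact hg i hi
      · exact hT
    · exact M.envN j θ x n hT

end SRWx

theorem p_SRW (hCE : S_CE) (hMEAS : S_MEAS) (hHALF : S_HALF) :
    S_SRW := by
  intro Θ _ μ _ M j
  set H : Set Θ := {θ | Good (fun i => M.X i θ) j}ᶜ with hH
  have hHm : MeasurableSet H :=
    (hMEAS Θ M.X j 0 (fun i _ => M.mX i) fun s _ => (measurable_pi_apply s).comp (M.mX j)).1.compl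
  have hHp : ∀ t, MeasurableSet[past M.W M.X j t] H := fun t =>
    (@hMEAS Θ (past M.W M.X j t) M.X j t (fun i hi => past_X M.W M.X j t hi)
      fun s hs => past_Xj M.W M.X j t hs).1.compl
  suffices h : ∀ᵐ θ ∂μ.restrict H, ¬ Tr (M.X j θ) from (ae_restrict_iff' hHm).1 h
  by_cases h0 : μ H = 0
  · rw [Measure.restrict_eq_zero.2 h0, ae_zero]
    exact eventually_bot
  have hne : (μ H)⁻¹ ≠ 0 := ENNReal.inv_ne_zero.2 (measure_ne_top μ H)
  have : IsProbabilityMeasure (μ[|H]) := cond_isProbabilityMeasure h0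
  have key := hHALF Θ (μ[|H])
    ⟨fun _ _ _ => 1 / 2, fun _ => M.X j, measurable_const, fun _ => M.mX j,
      fun θ => ⟨fun _ => (M.nn θ).1 j, fun _ n => (M.nn θ).2 j n⟩, ?_⟩ (fun _ _ _ => rfl)
  · exact (Measure.ae_ennreal_smul_measure_iff hne).1 key
  · intro i hi t Z hZ hb _
    obtain rfl : i = 0 := by omega
    have hle : past (fun (_ : Θ) (_ : ℤ) (_ : ℕ) => (1 / 2 : ℝ)) (fun _ => M.X j) 0 t ≤
        past M.W M.X j t :=
      past_le_of _ _ 0 t measurable_const (fun i hi => absurd hi (Nat.not_lt_zero i))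
        fun s hs => past_Xj M.W M.X j t hs
    have hb' : ∀ᵐ θ ∂μ, θ ∈ H → |Z θ| ≤ 1 :=
      (ae_restrict_iff' hHm).1 ((Measure.ae_ennreal_smul_measure_iff hne).1 hb)
    have h := hCE Θ μ M j t (H.indicator Z) ((hZ.mono hle le_rfl).indicator (hHp t)) (by
      filter_upwards [hb'] with θ hθ
      by_cases hm : θ ∈ H
      · rw [Set.indicator_of_mem hm]; exact hθ hm
      · rw [Set.indicator_of_notMem hm]; simp)
    unfold ProbabilityTheory.cond
    rw [integral_smul_measure, ← integral_indicator hHm]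
    refine smul_eq_zero_of_right _ (Eq.trans ?_ h)
    refine integral_congr_ae (Eventually.of_forall fun θ => ?_)
    by_cases hm : θ ∈ H
    · simp only [Set.indicator_of_mem hm, SRWx.env_half M θ _ j _ hm]
    · simp only [Set.indicator_of_notMem hm, zero_mul]

end Pool.Agent.P.MP_c7fa75_pr.T
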