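import Pool.Agent.P.MP_c7fa75_pr.T.Iface

/-! Step SUP. -/

set_option autoImplicit false

namespace Pool.Agent.P.MP_c7fa75_pr.T

open MeasureTheory ProbabilityTheory Filter Topology Finset
open scoped ENNReal Classical

theorem p_SUP :
    S_SUP := by
  intro E _ Q _ F r z0 f hF hr h1 h2 z
  have key : ∀ n z, 1 ≤ (Kop Q F r)^[n] (fun _ => 1) z + f z := by
    intro n
    induction n with
    | zero => intro z; exact le_self_add
    | succ n ih =>
      intro z
      rcases lt_or_ge z z0 with hz | hz
      · exact (h1 z hz).trans le_add_self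
      · rw [Function.iterate_succ_apply']
        generalize (Kop Q F r)^[n] (fun _ => 1) = g at ih
        have hm : Measurable (fun e => f (F e z)) := (Measurable.of_discrete (f := f)).comp (hF z)
        calc (1 : ℝ≥0∞) = ∫⁻ _e, 1 ∂Q := by simp
          _ ≤ ∫⁻ e, ((if r ≤ F e z then g (F e z) else 0) + f (F e z)) ∂Q := by
            refine lintegral_mono fun e => ?_
            by_cases h : r ≤ F e z
            · rw [if_pos h]; exact ih _
            · rw [if_neg h, zero_add]; exact h1 _ (by omega)
          _ = Kop Q F r g z + ∫⁻ e, f (F e z) ∂Q := lintegral_add_right _ hm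
          _ ≤ Kop Q F r g z + f z := add_le_add le_rfl (h2 z hz)
  rw [ENNReal.iInf_add]
  exact le_iInf fun n => key n z

end Pool.Agent.P.MP_c7fa75_pr.T
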