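import Pool.Agent.P.MP_c7fa75_pr.T.Iface

/-! Step CE. -/

set_option autoImplicit false

namespace Pool.Agent.P.MP_c7fa75_pr.T

open MeasureTheory ProbabilityTheory Filter Topology Finset
open scoped ENNReal Classical

namespace CEx

theorem key {Θ : Type} {m : MeasurableSpace Θ} [m0 : MeasurableSpace Θ] (μ : Measure Θ)
    [IsProbabilityMeasure μ] (hm : m ≤ m0) {Z g e : Θ → ℝ} (hZ : Measurable[m] Z)
    (hb : ∀ᵐ θ ∂μ, |Z θ| ≤ 1) (hg : Integrable g μ) (he : condExp m μ g =ᵐ[μ] e) :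
    ∫ θ, Z θ * (g θ - e θ) ∂μ = 0 := by
  have hZs : StronglyMeasurable[m] Z := hZ.stronglyMeasurable
  have hZa : AEStronglyMeasurable Z μ := (hZs.mono hm).aestronglyMeasurable
  have hb' : ∀ᵐ θ ∂μ, ‖Z θ‖ ≤ 1 := hb
  have hei : Integrable e μ := integrable_condExp.congr he
  have i1 : Integrable (fun θ => Z θ * g θ) μ := hg.bdd_mul hZa hb'
  have i2 : Integrable (fun θ => Z θ * e θ) μ := hei.bdd_mul hZa hb'
  have h1 := condExp_mul_of_stronglyMeasurable_left (μ := μ) hZs i1 hg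
  have h2 : ∫ θ, Z θ * g θ ∂μ = ∫ θ, Z θ * e θ ∂μ := by
    have h3 := integral_condExp (μ := μ) (f := Z * g) hm
    have h4 : ∫ θ, (condExp m μ (Z * g)) θ ∂μ = ∫ θ, Z θ * e θ ∂μ := by
      refine integral_congr_ae ?_
      filter_upwards [h1, he] with θ e1 e2
      rw [e1, Pi.mul_apply, e2]
    rw [← h4, h3]
    rfl
  simp only [mul_sub]
  rw [integral_sub i1 i2, h2, sub_self]

end CEx

theorem p_CE :
    S_CE := by
  intro Θ m0 μ _ M j t Z hZ hb
  have hs : MeasurableSet {θ | M.X j θ (t + 1) = M.X j θ t + 1} :=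
    measurableSet_eq_fun ((measurable_pi_apply (t + 1)).comp (M.mX j))
      (((measurable_pi_apply t).comp (M.mX j)).add_const 1)
  have hg : Integrable (Set.indicator {θ | M.X j θ (t + 1) = M.X j θ t + 1} (fun _ => (1 : ℝ))) μ :=
    (integrable_const 1).indicator hs
  have h := CEx.key μ (past_le M.W M.X j t M.mW M.mX) hZ hb hg (M.ce j t)
  refine (integral_congr_ae (Eventually.of_forall fun θ => ?_)).trans h
  by_cases hθ : M.X j θ (t + 1) = M.X j θ t + 1
  · simp [Set.indicator, hθ]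
  · simp [Set.indicator, hθ]

end Pool.Agent.P.MP_c7fa75_pr.T
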