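import Pool.Agent.P.MP_c7fa75_pr.T.Iface

/-! Step CORE. -/

set_option autoImplicit false

namespace Pool.Agent.P.MP_c7fa75_pr.T

open MeasureTheory ProbabilityTheory Filter Topology Finset
open scoped ENNReal Classical

theorem p_CORE (hRUN0 : S_RUN0) (hFLD : S_FLD) (hDT : S_DT) (hFLOW : S_FLOW) (hSURVQ : S_SURVQ) (hNOR : S_NOR) (hNOL : S_NOL) (hSRW : S_SRW) (hHR1 : S_HR1) (hHR2 : S_HR2) (hRFL0 : S_RFL0) :
    S_CORE := by
  intro Θ _ μ _ M P0 _ h01 hEnv hWl hWr hLim hHm hdm k hk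
  obtain ⟨R, hRW, hRX⟩ := hRUN0 Θ μ M k
  have hEnvR : Env μ R.W P0 := by rw [hRW]; exact hEnv
  have hdmt : dm P0 < ⊤ := (hRFL0 P0).2.2.2.2.2.2.1 hHm
  have hlt : dm P0 < 1 + dp P0 := by
    by_cases hp : dp P0 = ⊤
    · rw [hp]; simpa using hdmt
    · calc dm P0 ≤ dp P0 := hdm
        _ < dp P0 + 1 := ENNReal.lt_add_right hp one_ne_zero
        _ = 1 + dp P0 := add_comm _ _
  have hL := hNOL Θ μ k R P0 h01 hEnvR hWr hLim hHm hlt
  have hTop : ∀ᵐ θ ∂μ, Good (fun i => R.X i θ) k →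
      ∀ i, i < k → Tendsto (R.X i θ) atTop atTop := by
    filter_upwards [hL] with θ hθ hG i hi
    rcases (hFLOW (R.X i θ) ((R.nn θ).1 i) ((R.nn θ).2 i)).2.1 (hG i hi) with h | h
    · exact h
    · exact absurd h (hθ hG i hi)
  refine ⟨fun ha => ?_, fun hHp hb => ?_⟩
  · have hS := hSURVQ P0 k h01 hLim hHm hk ha
    have hF := hFLD Θ μ k R P0 h01 hEnvR _ hS
    filter_upwards [hF, hTop] with θ hθ hT
    obtain ⟨a, ⟨hs, hinf⟩, hfol⟩ := hθ
    have hG := hDT a _ k (R.nn θ) hfol hs hinf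
    have h := hT hG (k - 1) (by omega)
    rw [hRX] at h
    exact h
  · have hC : ∀ K η : ℝ, 0 < K → 0 < η → Ctl P0 k K η := by
      intro K η hK hη
      rcases hb with hb | ⟨hb, hr⟩
      · exact hHR1 P0 k K η h01 hLim hHp hb hK hη
      · exact hHR2 P0 k K η h01 hLim hHp hHm hr hb hK hη
    have hN := hNOR Θ μ k R P0 k h01 hEnvR hWl hk hC
    have hS := hSRW Θ μ M (k - 1)
    filter_upwards [hN, hTop, hS] with θ hθ hT hs hTr
    have hG1 : Good (fun i => M.X i θ) (k - 1) := by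
      by_contra hne
      exact hs hne hTr
    have hG : Good (fun i => R.X i θ) k := by
      intro i hi
      rw [hRX]
      by_cases h : i < k - 1
      · exact hG1 i h
      · have e : i = k - 1 := by omega
        rw [e]; exact hTr
    have h1 := hθ hG
    rw [Finset.filter_true_of_mem (fun i hi => hT hG i (Finset.mem_range.mp hi)),
      Finset.card_range] at h1
    exact lt_irrefl _ h1

end Pool.Agent.P.MP_c7fa75_pr.T
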