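import Pool.Agent.P.MP_c7fa75_pr.T.Iface

/-! Step HR2. -/

set_option autoImplicit false

namespace Pool.Agent.P.MP_c7fa75_pr.T

open MeasureTheory ProbabilityTheory Filter Topology Finset
open scoped ENNReal Classical

namespace HR2x

/-- The integrable envelope of the initial sums. -/
noncomputable def MM (w : ℕ → ℝ) : ℝ≥0∞ :=
  (⨆ n : ℕ, ENNReal.ofReal (psum w n)) + ⨆ n : ℕ, ENNReal.ofReal (- psum w n)

theorem meas_p : Measurable (fun w : ℕ → ℝ => ⨆ n : ℕ, ENNReal.ofReal (psum w n)) :=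
  Measurable.iSup fun n => (meas_psum n).ennreal_ofReal

theorem meas_m : Measurable (fun w : ℕ → ℝ => ⨆ n : ℕ, ENNReal.ofReal (- psum w n)) :=
  Measurable.iSup fun n => (meas_psum n).neg.ennreal_ofReal

theorem meas_MM : Measurable MM := meas_p.add meas_m

theorem lint_MM (P0 : Measure (ℕ → ℝ)) (hp : Hp P0) (hm : Hm P0) : ∫⁻ w, MM w ∂P0 < ⊤ := by
  unfold MM
  rw [lintegral_add_left meas_p]
  exact ENNReal.add_lt_top.2 ⟨hp, hm⟩

theorem diff_le (w : ℕ → ℝ) (a b : ℕ) : ENNReal.ofReal (psum w a - psum w b) ≤ MM w := by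
  rw [sub_eq_add_neg]
  refine ENNReal.ofReal_add_le.trans (add_le_add ?_ ?_)
  · exact le_iSup (fun n : ℕ => ENNReal.ofReal (psum w n)) a
  · exact le_iSup (fun n : ℕ => ENNReal.ofReal (- psum w n)) b

theorem absdiff_le (w : ℕ → ℝ) (a b : ℕ) : ENNReal.ofReal |psum w a - psum w b| ≤ MM w := by
  rcases abs_cases (psum w a - psum w b) with h | h
  · rw [h.1]; exact diff_le w a b
  · rw [h.1, neg_sub]; exact diff_le w b a

theorem osc_le (w : ℕ → ℝ) (y : ℕ) : osc w y ≤ MM w :=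
  iSup_le fun _ => iSup_le fun _ => absdiff_le w _ _

theorem abs_le_MM {w : ℕ → ℝ} (h : MM w < ⊤) (n : ℕ) : |psum w n| ≤ (MM w).toReal := by
  have h1 := absdiff_le w n 0
  have h0 : psum w 0 = 0 := by simp [psum]
  rw [h0, sub_zero] at h1
  exact (ENNReal.ofReal_le_iff_le_toReal h.ne).1 h1

theorem abs_le_osc {w : ℕ → ℝ} (h : MM w < ⊤) {y a b : ℕ} (ha : y ≤ a) (hb : y ≤ b) :
    |psum w a - psum w b| ≤ (osc w y).toReal := by
  have hne : osc w y ≠ ⊤ := ((osc_le w y).trans_lt h).ne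
  refine (ENNReal.ofReal_le_iff_le_toReal hne).1 ?_
  obtain ⟨a, rfl⟩ := Nat.exists_eq_add_of_le ha
  obtain ⟨b, rfl⟩ := Nat.exists_eq_add_of_le hb
  exact le_iSup₂_of_le (f := fun m n : ℕ => ENNReal.ofReal |psum w (y + m) - psum w (y + n)|)
    a b le_rfl

theorem conv {w : ℕ → ℝ} (h : MM w < ⊤)
    (hL : ∃ s : EReal, Tendsto (fun n : ℕ => (psum w n : EReal)) atTop (𝓝 s)) :
    total w = ((total w).toReal : EReal) ∧ Tendsto (psum w) atTop (𝓝 (total w).toReal) ∧
      |(total w).toReal| ≤ (MM w).toReal := by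
  obtain ⟨s, hs⟩ := hL
  have ht : total w = s := hs.limsup_eq
  have h1 : s ≤ (((MM w).toReal : ℝ) : EReal) :=
    le_of_tendsto' hs fun n => EReal.coe_le_coe_iff.2 (abs_le.1 (abs_le_MM h n)).2
  have h2 : ((-(MM w).toReal : ℝ) : EReal) ≤ s :=
    ge_of_tendsto' hs fun n => EReal.coe_le_coe_iff.2 (abs_le.1 (abs_le_MM h n)).1
  rw [ht]
  induction s using EReal.rec with
  | bot => exact absurd h2 (not_le.2 (EReal.bot_lt_coe _))
  | top => exact absurd h1 (not_le.2 (EReal.coe_lt_top _))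
  | coe s =>
    refine ⟨rfl, EReal.tendsto_coe.1 hs, ?_⟩
    rw [EReal.toReal_coe]
    exact abs_le.2 ⟨EReal.coe_le_coe_iff.1 h2, EReal.coe_le_coe_iff.1 h1⟩

theorem Vn_le1 (w : ℕ → ℝ) (hw : ∀ i, w i ∈ Set.Icc (0 : ℝ) 1) (n : ℕ) : Vn w n ≤ n := by
  unfold Vn
  calc ∑ i ∈ range n, (2 * w i - 1) ^ 2 ≤ ∑ _i ∈ range n, (1 : ℝ) := by
        refine sum_le_sum fun i _ => ?_
        obtain ⟨h0, h1⟩ := hw i
        nlinarith
    _ = n := by simp

theorem Vn_le2 (w : ℕ → ℝ) (hw : ∀ i, w i ∈ Set.Icc (0 : ℝ) 1) (h : MM w < ⊤) (m n : ℕ) :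
    Vn w n ≤ m + n * (osc w m).toReal := by
  have hO : 0 ≤ (osc w m).toReal := ENNReal.toReal_nonneg
  induction n with
  | zero => simp [Vn]
  | succ n ih =>
    by_cases hn : n < m
    · have h1 := Vn_le1 w hw (n + 1)
      have h2 : ((n + 1 : ℕ) : ℝ) ≤ m := by exact_mod_cast hn
      have h3 : 0 ≤ ((n + 1 : ℕ) : ℝ) * (osc w m).toReal := by positivity
      linarith
    · have hmn : m ≤ n := not_lt.1 hn
      have h1 := abs_le_osc h (hmn.trans (Nat.le_succ n)) hmn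
      rw [psum_succ, add_sub_cancel_left] at h1
      have h2 : Vn w (n + 1) = Vn w n + (2 * w n - 1) ^ 2 := by
        unfold Vn; rw [sum_range_succ]
      obtain ⟨h3, h4⟩ := hw n
      have h5 : (2 * w n - 1) ^ 2 ≤ |2 * w n - 1| := by
        have h6 : |2 * w n - 1| ≤ 1 := abs_le.2 ⟨by linarith, by linarith⟩
        have h7 : 0 ≤ |2 * w n - 1| := abs_nonneg _
        rw [← sq_abs]
        nlinarith
      rw [h2]
      push_cast
      nlinarith

theorem sqrt_top : Tendsto Nat.sqrt atTop atTop := by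
  refine tendsto_atTop.2 fun b => (eventually_ge_atTop (b * b)).mono fun y hy => ?_
  exact Nat.le_sqrt.2 hy

theorem log_le {y : ℕ} (hy : 4 ≤ y) : Real.log y ≤ 4 * Real.log (Nat.sqrt y) := by
  have h2 : 2 ≤ Nat.sqrt y := Nat.le_sqrt.2 hy
  have h1 : y < (Nat.sqrt y + 1) * (Nat.sqrt y + 1) := Nat.lt_succ_sqrt y
  have h3 : y ≤ Nat.sqrt y ^ 4 := by
    set m := Nat.sqrt y
    have : m + 1 ≤ m * m := by nlinarith
    calc y ≤ (m + 1) * (m + 1) := h1.le
      _ ≤ (m * m) * (m * m) := Nat.mul_le_mul this this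
      _ = m ^ 4 := by ring
  have h4 : (y : ℝ) ≤ (Nat.sqrt y : ℝ) ^ 4 := by exact_mod_cast h3
  have h5 : (0 : ℝ) < y := by exact_mod_cast (by omega : 0 < y)
  have h6 := Real.log_le_log h5 h4
  rw [Real.log_pow] at h6
  exact_mod_cast h6

theorem small (e : ℕ → ℝ) (he : ∀ y, 0 ≤ e y)
    (hr : Tendsto (fun y : ℕ => Real.log y * e y) atTop (𝓝 0)) {K η : ℝ} (hK : 0 < K)
    (hη : 0 < η) :
    ∃ y0 : ℕ, ∀ y, y0 ≤ y → 1 ≤ y ∧
      e y + K * ((Nat.sqrt y : ℝ) / y + e (Nat.sqrt y)) ≤ η / Real.log y := by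
  have h1 : Tendsto (fun m : ℕ => Real.log m / m) atTop (𝓝 0) := by
    have := (Real.tendsto_pow_log_div_mul_add_atTop 1 0 1 one_ne_zero).comp
      tendsto_natCast_atTop_atTop
    refine this.congr fun m => ?_
    simp
  have h2 : Tendsto (fun y : ℕ => Real.log y * e y + K * (4 * (Real.log (Nat.sqrt y) /
      (Nat.sqrt y : ℝ) + Real.log (Nat.sqrt y) * e (Nat.sqrt y)))) atTop (𝓝 0) := by
    have := hr.add ((((h1.add hr).comp sqrt_top).const_mul 4).const_mul K)
    simpa using this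
  obtain ⟨y0, hy0⟩ := eventually_atTop.1
    ((h2.eventually (gt_mem_nhds hη)).and (eventually_ge_atTop 4))
  refine ⟨y0, fun y hy => ?_⟩
  obtain ⟨h3, h4⟩ := hy0 y hy
  refine ⟨by omega, ?_⟩
  have hm2 : 2 ≤ Nat.sqrt y := Nat.le_sqrt.2 h4
  have hm : (0 : ℝ) < Nat.sqrt y := by exact_mod_cast (by omega : 0 < Nat.sqrt y)
  have hy' : (0 : ℝ) < y := by exact_mod_cast (by omega : 0 < y)
  have hlog : 0 < Real.log y := Real.log_pos (by exact_mod_cast (by omega : 1 < y))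
  have h5 := log_le h4
  have h6 : (Nat.sqrt y : ℝ) / y ≤ 1 / (Nat.sqrt y : ℝ) := by
    rw [div_le_div_iff₀ hy' hm, one_mul]
    exact_mod_cast Nat.sqrt_le y
  have h7 : 0 ≤ (Nat.sqrt y : ℝ) / y := by positivity
  have h8 := he (Nat.sqrt y)
  have h9 : Real.log y * ((Nat.sqrt y : ℝ) / y + e (Nat.sqrt y)) ≤
      4 * Real.log (Nat.sqrt y) * (1 / (Nat.sqrt y : ℝ) + e (Nat.sqrt y)) :=
    mul_le_mul h5 (by linarith) (by linarith) (by linarith)
  have h10 : 4 * Real.log (Nat.sqrt y) * (1 / (Nat.sqrt y : ℝ) + e (Nat.sqrt y)) =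
      4 * (Real.log (Nat.sqrt y) / (Nat.sqrt y : ℝ) + Real.log (Nat.sqrt y) * e (Nat.sqrt y)) := by
    ring
  rw [le_div_iff₀ hlog]
  have h11 := mul_le_mul_of_nonneg_left h9 hK.le
  rw [h10] at h11
  nlinarith

end HR2x

open HR2x in
theorem p_HR2 :
    S_HR2 := by
  intro P0 _ r K η h01 hL hp hm hR hle hK hη
  have hM := lint_MM P0 hp hm
  have hfin : ∀ᵐ w ∂P0, MM w < ⊤ := ae_lt_top meas_MM hM.ne
  have hMi : Integrable (fun w => (MM w).toReal) P0 :=
    integrable_toReal_of_lintegral_ne_top meas_MM.aemeasurable hM.ne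
  set S : (ℕ → ℝ) → ℝ := fun w => (total w).toReal with hS
  have hSm : Measurable S := meas_total.ereal_toReal
  have hc : ∀ᵐ w ∂P0, total w = (S w : EReal) ∧ Tendsto (psum w) atTop (𝓝 (S w)) ∧
      |S w| ≤ (MM w).toReal := by
    filter_upwards [hfin, hL] with w h1 h2 using conv h1 h2
  have hSi : Integrable S P0 :=
    hMi.mono' hSm.aestronglyMeasurable (hc.mono fun w hw => hw.2.2)
  have hdp : dp P0 = ∫⁻ w, ENNReal.ofReal (S w) ∂P0 :=
    lintegral_congr_ae (hc.mono fun w hw => by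
      show (total w).toENNReal = _
      rw [hw.1]; rfl)
  have hdm : dm P0 = ∫⁻ w, ENNReal.ofReal (- S w) ∂P0 :=
    lintegral_congr_ae (hc.mono fun w hw => by
      show (-(total w)).toENNReal = _
      rw [hw.1, ← EReal.coe_neg]; rfl)
  have hdm' : dm P0 ≠ ⊤ := by
    rw [hdm]; exact hSi.neg.lintegral_lt_top.ne
  have hSr : ∫ w, S w ∂P0 ≤ r := by
    rw [integral_eq_lintegral_pos_part_sub_lintegral_neg_part hSi, ← hdp, ← hdm]
    have h1 := ENNReal.toReal_mono (ENNReal.add_ne_top.2 ⟨ENNReal.natCast_ne_top r, hdm'⟩) hle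
    rw [ENNReal.toReal_add (ENNReal.natCast_ne_top r) hdm', ENNReal.toReal_natCast] at h1
    linarith
  have hOl : ∀ y, ∫⁻ w, osc w y ∂P0 ≤ ∫⁻ w, MM w ∂P0 := fun y =>
    lintegral_mono fun w => osc_le w y
  have hOi : ∀ y, Integrable (fun w => (osc w y).toReal) P0 := fun y =>
    integrable_toReal_of_lintegral_ne_top (meas_osc y).aemeasurable ((hOl y).trans_lt hM).ne
  set e : ℕ → ℝ := fun y => (∫⁻ w, osc w y ∂P0).toReal with he
  have hOe : ∀ y, ∫ w, (osc w y).toReal ∂P0 = e y := fun y =>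
    integral_toReal (meas_osc y).aemeasurable (hfin.mono fun w hw => (osc_le w y).trans_lt hw)
  have heB : ∀ y, e y ≤ (∫⁻ w, MM w ∂P0).toReal := fun y => ENNReal.toReal_mono hM.ne (hOl y)
  have hr : Tendsto (fun y : ℕ => Real.log y * e y) atTop (𝓝 0) := by
    have := (ENNReal.tendsto_toReal ENNReal.zero_ne_top).comp hR
    refine this.congr fun y => ?_
    simp only [Function.comp, ENNReal.toReal_mul, he]
    rw [ENNReal.toReal_ofReal (Real.log_natCast_nonneg y)]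
  obtain ⟨y0, hy0⟩ := small e (fun _ => ENNReal.toReal_nonneg) hr hK hη
  refine ⟨∫ w, |S w| ∂P0 + (∫⁻ w, MM w ∂P0).toReal, y0, fun y hy => ?_⟩
  obtain ⟨hy1, hsm⟩ := hy0 y hy
  have hy' : (0 : ℝ) < y := by exact_mod_cast hy1
  have hq : 0 ≤ (Nat.sqrt y : ℝ) / y := by positivity
  have hκm : Measurable fun w => min 1 ((Nat.sqrt y : ℝ) / y + (osc w (Nat.sqrt y)).toReal) :=
    measurable_const.min (measurable_const.add (meas_osc _).ennreal_toReal)
  have hκ0 : ∀ w, 0 ≤ min 1 ((Nat.sqrt y : ℝ) / y + (osc w (Nat.sqrt y)).toReal) := fun w =>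
    le_min zero_le_one (add_nonneg hq ENNReal.toReal_nonneg)
  refine ⟨fun w => S w + (osc w y).toReal,
    fun w => min 1 ((Nat.sqrt y : ℝ) / y + (osc w (Nat.sqrt y)).toReal),
    hSm.add (meas_osc y).ennreal_toReal, hκm, hSi.add (hOi y),
    fun w => ⟨hκ0 w, min_le_left _ _⟩, ?_, ?_, ?_⟩
  · calc ∫ w, |S w + (osc w y).toReal| ∂P0 ≤ ∫ w, (|S w| + (osc w y).toReal) ∂P0 := by
          refine integral_mono (hSi.add (hOi y)).abs (hSi.abs.add (hOi y)) fun w => ?_
          refine (abs_add_le _ _).trans ?_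
          rw [abs_of_nonneg (ENNReal.toReal_nonneg (a := osc w y))]
      _ = ∫ w, |S w| ∂P0 + e y := by rw [integral_add hSi.abs (hOi y), hOe]
      _ ≤ _ := by linarith [heB y]
  · have h1 : ∫ w, min 1 ((Nat.sqrt y : ℝ) / y + (osc w (Nat.sqrt y)).toReal) ∂P0 ≤
        (Nat.sqrt y : ℝ) / y + e (Nat.sqrt y) := by
      calc _ ≤ ∫ w, ((Nat.sqrt y : ℝ) / y + (osc w (Nat.sqrt y)).toReal) ∂P0 :=
            integral_mono_of_nonneg (Eventually.of_forall hκ0)
              ((integrable_const _).add (hOi _)) (Eventually.of_forall fun w => min_le_right _ _)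
        _ = _ := by
            rw [integral_add (integrable_const _) (hOi _), hOe]
            simp
    rw [integral_add hSi (hOi y), hOe]
    have h2 := mul_le_mul_of_nonneg_left h1 hK.le
    linarith
  · filter_upwards [hfin, hc, h01] with w hw hcw hw01 n hn
    constructor
    · have h1 : Tendsto (fun b => psum w n - psum w b) atTop (𝓝 (psum w n - S w)) :=
        tendsto_const_nhds.sub hcw.2.1
      have h2 : psum w n - S w ≤ (osc w y).toReal :=
        le_of_tendsto h1 ((eventually_ge_atTop y).mono fun b hb =>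
          (le_abs_self _).trans (abs_le_osc hw hn hb))
      linarith
    · have hn' : (y : ℝ) ≤ n := by exact_mod_cast hn
      have h0 : (0 : ℝ) ≤ n := by positivity
      rw [min_mul_of_nonneg _ _ h0]
      refine le_min (by rw [one_mul]; exact Vn_le1 w hw01 n) ?_
      have h1 := Vn_le2 w hw01 hw (Nat.sqrt y) n
      have h2 : (Nat.sqrt y : ℝ) ≤ (Nat.sqrt y : ℝ) / y * n := by
        calc (Nat.sqrt y : ℝ) = (Nat.sqrt y : ℝ) / y * y := by field_simp
          _ ≤ _ := mul_le_mul_of_nonneg_left hn' hq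
      nlinarith

end Pool.Agent.P.MP_c7fa75_pr.T
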