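import Pool.Agent.P.MP_c7fa75_pr.T.Iface

/-! Step LT0. -/

set_option autoImplicit false

namespace Pool.Agent.P.MP_c7fa75_pr.T

open MeasureTheory ProbabilityTheory Filter Topology Finset
open scoped ENNReal Classical

namespace LT0x

/-- The pointwise weight. -/
noncomputable def g (γ B : ℝ) (t : ℕ) : ℝ := (min 1 (B / t)) ^ γ

lemma m_nonneg {B : ℝ} (hB : 0 ≤ B) (t : ℕ) : 0 ≤ min 1 (B / (t : ℝ)) :=
  le_min zero_le_one (div_nonneg hB (Nat.cast_nonneg t))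

lemma g_nonneg (γ : ℝ) {B : ℝ} (hB : 0 ≤ B) (t : ℕ) : 0 ≤ g γ B t :=
  Real.rpow_nonneg (m_nonneg hB t) γ

lemma g_le_one {γ : ℝ} (hγ : 0 ≤ γ) {B : ℝ} (hB : 0 ≤ B) (t : ℕ) : g γ B t ≤ 1 :=
  Real.rpow_le_one (m_nonneg hB t) (min_le_left _ _) hγ

lemma g_lower {γ : ℝ} (hγ : 0 ≤ γ) {B : ℝ} (hB : 1 ≤ B) (t : ℕ) :
    g γ 1 t ≤ g γ B t := by
  unfold g
  refine Real.rpow_le_rpow (m_nonneg zero_le_one t) (min_le_min le_rfl ?_) hγ
  exact div_le_div_of_nonneg_right hB (Nat.cast_nonneg t)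

lemma g_one_pos (γ : ℝ) {t : ℕ} (ht : 1 ≤ t) : 0 < g γ 1 t := by
  unfold g
  have : (0 : ℝ) < t := by exact_mod_cast ht
  exact Real.rpow_pos_of_pos (lt_min one_pos (by positivity)) γ

lemma g_anti {γ : ℝ} (hγ : 0 ≤ γ) {B : ℝ} (hB : 0 ≤ B) {t : ℕ} (ht : 1 ≤ t) :
    g γ B (t + 1) ≤ g γ B t := by
  unfold g
  have h : (0 : ℝ) < t := by exact_mod_cast ht
  refine Real.rpow_le_rpow (m_nonneg hB _) (min_le_min le_rfl ?_) hγ
  refine div_le_div_of_nonneg_left hB h ?_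
  push_cast; linarith

lemma g_ratio {γ : ℝ} (hγ : 1 ≤ γ) {B : ℝ} (hB : 0 ≤ B) {t : ℕ} (ht : 1 ≤ t) :
    g γ B t * (1 - γ / t) ≤ g γ B (t + 1) := by
  have h : (0 : ℝ) < t := by exact_mod_cast ht
  have h1 : (0 : ℝ) < (t : ℝ) + 1 := by linarith
  have hq : (0 : ℝ) ≤ (t : ℝ) / (t + 1) := by positivity
  have hm : min 1 (B / (t : ℝ)) * ((t : ℝ) / (t + 1)) ≤ min 1 (B / ((t + 1 : ℕ) : ℝ)) := by
    refine le_min ?_ ?_
    · have : (t : ℝ) / (t + 1) ≤ 1 := by rw [div_le_one h1]; linarith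
      calc min 1 (B / (t : ℝ)) * ((t : ℝ) / (t + 1)) ≤ 1 * 1 :=
            mul_le_mul (min_le_left _ _) this hq zero_le_one
        _ = 1 := by ring
    · calc min 1 (B / (t : ℝ)) * ((t : ℝ) / (t + 1)) ≤ B / t * ((t : ℝ) / (t + 1)) :=
            mul_le_mul_of_nonneg_right (min_le_right _ _) hq
        _ = B / ((t + 1 : ℕ) : ℝ) := by push_cast; field_simp
  have hb : 1 - γ / t ≤ ((t : ℝ) / (t + 1)) ^ γ := by
    have e : (t : ℝ) / (t + 1) = 1 + (-(1 / ((t : ℝ) + 1))) := by field_simp; ring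
    have hs : (-1 : ℝ) ≤ -(1 / ((t : ℝ) + 1)) := by
      have : 1 / ((t : ℝ) + 1) ≤ 1 := by rw [div_le_one h1]; linarith
      linarith
    have := one_add_mul_self_le_rpow_one_add hs hγ
    rw [e]
    refine le_trans ?_ this
    have h2 : γ / ((t : ℝ) + 1) ≤ γ / t :=
      div_le_div_of_nonneg_left (by linarith) h (by linarith)
    have h3 : γ * -(1 / ((t : ℝ) + 1)) = -(γ / ((t : ℝ) + 1)) := by ring
    rw [h3]; linarith
  calc g γ B t * (1 - γ / t) ≤ g γ B t * ((t : ℝ) / (t + 1)) ^ γ :=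
        mul_le_mul_of_nonneg_left hb (g_nonneg γ hB t)
    _ = (min 1 (B / (t : ℝ)) * ((t : ℝ) / (t + 1))) ^ γ := by
        unfold g; rw [Real.mul_rpow (m_nonneg hB t) hq]
    _ ≤ g γ B (t + 1) :=
        Real.rpow_le_rpow (mul_nonneg (m_nonneg hB t) hq) hm (by linarith)

lemma g_double {γ : ℝ} (hγ : 0 ≤ γ) (hγ2 : γ ≤ 2) {B : ℝ} (hB : 0 ≤ B) {t : ℕ} (ht : 1 ≤ t) :
    g γ B t ≤ 4 * g γ B (2 * t) := by
  have h : (0 : ℝ) < t := by exact_mod_cast ht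
  have hm : min 1 (B / (t : ℝ)) ≤ 2 * min 1 (B / ((2 * t : ℕ) : ℝ)) := by
    rw [mul_min_of_nonneg _ _ (by norm_num : (0 : ℝ) ≤ 2)]
    refine min_le_min (by norm_num) (le_of_eq ?_)
    push_cast; field_simp
  have h4 : (2 : ℝ) ^ γ ≤ 4 := by
    calc (2 : ℝ) ^ γ ≤ 2 ^ (2 : ℝ) := Real.rpow_le_rpow_of_exponent_le (by norm_num) hγ2
      _ = 4 := by norm_num
  calc g γ B t ≤ (2 * min 1 (B / ((2 * t : ℕ) : ℝ))) ^ γ :=
        Real.rpow_le_rpow (m_nonneg hB t) hm hγ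
    _ = 2 ^ γ * g γ B (2 * t) := by
        unfold g; rw [Real.mul_rpow (by norm_num) (m_nonneg hB _)]
    _ ≤ 4 * g γ B (2 * t) := mul_le_mul_of_nonneg_right h4 (g_nonneg γ hB _)

lemma g_quarter {γ : ℝ} (hγ : 0 ≤ γ) (hγ2 : γ ≤ 2) {B : ℝ} {y : ℕ} (hy : 1 ≤ y)
    (hB : (y : ℝ) / 4 ≤ B) : 1 ≤ 16 * g γ B y := by
  have h : (0 : ℝ) < y := by exact_mod_cast hy
  have hm : (1 / 4 : ℝ) ≤ min 1 (B / (y : ℝ)) := by
    refine le_min (by norm_num) ?_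
    rw [le_div_iff₀ h]; linarith
  have h1 : (1 / 4 : ℝ) ^ γ ≤ g γ B y := Real.rpow_le_rpow (by norm_num) hm hγ
  have h2 : (1 / 4 : ℝ) ^ (2 : ℝ) ≤ (1 / 4 : ℝ) ^ γ :=
    Real.rpow_le_rpow_of_exponent_ge (by norm_num) (by norm_num) hγ2
  have h3 : (1 / 4 : ℝ) ^ (2 : ℝ) = 1 / 16 := by norm_num
  linarith

lemma tele {γ : ℝ} (hγ : 1 < γ) (hγ2 : γ ≤ 2) {s : ℝ} (hs : 0 < s) :
    (γ - 1) * (s + 1) ^ (-γ) ≤ s ^ (1 - γ) - (s + 1) ^ (1 - γ) := by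
  have h1 : (0 : ℝ) < s + 1 := by linarith
  set a := γ - 1 with ha
  have ha0 : 0 < a := by linarith
  have ha1 : a ≤ 1 := by linarith
  have hq : (0 : ℝ) < s / (s + 1) := by positivity
  have hb : (s / (s + 1)) ^ a ≤ 1 - a / (s + 1) := by
    have e : s / (s + 1) = 1 + (-(1 / (s + 1))) := by field_simp; ring
    have hs' : (-1 : ℝ) ≤ -(1 / (s + 1)) := by
      have : 1 / (s + 1) ≤ 1 := by rw [div_le_one h1]; linarith
      linarith
    have := rpow_one_add_le_one_add_mul_self hs' ha0.le ha1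
    rw [e]
    refine le_trans this (le_of_eq ?_)
    ring
  have hpa : 0 < s ^ a := Real.rpow_pos_of_pos hs a
  have hpb : 0 < (s + 1) ^ a := Real.rpow_pos_of_pos h1 a
  rw [Real.div_rpow hs.le h1.le, div_le_iff₀ hpb] at hb
  have e1 : s ^ (1 - γ) = (s ^ a)⁻¹ := by
    rw [← Real.rpow_neg hs.le]; congr 1; rw [ha]; ring
  have e2 : (s + 1) ^ (1 - γ) = ((s + 1) ^ a)⁻¹ := by
    rw [← Real.rpow_neg h1.le]; congr 1; rw [ha]; ring
  have e3 : (s + 1) ^ (-γ) = ((s + 1) ^ a)⁻¹ * (s + 1)⁻¹ := by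
    rw [← Real.rpow_neg h1.le, ← Real.rpow_neg_one, ← Real.rpow_add h1]; congr 1; rw [ha]; ring
  rw [e1, e2, e3]
  set u := a / (s + 1) with hu
  have hu0 : 0 ≤ u := by positivity
  have key : (1 + u) * s ^ a ≤ (s + 1) ^ a := by
    have h5 : (1 + u) * s ^ a ≤ (1 + u) * ((1 - u) * (s + 1) ^ a) :=
      mul_le_mul_of_nonneg_left hb (by linarith)
    have h6 : (1 + u) * ((1 - u) * (s + 1) ^ a) = (s + 1) ^ a - u ^ 2 * (s + 1) ^ a := by ring
    have h7 : 0 ≤ u ^ 2 * (s + 1) ^ a := by positivity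
    linarith
  have e4 : a * (((s + 1) ^ a)⁻¹ * (s + 1)⁻¹) = u * ((s + 1) ^ a)⁻¹ := by
    rw [hu]; ring
  rw [e4]
  have h8 : (1 + u) * ((s + 1) ^ a)⁻¹ ≤ (s ^ a)⁻¹ := by
    rw [← div_eq_mul_inv, div_le_iff₀ hpb, inv_mul_eq_div, le_div_iff₀ hpa]
    exact key
  linarith

lemma sum_tail {γ : ℝ} (hγ : 1 < γ) (hγ2 : γ ≤ 2) {B : ℝ} (hB : 1 ≤ B) (K : ℕ) (hK : 1 ≤ K)
    (M : ℕ) (hM : K ≤ M) :
    ∑ t ∈ range (M + 1), g γ B t ≤
      (K + 1) + B ^ γ * ((K : ℝ) ^ (1 - γ) - (M : ℝ) ^ (1 - γ)) / (γ - 1) := by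
  have hB0 : 0 ≤ B := by linarith
  induction M, hM using Nat.le_induction with
  | base =>
    have : ∑ t ∈ range (K + 1), g γ B t ≤ ∑ _t ∈ range (K + 1), (1 : ℝ) :=
      sum_le_sum fun t _ => g_le_one (by linarith) hB0 t
    simpa using this
  | succ M hM ih =>
    rw [sum_range_succ]
    have hM0 : (0 : ℝ) < M := by exact_mod_cast (le_trans hK hM)
    have h1 : (0 : ℝ) < (M : ℝ) + 1 := by linarith
    have hg : g γ B (M + 1) ≤ B ^ γ * ((M : ℝ) + 1) ^ (-γ) := by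
      calc g γ B (M + 1) ≤ (B / ((M + 1 : ℕ) : ℝ)) ^ γ :=
            Real.rpow_le_rpow (m_nonneg hB0 _) (min_le_right _ _) (by linarith)
        _ = B ^ γ * ((M : ℝ) + 1) ^ (-γ) := by
            push_cast
            rw [Real.div_rpow hB0 h1.le, Real.rpow_neg h1.le, div_eq_mul_inv]
    have ht := tele hγ hγ2 hM0
    have ha : 0 < γ - 1 := by linarith
    have hBγ : 0 ≤ B ^ γ := Real.rpow_nonneg hB0 γ
    have h2 : ((M : ℝ) + 1) ^ (-γ) ≤ ((M : ℝ) ^ (1 - γ) - ((M : ℝ) + 1) ^ (1 - γ)) / (γ - 1) := by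
      rw [le_div_iff₀ ha]; linarith
    have h3 := mul_le_mul_of_nonneg_left h2 hBγ
    have e : B ^ γ * ((K : ℝ) ^ (1 - γ) - ((M + 1 : ℕ) : ℝ) ^ (1 - γ)) / (γ - 1) =
        B ^ γ * ((K : ℝ) ^ (1 - γ) - (M : ℝ) ^ (1 - γ)) / (γ - 1) +
          B ^ γ * (((M : ℝ) ^ (1 - γ) - ((M : ℝ) + 1) ^ (1 - γ)) / (γ - 1)) := by
      push_cast; ring
    rw [e]; linarith

lemma sum_le {γ : ℝ} (hγ : 1 < γ) (hγ2 : γ ≤ 2) {B : ℝ} (hB : 1 ≤ B) (N : ℕ) :
    ∑ t ∈ range N, g γ B t ≤ (1 + 1 / (γ - 1)) * B + 2 := by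
  have hB0 : 0 < B := by linarith
  set K := ⌈B⌉₊ with hKdef
  have hK1 : 1 ≤ K := Nat.one_le_iff_ne_zero.mpr (by
    rw [hKdef]; exact (Nat.ceil_pos.mpr hB0).ne')
  have hKB : B ≤ K := Nat.le_ceil B
  have hKB' : (K : ℝ) < B + 1 := Nat.ceil_lt_add_one hB0.le
  have ha : 0 < γ - 1 := by linarith
  have h1 : ∑ t ∈ range N, g γ B t ≤ ∑ t ∈ range (max N K + 1), g γ B t :=
    sum_le_sum_of_subset_of_nonneg (range_subset_range.mpr (by omega))
      fun t _ _ => g_nonneg γ hB0.le t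
  have h2 := sum_tail hγ hγ2 hB K hK1 (max N K) (le_max_right _ _)
  have hBγ : 0 ≤ B ^ γ := Real.rpow_nonneg hB0.le γ
  have h3 : (K : ℝ) ^ (1 - γ) ≤ B ^ (1 - γ) :=
    Real.rpow_le_rpow_of_nonpos hB0 hKB (by linarith)
  have h4 : 0 ≤ ((max N K : ℕ) : ℝ) ^ (1 - γ) := Real.rpow_nonneg (Nat.cast_nonneg _) _
  have h5 : B ^ γ * B ^ (1 - γ) = B := by
    rw [← Real.rpow_add hB0]; simp
  have h6 : B ^ γ * ((K : ℝ) ^ (1 - γ) - ((max N K : ℕ) : ℝ) ^ (1 - γ)) ≤ B := by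
    calc B ^ γ * ((K : ℝ) ^ (1 - γ) - ((max N K : ℕ) : ℝ) ^ (1 - γ)) ≤ B ^ γ * B ^ (1 - γ) :=
          mul_le_mul_of_nonneg_left (by linarith) hBγ
      _ = B := h5
  have h7 := div_le_div_of_nonneg_right h6 ha.le
  have e : (1 + 1 / (γ - 1)) * B + 2 = B + 2 + B / (γ - 1) := by ring
  rw [e]; linarith

end LT0x

open LT0x in
theorem p_LT0 :
    S_LT0 := by
  intro Ω _ P _ J γ hJ hJi hγ hγ2
  have hγ0 : 0 ≤ γ := by linarith
  set B : Ω → ℝ := fun ω => max (-J ω) 0 + 1 with hBdef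
  have hB1 : ∀ ω, 1 ≤ B ω := fun ω => by
    have := le_max_right (-J ω) 0
    simp only [hBdef]; linarith
  have hB0 : ∀ ω, 0 ≤ B ω := fun ω => le_trans zero_le_one (hB1 ω)
  have hBm : Measurable B := (hJ.neg.max measurable_const).add_const 1
  have hBi : Integrable B P := (hJi.neg.pos_part).add (integrable_const 1)
  have hgm : ∀ t : ℕ, Measurable fun ω => g γ (B ω) t := fun t => by
    unfold g
    exact (measurable_const.min (hBm.div_const _)).pow_const γ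
  have hgi : ∀ t : ℕ, Integrable (fun ω => g γ (B ω) t) P := fun t =>
    (integrable_const (1 : ℝ)).mono' (hgm t).aestronglyMeasurable (ae_of_all _ fun ω => by
      rw [Real.norm_eq_abs, abs_of_nonneg (g_nonneg γ (hB0 ω) t)]
      exact g_le_one hγ0 (hB0 ω) t)
  refine ⟨fun t => ∫ ω, g γ (B ω) t ∂P, ⟨hγ0, ?_, ?_, ?_, ?_, ?_⟩, ?_⟩
  · intro t ht
    have h1 : ∫ _ω, g γ 1 t ∂P ≤ ∫ ω, g γ (B ω) t ∂P :=
      integral_mono (integrable_const _) (hgi t) fun ω => g_lower hγ0 (hB1 ω) t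
    have h2 : ∫ _ω, g γ 1 t ∂P = g γ 1 t := by simp
    have := g_one_pos γ ht
    linarith
  · refine summable_of_sum_range_le
      (c := ∫ ω, ((1 + 1 / (γ - 1)) * B ω + 2) ∂P)
      (fun t => integral_nonneg fun ω => g_nonneg γ (hB0 ω) t) fun N => ?_
    rw [← integral_finset_sum _ fun t _ => hgi t]
    exact integral_mono (integrable_finset_sum _ fun t _ => hgi t)
      ((hBi.const_mul _).add (integrable_const _)) fun ω => sum_le hγ hγ2 (hB1 ω) N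
  · intro t ht
    exact integral_mono (hgi _) (hgi _) fun ω => g_anti hγ0 (hB0 ω) ht
  · intro t ht
    rw [← integral_mul_const]
    exact integral_mono ((hgi _).mul_const _) (hgi _) fun ω => g_ratio hγ.le (hB0 ω) ht
  · intro t ht
    rw [← integral_const_mul]
    exact integral_mono (hgi _) ((hgi _).const_mul _) fun ω => g_double hγ0 hγ2 (hB0 ω) ht
  · intro y hy
    have hS : MeasurableSet {ω | J ω < -((y : ℝ) / 4)} := measurableSet_lt hJ measurable_const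
    rw [← integral_const_mul, ← integral_indicator_one hS]
    refine integral_mono ((integrable_const (1 : ℝ)).indicator hS) ((hgi _).const_mul _) fun ω => ?_
    by_cases h : ω ∈ {ω | J ω < -((y : ℝ) / 4)}
    · rw [Set.indicator_of_mem h]
      refine g_quarter hγ0 hγ2 hy ?_
      have h1 : J ω < -((y : ℝ) / 4) := h
      have h2 := le_max_left (-J ω) 0
      simp only [hBdef]; linarith
    · rw [Set.indicator_of_notMem h]
      exact mul_nonneg (by norm_num) (g_nonneg γ (hB0 ω) y)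

end Pool.Agent.P.MP_c7fa75_pr.T
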