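import Pool.Agent.P.MP_c7fa75_pr.T.Iface

/-! Step LT1. -/

set_option autoImplicit false

namespace Pool.Agent.P.MP_c7fa75_pr.T

open MeasureTheory ProbabilityTheory Filter Topology Finset
open scoped ENNReal Classical

namespace LT1x

/-- the main term -/
noncomputable def F (t : ℕ) (x : ℝ) : ℝ :=
  if -(t : ℝ) ≤ x then t * (Real.exp (-(1 / (t : ℝ) * x)) - 1) else -t

/-- the tail term -/
noncomputable def G (t : ℕ) (x : ℝ) : ℝ := if -(t : ℝ) ≤ x then 0 else t

theorem meas_F (t : ℕ) : Measurable (F t) :=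
  Measurable.ite measurableSet_Ici (by fun_prop) measurable_const

theorem meas_G (t : ℕ) : Measurable (G t) :=
  Measurable.ite measurableSet_Ici measurable_const measurable_const

theorem F_le (t : ℕ) (x : ℝ) : |F t x| ≤ 2 * |x| := by
  unfold F
  have t0 : (0 : ℝ) ≤ t := Nat.cast_nonneg t
  split_ifs with h
  · rcases t0.eq_or_lt with h0 | h0
    · rw [← h0]
      simp
    have e : |x| = t * |-(1 / (t : ℝ) * x)| := by
      rw [abs_neg, abs_mul, abs_of_pos (one_div_pos.mpr h0)]
      field_simp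
    rw [abs_mul, abs_of_pos h0, e, mul_left_comm]
    refine mul_le_mul_of_nonneg_left ?_ t0
    rcases le_total 0 x with hx | hx
    · have h1 : -(1 / (t : ℝ) * x) ≤ 0 := neg_nonpos.mpr (by positivity)
      have h2 := Real.add_one_le_exp (-(1 / (t : ℝ) * x))
      have h3 := Real.exp_le_one_iff.mpr h1
      rw [abs_of_nonpos h1, abs_of_nonpos (by linarith)]
      linarith
    · refine Real.abs_exp_sub_one_le (le_of_mul_le_mul_left ?_ h0)
      rw [← e, abs_of_nonpos hx]
      linarith
  · rw [abs_neg, abs_of_nonneg t0, abs_of_nonpos (by linarith)]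
    linarith

theorem G_le (t : ℕ) (x : ℝ) : |G t x| ≤ 2 * |x| := by
  unfold G
  have t0 : (0 : ℝ) ≤ t := Nat.cast_nonneg t
  split_ifs with h
  · simp
  · rw [abs_of_nonneg t0, abs_of_nonpos (by linarith)]
    linarith

theorem ev (x : ℝ) : ∀ᶠ t : ℕ in atTop, |x| < t :=
  tendsto_natCast_atTop_atTop.eventually_gt_atTop _

theorem G_lim (x : ℝ) : Tendsto (fun t => G t x) atTop (𝓝 0) := by
  refine tendsto_const_nhds.congr' ?_
  filter_upwards [ev x] with t ht
  rw [G, if_pos (by linarith [neg_abs_le x])]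

theorem F_lim (x : ℝ) : Tendsto (fun t => F t x) atTop (𝓝 (-x)) := by
  rw [tendsto_iff_norm_sub_tendsto_zero]
  refine squeeze_zero' (Eventually.of_forall fun _ => norm_nonneg _) ?_
    (tendsto_const_div_atTop_nhds_zero_nat (x ^ 2))
  filter_upwards [ev x] with t ht
  have h0 : (0 : ℝ) < t := (abs_nonneg x).trans_lt ht
  have h1 : |-(1 / (t : ℝ) * x)| ≤ 1 := by
    rw [abs_neg, abs_mul, abs_of_pos (one_div_pos.mpr h0), one_div, inv_mul_le_iff₀ h0]
    linarith
  have h2 := Real.abs_exp_sub_one_sub_id_le h1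
  rw [F, if_pos (by linarith [neg_abs_le x]), Real.norm_eq_abs]
  have e : t * (Real.exp (-(1 / (t : ℝ) * x)) - 1) - -x
      = t * (Real.exp (-(1 / (t : ℝ) * x)) - 1 - -(1 / (t : ℝ) * x)) := by
    field_simp
  rw [e, abs_mul, abs_of_pos h0]
  refine (mul_le_mul_of_nonneg_left h2 h0.le).trans (le_of_eq ?_)
  field_simp

theorem qexp {t : ℕ} (ht : 1 ≤ t) : qq (t + 1) * Real.exp (1 / (4 * t)) ≤ qq (4 * t) := by
  have h0 : (1 : ℝ) ≤ t := by exact_mod_cast ht
  have h1 := Real.add_one_le_exp (-(1 / (4 * (t : ℝ))))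
  have h2 : Real.exp (-(1 / (4 * (t : ℝ)))) * Real.exp (1 / (4 * t)) = 1 := by
    rw [← Real.exp_add, neg_add_cancel, Real.exp_zero]
  have h3 := Real.exp_pos (1 / (4 * (t : ℝ)))
  have h4 : 1 / (2 * (t : ℝ)) ≤ 1 / (t + 1) := one_div_le_one_div_of_le (by linarith) (by linarith)
  have h5 : 1 / (2 * (t : ℝ)) = 2 * (1 / (4 * t)) := by
    field_simp
    norm_num
  have h6 : 1 / (4 * (t : ℝ)) ≤ 1 := by
    rw [div_le_one (by linarith)]
    linarith
  unfold qq
  push_cast
  generalize 1 / (4 * (t : ℝ)) = u at *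
  have h7 : (1 - u) * Real.exp u ≤ 1 := by nlinarith
  have h8 : 1 - 1 / ((t : ℝ) + 1) ≤ (1 - u) * (1 - u) := by nlinarith [sq_nonneg u]
  calc (1 - 1 / ((t : ℝ) + 1)) * Real.exp u ≤ (1 - u) * (1 - u) * Real.exp u :=
        mul_le_mul_of_nonneg_right h8 h3.le
    _ = (1 - u) * ((1 - u) * Real.exp u) := by ring
    _ ≤ (1 - u) * 1 := mul_le_mul_of_nonneg_left h7 (by linarith)
    _ = 1 - u := mul_one _

theorem ptw {t : ℕ} (ht : 1 ≤ t) (y : ℕ) (x : ℝ) :
    min 1 (qq (t + 1) ^ y * Real.exp (-(1 / (t : ℝ) * x))) ≤ qq (t + 1) ^ y * (1 + F t x / t)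
      + qq (4 * t) ^ y / t * G t x + if x < -((y : ℝ) / 4) then 1 else 0 := by
  have h0 : (0 : ℝ) < t := by exact_mod_cast ht
  have h1 : (0 : ℝ) ≤ if x < -((y : ℝ) / 4) then 1 else 0 := by split_ifs <;> norm_num
  have h2 := pow_nonneg (qq_nonneg (4 * t)) y
  unfold F G
  by_cases h : -(t : ℝ) ≤ x
  · rw [if_pos h, if_pos h, mul_div_cancel_left₀ _ h0.ne']
    refine (min_le_right _ _).trans ?_
    linarith
  · rw [if_neg h, if_neg h, neg_div, div_self h0.ne', div_mul_cancel₀ _ h0.ne']
    split_ifs with h3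
    · linarith [min_le_left 1 (qq (t + 1) ^ y * Real.exp (-(1 / (t : ℝ) * x)))]
    · refine (min_le_right _ _).trans ?_
      have h4 : Real.exp (-(1 / (t : ℝ) * x)) ≤ Real.exp (1 / (4 * t)) ^ y := by
        rw [← Real.exp_nat_mul, Real.exp_le_exp]
        have : (y : ℝ) * (1 / (4 * t)) = 1 / t * (y / 4) := by field_simp
        rw [this, ← mul_neg]
        exact mul_le_mul_of_nonneg_left (by linarith) (by positivity)
      have h5 := mul_le_mul_of_nonneg_left h4 (pow_nonneg (qq_nonneg (t + 1)) y)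
      rw [← mul_pow] at h5
      have h6 := pow_le_pow_left₀ (mul_nonneg (qq_nonneg _) (Real.exp_pos _).le) (qexp ht) y
      linarith

end LT1x

open LT1x in
theorem p_LT1 :
    S_LT1 := by
  intro Ω _ P _ J a β hm hi ha hβ
  have hb : Integrable (fun ω => 2 * |J ω|) P := hi.abs.const_mul 2
  have mF : ∀ t, AEStronglyMeasurable (fun ω => F t (J ω)) P := fun t =>
    ((meas_F t).comp hm).aestronglyMeasurable
  have mG : ∀ t, AEStronglyMeasurable (fun ω => G t (J ω)) P := fun t =>
    ((meas_G t).comp hm).aestronglyMeasurable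
  have iF : ∀ t, Integrable (fun ω => F t (J ω)) P := fun t =>
    hb.mono' (mF t) (Eventually.of_forall fun ω => F_le t _)
  have iG : ∀ t, Integrable (fun ω => G t (J ω)) P := fun t =>
    hb.mono' (mG t) (Eventually.of_forall fun ω => G_le t _)
  have lF := tendsto_integral_of_dominated_convergence _ mF hb
    (fun t => Eventually.of_forall fun ω => F_le t _) (Eventually.of_forall fun ω => F_lim (J ω))
  have lG := tendsto_integral_of_dominated_convergence _ mG hb
    (fun t => Eventually.of_forall fun ω => G_le t _) (Eventually.of_forall fun ω => G_lim (J ω))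
  rw [integral_neg] at lF
  rw [integral_zero] at lG
  obtain ⟨t0, h0⟩ := eventually_atTop.mp ((lF.eventually_lt_const (neg_lt_neg ha)).and
    ((lG.eventually_lt_const hβ).and (eventually_ge_atTop 1)))
  refine ⟨t0, fun t ht y => ?_⟩
  obtain ⟨h1, h2, h3⟩ := h0 t ht
  have tp : (0 : ℝ) < t := by exact_mod_cast h3
  have ms : MeasurableSet {ω | J ω < -((y : ℝ) / 4)} := measurableSet_lt hm measurable_const
  have i1 : Integrable (fun ω => qq (t + 1) ^ y * (1 + F t (J ω) / t)) P :=
    ((integrable_const 1).add ((iF t).div_const _)).const_mul _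
  have i2 : Integrable (fun ω => qq (4 * t) ^ y / t * G t (J ω)) P := (iG t).const_mul _
  have i3 : Integrable ({ω | J ω < -((y : ℝ) / 4)}.indicator fun _ => (1 : ℝ)) P :=
    (integrable_const 1).indicator ms
  refine (integral_mono_of_nonneg (Eventually.of_forall fun ω => ?_) ((i1.add i2).add i3)
    (Eventually.of_forall fun ω => ?_)).trans ?_
  · exact le_min zero_le_one (mul_nonneg (pow_nonneg (qq_nonneg _) _) (Real.exp_pos _).le)
  · simpa only [Pi.add_apply, Set.indicator_apply, Set.mem_ofPred_eq] using ptw h3 y (J ω)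
  · rw [integral_add' (i1.add i2) i3, integral_add' i1 i2, integral_const_mul, integral_const_mul,
      integral_add (integrable_const 1) ((iF t).div_const _), integral_div, integral_indicator ms]
    simp only [integral_const, probReal_univ, smul_eq_mul, mul_one, MeasurableSet.univ,
      measureReal_restrict_apply, Set.univ_inter]
    have k1 : 1 + (∫ ω, F t (J ω) ∂P) / t ≤ 1 - a / t := by
      have := div_le_div_of_nonneg_right h1.le tp.le
      rw [neg_div] at this
      linarith
    have k2 := mul_le_mul_of_nonneg_left k1 (pow_nonneg (qq_nonneg (t + 1)) y)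
    have k3 := mul_le_mul_of_nonneg_left h2.le
      (div_nonneg (pow_nonneg (qq_nonneg (4 * t)) y) tp.le)
    have k4 : qq (4 * t) ^ y / t * β = β / t * qq (4 * t) ^ y := by ring
    linarith

end Pool.Agent.P.MP_c7fa75_pr.T
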