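import Pool.Agent.P.MP_c7fa75_pr.T.Iface

/-! Step LT2. -/

set_option autoImplicit false

namespace Pool.Agent.P.MP_c7fa75_pr.T

open MeasureTheory ProbabilityTheory Filter Topology Finset
open scoped ENNReal Classical

namespace LT2x

theorem pow_le0 (s : ℕ) {x : ℝ} (h0 : 0 ≤ x) (h1 : x ≤ 1) :
    (1 + x) ^ s ≤ 1 + s * x + 4 ^ s * x ^ 2 := by
  induction s with
  | zero => simp; positivity
  | succ s ih =>
    have hs : (s : ℝ) ≤ 4 ^ s := by exact_mod_cast (Nat.lt_pow_self (by norm_num : 1 < 4)).le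
    have h4 : (0 : ℝ) ≤ 4 ^ s := by positivity
    have hx : 0 ≤ x ^ 2 := by positivity
    calc (1 + x) ^ (s + 1) = (1 + x) ^ s * (1 + x) := pow_succ _ _
      _ ≤ (1 + s * x + 4 ^ s * x ^ 2) * (1 + x) := by gcongr
      _ ≤ _ := by
        push_cast
        rw [pow_succ (4 : ℝ) s]
        nlinarith [mul_le_mul_of_nonneg_right hs hx,
          mul_le_mul_of_nonneg_left h1 (mul_nonneg h4 hx), mul_nonneg h4 hx]

theorem main {s y t : ℕ} {γ η a b : ℝ} (ht : 1 ≤ t) (hγ : 0 ≤ γ) (hη : 0 < η) (ha : 0 ≤ a)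
    (h1 : a * (1 - γ / t) ≤ b) (h2 : 4 ^ s / η ≤ t) (h3 : s + γ + 2 * η ≤ t) :
    a * (qq (t + 1) ^ y * (1 - (s + γ + 2 * η) / t)) ≤
      b * qq (t + 1) ^ (y + s) - η * (a / t * qq (t + 1) ^ (y + s)) := by
  have t1 : (1 : ℝ) ≤ t := by exact_mod_cast ht
  have t0 : (0 : ℝ) < t := by linarith
  set x : ℝ := 1 / t with hx
  have x0 : 0 < x := by positivity
  have x1 : x ≤ 1 := by rw [hx, div_le_one t0]; exact t1
  have xt : x * t = 1 := by rw [hx]; field_simp
  have hQ : 0 ≤ qq (t + 1) ^ (y + s) := pow_nonneg (qq_nonneg _) _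
  have e : qq (t + 1) ^ y = qq (t + 1) ^ (y + s) * (1 + x) ^ s := by
    rw [pow_add, mul_assoc, ← mul_pow, ← qq_succ ht, ← hx, inv_mul_cancel₀ (by positivity),
      one_pow, mul_one]
  have d : ∀ u : ℝ, u / t = u * x := fun u => by rw [hx]; ring
  have h4 : 4 ^ s * x ≤ η := by
    rw [div_le_iff₀ hη] at h2
    nlinarith
  have h5 : (1 + x) ^ s ≤ 1 + (s + η) * x := by
    have := pow_le0 s x0.le x1
    nlinarith
  have h6 : 0 ≤ 1 - (s + γ + 2 * η) * x := by nlinarith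
  have s0 : (0 : ℝ) ≤ s := Nat.cast_nonneg s
  have h7 : (1 + x) ^ s * (1 - (s + γ + 2 * η) * x) ≤ 1 - γ * x - η * x := by
    refine (mul_le_mul_of_nonneg_right h5 h6).trans ?_
    have : 0 ≤ (s + η) * x * ((s + γ + 2 * η) * x) := by positivity
    nlinarith
  rw [d] at h1
  rw [e, d, d]
  set Q := qq (t + 1) ^ (y + s)
  have h8 := mul_le_mul_of_nonneg_left h7 (mul_nonneg ha hQ)
  have h9 := mul_le_mul_of_nonneg_right h1 hQ
  nlinarith

theorem anti {c : ℕ → ℝ} (h : ∀ t, 1 ≤ t → c (t + 1) ≤ c t) {a b : ℕ} (ha : 1 ≤ a)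
    (hab : a ≤ b) : c b ≤ c a := by
  induction b, hab using Nat.le_induction with
  | base => exact le_rfl
  | succ b hb ih => exact (h b (ha.trans hb)).trans ih

theorem loss1 {s y t : ℕ} {a b : ℝ} (ht : 1 ≤ t) (hb : 0 ≤ b) (h : a ≤ 16 * b) :
    a * (1 / t * qq (4 * t) ^ y) ≤
      64 * 2 ^ s * (b / ((4 * t : ℕ) : ℝ) * qq (4 * t + 1) ^ (y + s)) := by
  have t1 : (1 : ℝ) ≤ t := by exact_mod_cast ht
  have q0 := qq_nonneg (4 * t)
  have q1 : qq (4 * t) ≤ qq (4 * t + 1) := qq_mono (by omega) (by omega)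
  have q2 : 1 ≤ 2 * qq (4 * t + 1) := by
    have : qq 2 ≤ qq (4 * t + 1) := qq_mono (by omega) (by omega)
    have e : qq 2 = 1 / 2 := by unfold qq; norm_num
    linarith
  have h1 : qq (4 * t) ^ y ≤ 2 ^ s * qq (4 * t + 1) ^ (y + s) := by
    have : qq (4 * t) ^ y * 1 ≤ qq (4 * t + 1) ^ y * (2 * qq (4 * t + 1)) ^ s :=
      mul_le_mul (pow_le_pow_left₀ q0 q1 y) (one_le_pow₀ q2) zero_le_one
        (pow_nonneg (qq_nonneg _) _)
    rw [mul_pow] at this
    rw [pow_add]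
    linarith
  calc a * (1 / t * qq (4 * t) ^ y) ≤ 16 * b * (1 / t * (2 ^ s * qq (4 * t + 1) ^ (y + s))) :=
        (mul_le_mul_of_nonneg_right h (by positivity)).trans (by gcongr)
    _ = _ := by push_cast; field_simp; ring

theorem half {z t : ℕ} (h : 2 * z ≤ t) : 1 / 2 ≤ qq (t + 1) ^ z := by
  have h1 : (0 : ℝ) < (t + 1 : ℕ) := by positivity
  have h2 : (2 * z : ℝ) ≤ (t + 1 : ℕ) := by exact_mod_cast h.trans (Nat.le_succ t)
  have h3 : (1 : ℝ) / (t + 1 : ℕ) ≤ 1 := by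
    rw [div_le_one h1]; exact_mod_cast Nat.succ_le_succ (Nat.zero_le t)
  have h4 := one_add_mul_le_pow (a := -(1 / ((t + 1 : ℕ) : ℝ))) (by linarith) z
  have h5 : z * (1 / ((t + 1 : ℕ) : ℝ)) ≤ 1 / 2 := by
    rw [mul_one_div, div_le_iff₀ h1]; linarith
  unfold qq
  rw [sub_eq_add_neg]
  linarith

end LT2x

open LT2x in
theorem p_LT2 : S_LT2 := by
  intro r y0 γ η c ν hr hη ⟨hγ, hc, hs, ha, hw, hd⟩ hν H
  obtain ⟨s, rfl⟩ : ∃ s, r = s + 1 := ⟨r - 1, by omega⟩
  obtain ⟨t1, H⟩ := H (η / (128 * 2 ^ s)) (by positivity)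
  obtain ⟨t2, h2⟩ := eventually_atTop.1
    ((tendsto_sum_nat_add c).eventually (ge_mem_nhds (show 0 < η / 8192 by positivity)))
  obtain ⟨t3, h3⟩ := exists_nat_ge (4 ^ s / η)
  obtain ⟨t4, h4⟩ := exists_nat_ge (s + γ + 2 * η)
  obtain ⟨t0, e0⟩ : ∃ t0, t0 = t1 + t2 + t3 + t4 + 2 := ⟨_, rfl⟩
  have c0 : ∀ n, 0 < c (n + t0) := fun n => hc _ (by omega)
  have hs0 : Summable fun n => c (n + t0) := (summable_nat_add_iff t0).2 hs
  have qb : ∀ t z : ℕ, 0 ≤ qq t ^ z ∧ qq t ^ z ≤ 1 := fun t z =>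
    ⟨pow_nonneg (qq_nonneg t) z, pow_le_one₀ (qq_nonneg t) (qq_le_one t)⟩
  have sm : ∀ g : ℕ → ℝ, (∀ n, 0 ≤ g n ∧ g n ≤ 1) → Summable fun n => c (n + t0) * g n :=
    fun g hg => Summable.of_nonneg_of_le (fun n => mul_nonneg (c0 n).le (hg n).1)
      (fun n => mul_le_of_le_one_right (c0 n).le (hg n).2) hs0
  obtain ⟨f0, hf⟩ : ∃ f0 : ℕ → ℝ, ∀ z, f0 z = ∑' n, c (n + t0) * qq (n + t0) ^ z :=
    ⟨_, fun _ => rfl⟩
  have sf : ∀ z, Summable fun n => c (n + t0) * qq (n + t0) ^ z := fun z => sm _ fun n => qb _ z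
  have qp : 0 < qq t0 := by
    have : qq 2 ≤ qq t0 := qq_mono (by omega) (by omega)
    have e : qq 2 = 1 / 2 := by unfold qq; norm_num
    linarith
  have p0 : ∀ z, 0 < c t0 * qq t0 ^ z := fun z => mul_pos (hc _ (by omega)) (pow_pos qp z)
  have sp : ∀ z, f0 z = c t0 * qq t0 ^ z + ∑' n, c (n + t0 + 1) * qq (n + t0 + 1) ^ z := by
    intro z
    rw [hf, (sf z).tsum_eq_zero_add, zero_add]
    congr 2
    ext n
    rw [Nat.add_right_comm]
  have fp : ∀ z, 0 < f0 z := fun z => by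
    rw [sp]
    exact add_pos_of_pos_of_nonneg (p0 z)
      (tsum_nonneg fun n => mul_nonneg (hc _ (by omega)).le (qb _ _).1)
  have fa : Antitone f0 := fun u v h => by
    rw [hf, hf]
    exact (sf v).tsum_le_tsum (fun n => mul_le_mul_of_nonneg_left
      (pow_le_pow_of_le_one (qq_nonneg _) (qq_le_one _) h) (c0 n).le) (sf u)
  have ft : Tendsto f0 atTop (𝓝 0) := by
    have := tendsto_tsum_of_dominated_convergence (𝓕 := atTop)
      (f := fun z n => c (n + t0) * qq (n + t0) ^ z) (g := fun _ => (0 : ℝ)) hs0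
      (fun n => by
        simpa using (tendsto_pow_atTop_nhds_zero_of_lt_one (qq_nonneg (n + t0))
          (qq_lt_one (by omega))).const_mul (c (n + t0)))
      (Eventually.of_forall fun z n => by
        rw [Real.norm_of_nonneg (mul_nonneg (c0 n).le (qb _ _).1)]
        exact mul_le_of_le_one_right (c0 n).le (qb _ _).2)
    rw [tsum_zero] at this
    exact this.congr fun z => (hf z).symm
  have hN : ∀ z, ∃ M, f0 M ≤ c t0 * qq t0 ^ z := fun z =>
    (ft.eventually (ge_mem_nhds (p0 z))).exists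
  choose M hM using hN
  obtain ⟨z0, ez⟩ : ∃ z0, z0 = 2 * s + y0 + s + t0 + 1 := ⟨_, rfl⟩
  refine ⟨fun z => ENNReal.ofReal (f0 z / f0 z0), z0, fun z => M z + (z - s), by omega,
    fun z hz => ?_, ?_, fun z hz => ?_⟩
  · rw [ENNReal.one_le_ofReal, one_le_div (fp z0)]
    exact fa hz.le
  · simpa using ENNReal.tendsto_ofReal (ft.div_const (f0 z0))
  obtain ⟨y, rfl⟩ : ∃ y, z = y + s := ⟨z - s, by omega⟩
  have ey : y + s + 1 - (s + 1) = y := by omega
  beta_reduce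
  rw [ey, Nat.add_sub_cancel]
  set z := y + s with hzz
  set μ := ν y (M z + y)
  haveI : IsProbabilityMeasure μ := hν _ _
  have ib : ∀ (g : ℕ → ℝ) (B : ℝ), (∀ u, |g u| ≤ B) → Integrable g μ := fun g B hg =>
    Integrable.of_bound (Measurable.of_discrete).aestronglyMeasurable B (ae_of_all _ hg)
  have i0 : Integrable f0 μ := ib _ (f0 0) fun u => by
    rw [abs_of_pos (fp u)]; exact fa (Nat.zero_le u)
  rw [← ofReal_integral_eq_lintegral_ofReal (i0.div_const _)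
    (ae_of_all _ fun u => (div_pos (fp u) (fp z0)).le), integral_div]
  refine ENNReal.ofReal_le_ofReal (div_le_div_of_nonneg_right ?_ (fp z0).le)
  have iq : ∀ t, Integrable (fun u => qq t ^ u) μ := fun t => ib _ 1 fun u => by
    rw [abs_of_nonneg (qb t u).1]; exact (qb t u).2
  have Ib : ∀ t, 0 ≤ ∫ u, qq t ^ u ∂μ ∧ ∫ u, qq t ^ u ∂μ ≤ 1 := fun t =>
    ⟨integral_nonneg fun u => (qb t u).1, by
      simpa using integral_mono (iq t) (integrable_const (1 : ℝ)) fun u => (qb t u).2⟩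
  have sI := sm (fun n => ∫ u, qq (n + t0) ^ u ∂μ) fun n => Ib _
  have e1 : ∫ u, f0 u ∂μ = ∑' n, c (n + t0) * ∫ u, qq (n + t0) ^ u ∂μ := by
    simp only [hf]
    rw [← integral_tsum_of_summable_integral_norm (fun n => (iq (n + t0)).const_mul _)]
    · simp only [integral_const_mul]
    · refine sI.congr fun n => ?_
      rw [← integral_const_mul]
      congr 1
      ext u
      rw [Real.norm_of_nonneg (mul_nonneg (c0 n).le (qb _ _).1)]
  have inv : ∀ n : ℕ, 0 ≤ 1 / ((n + t0 : ℕ) : ℝ) ∧ 1 / ((n + t0 : ℕ) : ℝ) ≤ 1 := fun n => by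
    have : (1 : ℝ) ≤ (n + t0 : ℕ) := by exact_mod_cast (by omega : 1 ≤ n + t0)
    exact ⟨by positivity, by rw [div_le_one (by linarith)]; exact this⟩
  have sm2 : ∀ g : ℕ → ℝ, (∀ n, 0 ≤ g n ∧ g n ≤ 1) →
      Summable fun n => c (n + t0) * (1 / ((n + t0 : ℕ) : ℝ) * g n) := fun g hg =>
    sm _ fun n => ⟨mul_nonneg (inv n).1 (hg n).1, mul_le_one₀ (inv n).2 (hg n).1 (hg n).2⟩
  obtain ⟨g, hg⟩ : ∃ g : ℕ → ℝ, ∀ t, g t = c t / t * qq (t + 1) ^ z := ⟨_, fun _ => rfl⟩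
  have g0 : ∀ n, 0 ≤ g (n + t0) := fun n => by
    rw [hg]; exact mul_nonneg (div_nonneg (c0 n).le (Nat.cast_nonneg _)) (qb _ _).1
  have sg : Summable fun n => g (n + t0) :=
    (sm2 (fun n => qq (n + t0 + 1) ^ z) fun n => qb _ _).congr fun n => by rw [hg]; ring
  set G := ∑' n, g (n + t0) with hG
  have G0 : 0 ≤ G := tsum_nonneg g0
  have s1 : Summable fun n => c (n + t0 + 1) * qq (n + t0 + 1) ^ z :=
    ((summable_nat_add_iff 1).2 (sf z)).congr fun n => by rw [Nat.add_right_comm]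
  have s2 := sm2 (fun n => qq (4 * (n + t0)) ^ y) fun n => qb _ _
  have L1 : ∑' n, c (n + t0) * (1 / ((n + t0 : ℕ) : ℝ) * qq (4 * (n + t0)) ^ y) ≤
      64 * 2 ^ s * G := by
    rw [hG, ← tsum_mul_left]
    refine Summable.tsum_le_tsum_of_inj (fun n => 4 * n + 3 * t0) (fun a b e => by
      simp only at e; omega) (fun n _ => mul_nonneg (by positivity) (g0 n)) (fun n => ?_) s2
      (sg.mul_left _)
    have e : 4 * n + 3 * t0 + t0 = 4 * (n + t0) := by omega
    simp only [e]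
    rw [hg]
    refine loss1 (by omega) (hc _ (by omega)).le ?_
    have a1 := hd (n + t0) (by omega)
    have a2 := hd (2 * (n + t0)) (by omega)
    rw [show 2 * (2 * (n + t0)) = 4 * (n + t0) by omega] at a2
    linarith
  have L2 : c y ≤ 256 * G := by
    have z1 : (0 : ℝ) < z := by exact_mod_cast (by omega : 0 < z)
    have a0 := hc (4 * z) (by omega)
    have b1 : ∑ n ∈ Ico (2 * z - t0) (4 * z - t0), g (n + t0) ≤ G :=
      sg.sum_le_tsum _ fun n _ => g0 n
    have b2 := card_nsmul_le_sum (Ico (2 * z - t0) (4 * z - t0)) (fun n => g (n + t0))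
      (c (4 * z) / (4 * z) * (1 / 2)) fun n hn => by
        rw [mem_Ico] at hn
        rw [hg]
        have n1 : (0 : ℝ) < (n + t0 : ℕ) := by exact_mod_cast (by omega : 0 < n + t0)
        have n2 : ((n + t0 : ℕ) : ℝ) ≤ 4 * z := by exact_mod_cast (by omega : n + t0 ≤ 4 * z)
        exact mul_le_mul (div_le_div₀ (c0 n).le (anti ha (by omega) (by omega)) n1 n2)
          (half (by omega)) (by norm_num) (div_nonneg (c0 n).le n1.le)
    rw [Nat.card_Ico, show 4 * z - t0 - (2 * z - t0) = 2 * z by omega, nsmul_eq_mul] at b2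
    have b3 : ((2 * z : ℕ) : ℝ) * (c (4 * z) / (4 * z) * (1 / 2)) = c (4 * z) / 4 := by
      push_cast; field_simp
    have a1 := hd y (by omega)
    have a2 : c (2 * y) ≤ c z := anti ha (by omega) (by omega)
    have a3 := hd z (by omega)
    have a4 := hd (2 * z) (by omega)
    rw [show 2 * (2 * z) = 4 * z by omega] at a4
    linarith
  have L3 := hM z
  have L4 : ∑' n, c (n + t0) ≤ η / 8192 := h2 t0 (by omega)
  have cy := hc y (by omega)
  have T := (((s1.hasSum.sub (sg.hasSum.mul_left η)).add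
    (s2.hasSum.mul_left (η / (128 * 2 ^ s)))).add (hs0.hasSum.mul_left (16 * c y))).add
    (sf (M z)).hasSum
  have le := hasSum_le (fun n => ?_) sI.hasSum T
  · rw [e1, sp z]
    rw [← hf, ← hG] at le
    have k1 := mul_le_mul_of_nonneg_left L1 (show 0 ≤ η / (128 * 2 ^ s) by positivity)
    have k2 : η / (128 * 2 ^ s) * (64 * 2 ^ s * G) = η * G / 2 := by field_simp; ring
    have k3 := mul_le_mul L2 L4 (tsum_nonneg fun n => (c0 n).le) (by positivity)
    nlinarith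
  have m := main (s := s) (y := y) (t := n + t0) (by omega) hγ hη (c0 n).le
    (hw (n + t0) (by omega)) (h3.trans (by exact_mod_cast (by omega : t3 ≤ n + t0)))
    (h4.trans (by exact_mod_cast (by omega : t4 ≤ n + t0)))
  have k := mul_le_mul_of_nonneg_left (H (n + t0) (by omega) y (by omega) (by omega) (M z + y))
    (c0 n).le
  rw [Nat.add_sub_cancel, show (((s + 1 : ℕ) : ℝ) - 1) = s by push_cast; ring] at k
  rw [← hzz, ← hg] at m
  have k' : η / (128 * 2 ^ s) / ((n + t0 : ℕ) : ℝ) =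
      η / (128 * 2 ^ s) * (1 / ((n + t0 : ℕ) : ℝ)) := by ring
  rw [k'] at k
  linarith

end Pool.Agent.P.MP_c7fa75_pr.T
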