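import Pool.Agent.P.MP_c7fa75_pr.T.Iface

/-! Step QU. -/

set_option autoImplicit false

namespace Pool.Agent.P.MP_c7fa75_pr.T

open MeasureTheory ProbabilityTheory Filter Topology Finset
open scoped ENNReal Classical

namespace QUx

theorem fac_pos {w : ℕ → ℝ} (hw : ∀ i, w i ∈ Set.Icc (0 : ℝ) 1) {l : ℝ} (h0 : 0 < l) (h1 : l < 1)
    (i : ℕ) : 0 < 1 - l * (2 * w i - 1) := by
  have := hw i
  nlinarith [this.1, this.2]

theorem mart_nonneg {w : ℕ → ℝ} (hw : ∀ i, w i ∈ Set.Icc (0 : ℝ) 1) {l : ℝ} (h0 : 0 < l) (h1 : l < 1)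
    (a : ℕ → Bool) (n : ℕ) : 0 ≤ mart w l a n := by
  unfold mart
  refine div_nonneg (mul_nonneg (pow_nonneg (by linarith) _) (pow_nonneg (by linarith) _)) ?_
  exact prod_nonneg fun i _ => (fac_pos hw h0 h1 i).le

theorem prod_le {w : ℕ → ℝ} (hw : ∀ i, w i ∈ Set.Icc (0 : ℝ) 1) {l : ℝ} (h0 : 0 < l) (h1 : l < 1)
    (n : ℕ) : ∏ i ∈ range n, (1 - l * (2 * w i - 1)) ≤ Real.exp (-(l * psum w n)) := by
  unfold psum
  rw [mul_sum, ← sum_neg_distrib, Real.exp_sum]
  refine prod_le_prod (fun i _ => (fac_pos hw h0 h1 i).le) fun i _ => ?_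
  linarith [Real.add_one_le_exp (-(l * (2 * w i - 1)))]

theorem point {w : ℕ → ℝ} (hw : ∀ i, w i ∈ Set.Icc (0 : ℝ) 1) {l : ℝ} (h0 : 0 < l) (h1 : l < 1)
    (y N : ℕ) {J : ℝ} (hJ : ∀ n, y ≤ n → J ≤ psum w n) (a : ℕ → Bool) :
    (1 - l) ^ Rr a (tau a y N) ≤
      ((1 + l)⁻¹) ^ y * Real.exp (-(l * J)) * mart w l a (tau a y N) + (1 - l) ^ (N - y) := by
  have hl : 0 ≤ 1 - l := by linarith
  have hm := mart_nonneg hw h0 h1 a (tau a y N)
  rcases tau_cases a y N with h | ⟨h, h'⟩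
  · have hp : 0 < ∏ i ∈ range (tau a y N), (1 - l * (2 * w i - 1)) :=
      prod_pos fun i _ => fac_pos hw h0 h1 i
    have h2 : ∏ i ∈ range (tau a y N), (1 - l * (2 * w i - 1)) ≤ Real.exp (-(l * J)) :=
      (prod_le hw h0 h1 _).trans (Real.exp_le_exp.2 (by nlinarith [hJ _ (le_tau h)]))
    have h3 : (1 - l) ^ Rr a (tau a y N) = ((1 + l)⁻¹) ^ y *
        (∏ i ∈ range (tau a y N), (1 - l * (2 * w i - 1))) * mart w l a (tau a y N) := by
      unfold mart
      rw [h, inv_pow]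
      have : (1 + l) ^ y ≠ 0 := by positivity
      field_simp
    have h4 : 0 ≤ ((1 + l)⁻¹) ^ y := by positivity
    rw [h3]
    exact le_add_of_le_of_nonneg
      (mul_le_mul_of_nonneg_right (mul_le_mul_of_nonneg_left h2 h4) hm) (pow_nonneg hl _)
  · refine le_add_of_nonneg_of_le (mul_nonneg (by positivity) hm) ?_
    refine pow_le_pow_of_le_one hl (by linarith) ?_
    rw [h]
    have := Rr_add_Ll a N
    omega

end QUx

theorem p_QU (hMART : S_MART) :
    S_QU := by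
  intro w hw l h0 h1 y N J hJ
  obtain ⟨hi, he⟩ := hMART w hw l h0 h1 y N
  haveI : IsProbabilityMeasure (lamU ℕ) := by
    unfold lamU
    infer_instance
  refine (integral_mono_of_nonneg (g := fun u => ((1 + l)⁻¹) ^ y * Real.exp (-(l * J)) *
      mart w l (arr w u) (tau (arr w u) y N) + (1 - l) ^ (N - y))
    (Eventually.of_forall fun u => pow_nonneg (by linarith) _)
    ((hi.const_mul _).add (integrable_const _))
    (Eventually.of_forall fun u => QUx.point hw h0 h1 y N hJ _)).trans (le_of_eq ?_)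
  rw [integral_add (hi.const_mul _) (integrable_const _), integral_const_mul, he]
  simp

end Pool.Agent.P.MP_c7fa75_pr.T
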