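import Pool.Agent.P.MP_c7fa75_pr.T.Iface

/-! Step USE. -/

set_option autoImplicit false

namespace Pool.Agent.P.MP_c7fa75_pr.T

open MeasureTheory ProbabilityTheory Filter Topology Finset
open scoped ENNReal Classical

namespace USEx

theorem card_succ (P : ℕ → Prop) [DecidablePred P] (t : ℕ) :
    ((range (t + 1)).filter P).card = ((range t).filter P).card + if P t then 1 else 0 := by
  rw [range_add_one, filter_insert]
  split_ifs with h
  · rw [card_insert_of_notMem (by simp)]
  · rfl

end USEx

theorem p_USE :
    S_USE := by
  intro a p k j hF hj hG x t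
  induction t with
  | zero => simp [vst, stp]
  | succ t ih =>
    have hv : vst (p j) x (t + 1) = vst (p j) x t + if p j t = x then 1 else 0 :=
      USEx.card_succ _ t
    have hs : ∀ b, stp (p j) x b (t + 1) = stp (p j) x b t +
        if p j t = x ∧ ((p j (t + 1) = p j t + 1) ↔ b = true) then 1 else 0 := fun b =>
      USEx.card_succ _ t
    rw [hv, hs, hs]
    by_cases e : p j t = x
    · have f := hF j hj hG t
      have i : idx p j t = off p j x + vst (p j) x t := by
        unfold idx cnt vst
        rw [e]
      rw [i, e] at f
      rw [if_pos e, ← add_assoc, Rr_succ, Ll_succ, ih.1, ih.2, e]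
      by_cases c : a x (off p j x + vst (p j) x t) = true
      · have d := f.mp c
        simp [c, d, add_assoc]
      · have d : ¬p j (t + 1) = x + 1 := fun h => c (f.mpr h)
        simp [c, d, add_assoc]
    · simp [e, ih.1, ih.2]

end Pool.Agent.P.MP_c7fa75_pr.T
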