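import Pool.Agent.P.MP_c7fa75_pr.T.TCYL
import Pool.Agent.P.MP_c7fa75_pr.T.TEXT
import Pool.Agent.P.MP_c7fa75_pr.T.TLAW
import Pool.Agent.P.MP_c7fa75_pr.T.TIDX
import Pool.Agent.P.MP_c7fa75_pr.T.TMEAS
import Pool.Agent.P.MP_c7fa75_pr.T.TARR
import Pool.Agent.P.MP_c7fa75_pr.T.TFLD
import Pool.Agent.P.MP_c7fa75_pr.T.TINF
import Pool.Agent.P.MP_c7fa75_pr.T.TMART
import Pool.Agent.P.MP_c7fa75_pr.T.TQU
import Pool.Agent.P.MP_c7fa75_pr.T.TQL
import Pool.Agent.P.MP_c7fa75_pr.T.TCH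
import Pool.Agent.P.MP_c7fa75_pr.T.TSUP
import Pool.Agent.P.MP_c7fa75_pr.T.TKILL
import Pool.Agent.P.MP_c7fa75_pr.T.TLT0
import Pool.Agent.P.MP_c7fa75_pr.T.TLT1
import Pool.Agent.P.MP_c7fa75_pr.T.TLT2
import Pool.Agent.P.MP_c7fa75_pr.T.TLR0
import Pool.Agent.P.MP_c7fa75_pr.T.TLR1
import Pool.Agent.P.MP_c7fa75_pr.T.TLR2
import Pool.Agent.P.MP_c7fa75_pr.T.THT
import Pool.Agent.P.MP_c7fa75_pr.T.TKAP
import Pool.Agent.P.MP_c7fa75_pr.T.TRFL0
import Pool.Agent.P.MP_c7fa75_pr.T.THR1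
import Pool.Agent.P.MP_c7fa75_pr.T.THR2
import Pool.Agent.P.MP_c7fa75_pr.T.TKILLQ
import Pool.Agent.P.MP_c7fa75_pr.T.TSURVQ
import Pool.Agent.P.MP_c7fa75_pr.T.TFLOW
import Pool.Agent.P.MP_c7fa75_pr.T.TUSE
import Pool.Agent.P.MP_c7fa75_pr.T.TNET
import Pool.Agent.P.MP_c7fa75_pr.T.TDT
import Pool.Agent.P.MP_c7fa75_pr.T.TCE
import Pool.Agent.P.MP_c7fa75_pr.T.TRUN0
import Pool.Agent.P.MP_c7fa75_pr.T.TREFL
import Pool.Agent.P.MP_c7fa75_pr.T.TNOR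
import Pool.Agent.P.MP_c7fa75_pr.T.TNOL
import Pool.Agent.P.MP_c7fa75_pr.T.THALF
import Pool.Agent.P.MP_c7fa75_pr.T.TSRW
import Pool.Agent.P.MP_c7fa75_pr.T.TCORE
import Pool.Agent.P.MP_c7fa75_pr.T.TMain

/-! Assembly of all steps. -/

set_option autoImplicit false

namespace Pool.Agent.P.MP_c7fa75_pr.T

theorem all_CYL : S_CYL := p_CYL
theorem all_EXT : S_EXT := p_EXT
theorem all_LAW : S_LAW := p_LAW all_CYL all_EXT
theorem all_IDX : S_IDX := p_IDX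
theorem all_MEAS : S_MEAS := p_MEAS
theorem all_ARR : S_ARR := p_ARR all_IDX all_MEAS
theorem all_FLD : S_FLD := p_FLD all_ARR all_LAW
theorem all_INF : S_INF := p_INF all_CYL
theorem all_MART : S_MART := p_MART all_CYL
theorem all_QU : S_QU := p_QU all_MART
theorem all_QL : S_QL := p_QL all_MART
theorem all_CH : S_CH := p_CH
theorem all_SUP : S_SUP := p_SUP
theorem all_KILL : S_KILL := p_KILL
theorem all_LT0 : S_LT0 := p_LT0
theorem all_LT1 : S_LT1 := p_LT1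
theorem all_LT2 : S_LT2 := p_LT2
theorem all_LR0 : S_LR0 := p_LR0
theorem all_LR1 : S_LR1 := p_LR1 all_LR0
theorem all_LR2 : S_LR2 := p_LR2 all_LR1
theorem all_HT : S_HT := p_HT
theorem all_KAP : S_KAP := p_KAP
theorem all_RFL0 : S_RFL0 := p_RFL0
theorem all_HR1 : S_HR1 := p_HR1 all_HT all_KAP all_RFL0
theorem all_HR2 : S_HR2 := p_HR2
theorem all_KILLQ : S_KILLQ := p_KILLQ all_CYL all_INF all_QL all_CH all_KILL all_LR2
theorem all_SURVQ : S_SURVQ := p_SURVQ all_INF all_QU all_CH all_SUP all_LT0 all_LT1 all_LT2 all_HT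
theorem all_FLOW : S_FLOW := p_FLOW
theorem all_USE : S_USE := p_USE
theorem all_NET : S_NET := p_NET all_FLOW all_USE
theorem all_DT : S_DT := p_DT all_FLOW all_USE all_NET
theorem all_CE : S_CE := p_CE
theorem all_RUN0 : S_RUN0 := p_RUN0 all_CE
theorem all_REFL : S_REFL := p_REFL
theorem all_NOR : S_NOR := p_NOR all_FLD all_NET all_KILLQ
theorem all_NOL : S_NOL := p_NOL all_NOR all_REFL all_RFL0 all_HR1
theorem all_HALF : S_HALF := p_HALF all_NOR all_NOL all_HR1 all_FLOW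
theorem all_SRW : S_SRW := p_SRW all_CE all_MEAS all_HALF
theorem all_CORE : S_CORE := p_CORE all_RUN0 all_FLD all_DT all_FLOW all_SURVQ all_NOR all_NOL all_SRW all_HR1 all_HR2 all_RFL0
theorem all_Main : S_Main := p_Main all_CORE all_RFL0

end Pool.Agent.P.MP_c7fa75_pr.T
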