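import Pool.Agent.P.MP_c7fa75_pr.T.Defs

/-! Small library: counting arrows, stopping times, measurability. -/

set_option autoImplicit false

namespace Pool.Agent.P.MP_c7fa75_pr.T

open MeasureTheory ProbabilityTheory Filter Topology Finset
open scoped ENNReal Classical

/-! ### Counting -/

@[simp] theorem Rr_zero (a : ℕ → Bool) : Rr a 0 = 0 := rfl
@[simp] theorem Ll_zero (a : ℕ → Bool) : Ll a 0 = 0 := rfl
theorem Rr_succ (a : ℕ → Bool) (n : ℕ) : Rr a (n + 1) = Rr a n + if a n = true then 1 else 0 := by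
  unfold Rr
  rw [range_add_one, filter_insert]
  split_ifs with h
  · rw [card_insert_of_notMem (by simp)]
  · rfl
theorem Ll_succ (a : ℕ → Bool) (n : ℕ) : Ll a (n + 1) = Ll a n + if a n = true then 0 else 1 := by
  unfold Ll
  rw [range_add_one, filter_insert]
  cases h : a n
  · simp
  · simp
theorem Rr_add_Ll (a : ℕ → Bool) (n : ℕ) : Rr a n + Ll a n = n := by
  induction n with
  | zero => rfl
  | succ n ih => rw [Rr_succ, Ll_succ]; split_ifs <;> omega
theorem Rr_mono (a : ℕ → Bool) : Monotone (Rr a) :=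
  monotone_nat_of_le_succ fun n => by rw [Rr_succ]; omega
theorem Ll_mono (a : ℕ → Bool) : Monotone (Ll a) :=
  monotone_nat_of_le_succ fun n => by rw [Ll_succ]; omega
theorem Rr_congr {a a' : ℕ → Bool} {n : ℕ} (h : ∀ i, i < n → a i = a' i) : Rr a n = Rr a' n := by
  unfold Rr
  rw [filter_congr fun i hi => by rw [h i (mem_range.1 hi)]]
theorem Ll_congr {a a' : ℕ → Bool} {n : ℕ} (h : ∀ i, i < n → a i = a' i) : Ll a n = Ll a' n := by
  unfold Ll
  rw [filter_congr fun i hi => by rw [h i (mem_range.1 hi)]]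
theorem exists_Rr_ge {a : ℕ → Bool} (h : ∀ m, ∃ i, m ≤ i ∧ a i = true) (z : ℕ) :
    ∃ n, z ≤ Rr a n := by
  induction z with
  | zero => exact ⟨0, le_rfl⟩
  | succ z ih =>
    obtain ⟨n, hn⟩ := ih
    obtain ⟨i, hi, e⟩ := h n
    refine ⟨i + 1, ?_⟩
    have := Rr_mono a hi
    rw [Rr_succ, if_pos e]; omega
theorem exists_Ll_ge {a : ℕ → Bool} (h : ∀ m, ∃ i, m ≤ i ∧ a i = false) (z : ℕ) :
    ∃ n, z ≤ Ll a n := by
  induction z with
  | zero => exact ⟨0, le_rfl⟩
  | succ z ih =>
    obtain ⟨n, hn⟩ := ih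
    obtain ⟨i, hi, e⟩ := h n
    refine ⟨i + 1, ?_⟩
    have := Ll_mono a hi
    rw [Ll_succ, if_neg (by simp [e])]; omega

/-! ### The stopping time -/

theorem tau_succ (a : ℕ → Bool) (y N : ℕ) :
    tau a y (N + 1) = if Ll a N < y then N + 1 else tau a y N := rfl
theorem tau_le (a : ℕ → Bool) (y N : ℕ) : tau a y N ≤ N := by
  induction N with
  | zero => exact le_rfl
  | succ N ih => rw [tau_succ]; split_ifs <;> omega
theorem tau_congr {a a' : ℕ → Bool} (y : ℕ) {N : ℕ} (h : ∀ i, i < N → a i = a' i) :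
    tau a y N = tau a' y N := by
  induction N with
  | zero => rfl
  | succ N ih =>
    rw [tau_succ, tau_succ, Ll_congr fun i hi => h i (by omega), ih fun i hi => h i (by omega)]
theorem lt_tau {a : ℕ → Bool} {y N m : ℕ} (h : m < tau a y N) : Ll a m < y := by
  induction N with
  | zero => exact absurd h (Nat.not_lt_zero _)
  | succ N ih =>
    rw [tau_succ] at h
    split_ifs at h with h'
    · exact lt_of_le_of_lt (Ll_mono a (by omega)) h'
    · exact ih h
theorem tau_cases (a : ℕ → Bool) (y N : ℕ) :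
    Ll a (tau a y N) = y ∨ (tau a y N = N ∧ Ll a N < y) := by
  induction N with
  | zero => rcases Nat.eq_zero_or_pos y with h | h <;> simp [tau, h]
  | succ N ih =>
    rw [tau_succ]
    split_ifs with h
    · have := Ll_succ a N
      split_ifs at this <;> omega
    · exact Or.inl (ih.resolve_right fun h' => h h'.2)
theorem tau_of_lt {a : ℕ → Bool} {y N : ℕ} (h : Ll a N < y) : tau a y N = N := by
  rcases tau_cases a y N with e | e
  · have := Ll_mono a (tau_le a y N); omega
  · exact e.1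
theorem le_tau {a : ℕ → Bool} {y N : ℕ} (h : Ll a (tau a y N) = y) : y ≤ tau a y N := by
  have := Rr_add_Ll a (tau a y N); omega
theorem Uo_eq_of_tau {a : ℕ → Bool} {y N : ℕ} (h : Ll a (tau a y N) = y) :
    Uo a y = Rr a (tau a y N) := by
  have hex : ∃ n, y ≤ Ll a n := ⟨_, h.ge⟩
  rw [Uo, dif_pos hex]
  congr 1
  exact (Nat.find_eq_iff hex).2 ⟨h.ge, fun m hm => not_le.2 (lt_tau hm)⟩
theorem le_Uo {a : ℕ → Bool} {y n : ℕ} (hex : ∃ m, y ≤ Ll a m) (h : Ll a n < y) :
    Rr a n ≤ Uo a y := by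
  rw [Uo, dif_pos hex]
  refine Rr_mono a (le_of_not_gt fun h' => ?_)
  have := Ll_mono a h'.le
  have := Nat.find_spec hex
  omega
theorem Uo_le {a : ℕ → Bool} {y n : ℕ} (h : y ≤ Ll a n) : Uo a y ≤ Rr a n := by
  have hex : ∃ m, y ≤ Ll a m := ⟨n, h⟩
  rw [Uo, dif_pos hex]
  exact Rr_mono a (Nat.find_le h)
theorem exists_of_tau (a : ℕ → Bool) {y : ℕ} (hy : 1 ≤ y) (N : ℕ) :
    ∃ m, Ll a m < y ∧ Rr a m = Rr a (tau a y N) := by
  rcases h : tau a y N with _ | m
  · exact ⟨0, hy, rfl⟩
  · have h1 : Ll a m < y := lt_tau (N := N) (by omega)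
    by_cases e : a m = true
    · exact ⟨m + 1, by rw [Ll_succ, if_pos e]; exact h1, rfl⟩
    · exact ⟨m, h1, by rw [Rr_succ, if_neg e]; rfl⟩

/-! ### Elementary identities -/

theorem pr_true (w : ℝ) : pr w true = w := rfl
theorem pr_false (w : ℝ) : pr w false = 1 - w := rfl
theorem pr_mem {w : ℝ} (h : w ∈ Set.Icc (0 : ℝ) 1) (b : Bool) : pr w b ∈ Set.Icc (0 : ℝ) 1 := by
  cases b
  · exact ⟨by rw [pr_false]; linarith [h.2], by rw [pr_false]; linarith [h.1]⟩
  · exact h
theorem arr1_one (u : unitInterval) : arr1 1 u = true := by simp [arr1]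
theorem arr1_zero (u : unitInterval) : arr1 0 u = false := by simp [arr1, u.2.1]
theorem psum_succ (w : ℕ → ℝ) (n : ℕ) : psum w (n + 1) = psum w n + (2 * w n - 1) :=
  sum_range_succ _ _
theorem psum_rfl1 (w : ℕ → ℝ) (n : ℕ) : psum (rfl1 w) n = - psum w n := by
  simp only [psum, rfl1, ← sum_neg_distrib]
  exact sum_congr rfl fun i _ => by ring
theorem Vn_rfl1 (w : ℕ → ℝ) (n : ℕ) : Vn (rfl1 w) n = Vn w n := by
  simp only [Vn, rfl1]
  exact sum_congr rfl fun i _ => by ring
theorem sum_pr_true (w : ℕ → ℝ) (n : ℕ) : ∑ i ∈ range n, pr (w i) true = (n + psum w n) / 2 := by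
  induction n with
  | zero => simp [psum]
  | succ n ih => rw [sum_range_succ, ih, psum_succ, pr_true]; push_cast; ring
theorem sum_pr_false (w : ℕ → ℝ) (n : ℕ) : ∑ i ∈ range n, pr (w i) false = (n - psum w n) / 2 := by
  induction n with
  | zero => simp [psum]
  | succ n ih => rw [sum_range_succ, ih, psum_succ, pr_false]; push_cast; ring
theorem qq_succ {t : ℕ} (ht : 1 ≤ t) : (1 + 1 / (t : ℝ))⁻¹ = qq (t + 1) := by
  have : (0 : ℝ) < t := by exact_mod_cast ht
  unfold qq
  push_cast
  field_simp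
  ring
theorem qq_nonneg (t : ℕ) : 0 ≤ qq t := by
  unfold qq
  rcases Nat.eq_zero_or_pos t with rfl | h
  · simp
  · have : (1 : ℝ) ≤ t := by exact_mod_cast h
    rw [sub_nonneg, div_le_one (by linarith)]; exact this
theorem qq_le_one (t : ℕ) : qq t ≤ 1 := by
  unfold qq
  have : (0 : ℝ) ≤ 1 / t := by positivity
  linarith
theorem qq_lt_one {t : ℕ} (ht : 1 ≤ t) : qq t < 1 := by
  unfold qq
  have : (0 : ℝ) < t := by exact_mod_cast ht
  have : (0 : ℝ) < 1 / t := by positivity
  linarith
theorem qq_mono {s t : ℕ} (hs : 1 ≤ s) (h : s ≤ t) : qq s ≤ qq t := by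
  unfold qq
  have h1 : (0 : ℝ) < s := by exact_mod_cast hs
  have h2 : (s : ℝ) ≤ t := by exact_mod_cast h
  have := one_div_le_one_div_of_le h1 h2
  linarith

/-! ### Measurability -/

theorem meas_app {Θ α β : Type*} [MeasurableSpace Θ] [MeasurableSpace α] [Countable α]
    [MeasurableSingletonClass α] [MeasurableSpace β] {f : Θ → α} (hf : Measurable f)
    {g : Θ → α → β} (hg : ∀ a, Measurable (fun θ => g θ a)) : Measurable (fun θ => g θ (f θ)) := by
  have : Measurable (fun q : Θ × α => g q.1 q.2) := measurable_from_prod_countable_left hg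
  exact this.comp (measurable_id.prodMk hf)
theorem meas_psum (n : ℕ) : Measurable (fun w : ℕ → ℝ => psum w n) := by
  unfold psum; fun_prop
theorem meas_Vn (n : ℕ) : Measurable (fun w : ℕ → ℝ => Vn w n) := by
  unfold Vn; fun_prop
theorem meas_total : Measurable total :=
  Measurable.limsup fun n => measurable_coe_real_ereal.comp (meas_psum n)
theorem meas_osc (y : ℕ) : Measurable (fun w : ℕ → ℝ => osc w y) :=
  Measurable.iSup fun _ => Measurable.iSup fun _ =>
    ((meas_psum _).sub (meas_psum _)).abs.ennreal_ofReal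
theorem meas_rfl1 : Measurable rfl1 := by
  unfold rfl1; fun_prop
theorem meas_pr (b : Bool) : Measurable (fun w : ℝ => pr w b) := by
  cases b
  · exact measurable_const.sub measurable_id
  · exact measurable_id
theorem meas_arr1 {Θ : Type*} [MeasurableSpace Θ] {w : Θ → ℝ} {u : Θ → unitInterval}
    (hw : Measurable w) (hu : Measurable u) : Measurable (fun θ => arr1 (w θ) (u θ)) := by
  refine measurable_to_bool ?_
  have : (fun θ => arr1 (w θ) (u θ)) ⁻¹' {true} = {θ | (u θ : ℝ) < w θ} ∪ {θ | 1 ≤ w θ} := by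
    ext θ; simp [arr1]
  rw [this]
  exact (measurableSet_lt (measurable_subtype_coe.comp hu) hw).union
    (measurableSet_le measurable_const hw)
theorem meas_arr2 {ι : Type} :
    Measurable (fun p : (ι → ℝ) × (ι → unitInterval) => arr p.1 p.2) :=
  measurable_pi_lambda _ fun i => meas_arr1 ((measurable_pi_apply i).comp measurable_fst)
    ((measurable_pi_apply i).comp measurable_snd)
theorem meas_arr {ι : Type} (w : ι → ℝ) : Measurable (arr w) :=
  measurable_pi_lambda _ fun i => meas_arr1 measurable_const (measurable_pi_apply i)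
theorem meas_Rr (n : ℕ) : Measurable (fun a : ℕ → Bool => Rr a n) := by
  induction n with
  | zero => exact measurable_const
  | succ n ih =>
    simp only [Rr_succ]
    exact ih.add ((Measurable.of_discrete (f := fun b : Bool => if b = true then 1 else 0)).comp
      (measurable_pi_apply n))
theorem meas_Ll (n : ℕ) : Measurable (fun a : ℕ → Bool => Ll a n) := by
  induction n with
  | zero => exact measurable_const
  | succ n ih =>
    simp only [Ll_succ]
    exact ih.add ((Measurable.of_discrete (f := fun b : Bool => if b = true then 0 else 1)).comp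
      (measurable_pi_apply n))
theorem meas_tau (y N : ℕ) : Measurable (fun a : ℕ → Bool => tau a y N) := by
  induction N with
  | zero => exact measurable_const
  | succ N ih =>
    simp only [tau_succ]
    exact Measurable.ite (measurableSet_lt (meas_Ll N) measurable_const) measurable_const ih
theorem meas_Rr_tau (y N : ℕ) : Measurable (fun a : ℕ → Bool => Rr a (tau a y N)) :=
  meas_app (meas_tau y N) (g := fun a n => Rr a n) meas_Rr
theorem meas_Uo (y : ℕ) : Measurable (fun a : ℕ → Bool => Uo a y) := by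
  refine measurable_to_countable' fun v => ?_
  have : (fun a : ℕ → Bool => Uo a y) ⁻¹' {v} =
      (⋃ N : ℕ, {a | Ll a (tau a y N) = y} ∩ {a | Rr a (tau a y N) = v}) ∪
        ((⋂ n : ℕ, {a | Ll a n < y}) ∩ {_a | 0 = v}) := by
    ext a
    simp only [Set.mem_preimage, Set.mem_singleton_iff, Set.mem_union, Set.mem_iUnion,
      Set.mem_inter_iff, Set.mem_setOf_eq, Set.mem_iInter]
    by_cases h : ∃ n, y ≤ Ll a n
    · obtain ⟨n, hn⟩ := h
      have h1 : Ll a (tau a y n) = y := (tau_cases a y n).resolve_right fun h' => by omega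
      constructor
      · intro e
        exact Or.inl ⟨n, h1, (Uo_eq_of_tau h1).symm.trans e⟩
      · rintro (⟨N, e1, e2⟩ | ⟨e, _⟩)
        · exact (Uo_eq_of_tau e1).trans e2
        · exact absurd (e n) (by omega)
    · rw [Uo, dif_neg h]
      push Not at h
      constructor
      · exact fun e => Or.inr ⟨h, e⟩
      · rintro (⟨N, e1, _⟩ | ⟨_, e⟩)
        · exact absurd (h (tau a y N)) (by omega)
        · exact e
  rw [this]
  refine MeasurableSet.union (MeasurableSet.iUnion fun N => MeasurableSet.inter ?_ ?_)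
    (MeasurableSet.inter (MeasurableSet.iInter fun n =>
      measurableSet_lt (meas_Ll n) measurable_const) (MeasurableSet.const _))
  · exact measurableSet_eq_fun (meas_app (meas_tau y N) (g := fun a n => Ll a n) meas_Ll)
      measurable_const
  · exact measurableSet_eq_fun (meas_Rr_tau y N) measurable_const

instance (ι : Type) : IsProbabilityMeasure (lamU ι) := by unfold lamU; infer_instance
instance (P0 : Measure (ℕ → ℝ)) [IsProbabilityMeasure P0] : IsProbabilityMeasure (Qa P0) :=
  Measure.isProbabilityMeasure_map meas_arr2.aemeasurable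
instance (P0 : Measure (ℕ → ℝ)) [IsProbabilityMeasure P0] : IsProbabilityMeasure (Fld P0) := by
  unfold Fld; infer_instance

/-- Fubini for the law of one arrow stack. -/
theorem integral_Qa (P0 : Measure (ℕ → ℝ)) [IsProbabilityMeasure P0] {φ : (ℕ → Bool) → ℝ}
    (hφ : Measurable φ) (hb : ∀ a, |φ a| ≤ 1) :
    Integrable (fun w => ∫ u, φ (arr w u) ∂lamU ℕ) P0 ∧
      ∫ a, φ a ∂Qa P0 = ∫ w, ∫ u, φ (arr w u) ∂lamU ℕ ∂P0 := by
  have hi : Integrable (fun p : (ℕ → ℝ) × (ℕ → unitInterval) => φ (arr p.1 p.2))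
      (P0.prod (lamU ℕ)) :=
    Integrable.of_bound (hφ.comp meas_arr2).aestronglyMeasurable 1 (ae_of_all _ fun p => hb _)
  refine ⟨hi.integral_prod_left, ?_⟩
  rw [Qa, integral_map meas_arr2.aemeasurable hφ.aestronglyMeasurable, integral_prod _ hi]
theorem ae_Qa (P0 : Measure (ℕ → ℝ)) [IsProbabilityMeasure P0] {φ : (ℕ → Bool) → Prop}
    (hφ : MeasurableSet {a | φ a}) (h : ∀ᵐ w ∂P0, ∀ᵐ u ∂lamU ℕ, φ (arr w u)) :
    ∀ᵐ a ∂Qa P0, φ a := by
  rw [Qa, ae_map_iff meas_arr2.aemeasurable hφ]
  exact (Measure.ae_prod_iff_ae_ae (meas_arr2 hφ)).2 h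
theorem measSet_inf (b : Bool) : MeasurableSet {a : ℕ → Bool | ∀ m, ∃ i, m ≤ i ∧ a i = b} := by
  simp only [Set.setOf_forall, Set.setOf_exists, Set.setOf_and]
  exact MeasurableSet.iInter fun m => MeasurableSet.iUnion fun i =>
    (MeasurableSet.const _).inter (measurableSet_eq_fun (measurable_pi_apply i) measurable_const)
theorem fld_map (P0 : Measure (ℕ → ℝ)) [IsProbabilityMeasure P0] (x : ℤ) :
    (Fld P0).map (fun a => a x) = Qa P0 := by
  rw [Fld, Measure.infinitePi_map_eval]
theorem ae_fld (P0 : Measure (ℕ → ℝ)) [IsProbabilityMeasure P0] {φ : (ℕ → Bool) → Prop}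
    (h : ∀ᵐ a ∂Qa P0, φ a) : ∀ᵐ a ∂Fld P0, ∀ x, φ (a x) := by
  rw [ae_all_iff]
  intro x
  rw [← fld_map P0 x] at h
  exact ae_of_ae_map (measurable_pi_apply x).aemeasurable h
theorem fld_indep (P0 : Measure (ℕ → ℝ)) [IsProbabilityMeasure P0] :
    iIndepFun (fun (n : ℕ) (a : ℤ → ℕ → Bool) => a ((n : ℤ) + 1)) (Fld P0) := by
  have h : iIndepFun (fun (x : ℤ) (a : ℤ → ℕ → Bool) => a x) (Fld P0) :=
    iIndepFun_infinitePi (X := fun (_ : ℤ) (s : ℕ → Bool) => s) (fun _ => measurable_id)
  exact h.precomp (g := fun n : ℕ => (n : ℤ) + 1) fun a b e => by simpa using e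

section past
variable {Θ : Type} (W : Θ → ℤ → ℕ → ℝ) (X : ℕ → Θ → ℕ → ℤ) (j t : ℕ)

theorem past_W : Measurable[past W X j t] W :=
  measurable_fst.comp (comap_measurable
    (fun θ => (W θ, (fun i : Fin j => X (i : ℕ) θ), (fun m : Fin (t + 1) => X j θ (m : ℕ)))))
theorem past_X {i : ℕ} (hi : i < j) : Measurable[past W X j t] (X i) :=
  ((measurable_pi_apply (⟨i, hi⟩ : Fin j)).comp (measurable_fst.comp measurable_snd)).comp
    (comap_measurable
      (fun θ => (W θ, (fun i : Fin j => X (i : ℕ) θ), (fun m : Fin (t + 1) => X j θ (m : ℕ)))))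
theorem past_Xj {s : ℕ} (hs : s ≤ t) : Measurable[past W X j t] (fun θ => X j θ s) :=
  ((measurable_pi_apply (⟨s, Nat.lt_succ_of_le hs⟩ : Fin (t + 1))).comp
    (measurable_snd.comp measurable_snd)).comp (comap_measurable
      (fun θ => (W θ, (fun i : Fin j => X (i : ℕ) θ), (fun m : Fin (t + 1) => X j θ (m : ℕ)))))
/-- The past is the smallest sigma-algebra for which its data are measurable. -/
theorem past_le_of {m : MeasurableSpace Θ} (hW : Measurable[m] W)
    (hX : ∀ i, i < j → Measurable[m] (X i)) (hj : ∀ s, s ≤ t → Measurable[m] (fun θ => X j θ s)) :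
    past W X j t ≤ m :=
  Measurable.comap_le (hW.prodMk ((measurable_pi_lambda _ fun i : Fin j => hX i i.2).prodMk
    (measurable_pi_lambda _ fun s : Fin (t + 1) => hj s (Nat.le_of_lt_succ s.2))))
theorem past_le [m : MeasurableSpace Θ] (hW : Measurable W) (hX : ∀ i, Measurable (X i)) :
    past W X j t ≤ m :=
  past_le_of W X j t hW (fun i _ => hX i) fun s _ => (measurable_pi_apply s).comp (hX j)

end past

theorem Env.ae {Θ : Type} [MeasurableSpace Θ] {μ : Measure Θ} {W : Θ → ℤ → ℕ → ℝ}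
    {P0 : Measure (ℕ → ℝ)} (h : Env μ W P0) (hW : Measurable W) (h01 : In01 P0) :
    ∀ᵐ θ ∂μ, ∀ x n, W θ x n ∈ Set.Icc (0 : ℝ) 1 := by
  rw [ae_all_iff]
  intro x
  unfold In01 at h01
  rw [← h.2 x] at h01
  exact ae_of_ae_map ((measurable_pi_apply x).comp hW).aemeasurable h01

end Pool.Agent.P.MP_c7fa75_pr.T
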