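import Pool.Agent.P.MP_c7fa75_pr.CDefs

/-! Working definitions: arrows, walkers, chains. -/

set_option autoImplicit false

open MeasureTheory ProbabilityTheory Filter Topology Finset
open scoped ENNReal Classical

namespace Pool.Agent.P.MP_c7fa75_pr.T

/-! ### Stacks of cookies -/

def Vn (w : ℕ → ℝ) (n : ℕ) : ℝ := ∑ i ∈ range n, (2 * w i - 1) ^ 2

def In01 (P0 : Measure (ℕ → ℝ)) : Prop := ∀ᵐ w ∂P0, ∀ i, w i ∈ Set.Icc (0 : ℝ) 1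

def Lim (P0 : Measure (ℕ → ℝ)) : Prop :=
  ∀ᵐ w ∂P0, ∃ s : EReal, Tendsto (fun n : ℕ => (psum w n : EReal)) atTop (𝓝 s)

noncomputable def dp (P0 : Measure (ℕ → ℝ)) : ℝ≥0∞ := ∫⁻ w, (total w).toENNReal ∂P0

noncomputable def dm (P0 : Measure (ℕ → ℝ)) : ℝ≥0∞ := ∫⁻ w, (-(total w)).toENNReal ∂P0

def Hp (P0 : Measure (ℕ → ℝ)) : Prop := ∫⁻ w, ⨆ n : ℕ, ENNReal.ofReal (psum w n) ∂P0 < ⊤

def Hm (P0 : Measure (ℕ → ℝ)) : Prop := ∫⁻ w, ⨆ n : ℕ, ENNReal.ofReal (- psum w n) ∂P0 < ⊤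

def Rate (P0 : Measure (ℕ → ℝ)) : Prop :=
  Tendsto (fun y : ℕ => ENNReal.ofReal (Real.log y) * ∫⁻ w, osc w y ∂P0) atTop (𝓝 0)

def Wl (P0 : Measure (ℕ → ℝ)) : Prop := 0 < P0 {w | ∀ n, w n < 1}

def Wr (P0 : Measure (ℕ → ℝ)) : Prop := 0 < P0 {w | ∀ n, 0 < w n}

def rfl1 (w : ℕ → ℝ) : ℕ → ℝ := fun i => 1 - w i

/-- Control from above of the initial sums and of the squares, from index `y` on. -/
def Ctl (P0 : Measure (ℕ → ℝ)) (r : ℕ) (K η : ℝ) : Prop :=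
  ∃ (B : ℝ) (y0 : ℕ), ∀ y, y0 ≤ y → ∃ J κ : (ℕ → ℝ) → ℝ, Measurable J ∧ Measurable κ ∧
    Integrable J P0 ∧ (∀ w, 0 ≤ κ w ∧ κ w ≤ 1) ∧ ∫ w, |J w| ∂P0 ≤ B ∧
    ∫ w, J w ∂P0 + K * ∫ w, κ w ∂P0 ≤ r + η / Real.log y ∧
    ∀ᵐ w ∂P0, ∀ n, y ≤ n → psum w n ≤ J w ∧ Vn w n ≤ κ w * n

/-! ### Arrows -/

def pr (w : ℝ) (b : Bool) : ℝ := if b = true then w else 1 - w

noncomputable def arr1 (w : ℝ) (u : unitInterval) : Bool := decide ((u : ℝ) < w ∨ 1 ≤ w)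

noncomputable def arr {ι : Type} (w : ι → ℝ) (u : ι → unitInterval) : ι → Bool :=
  fun i => arr1 (w i) (u i)

noncomputable def lamU (ι : Type) : Measure (ι → unitInterval) :=
  Measure.infinitePi (fun _ : ι => (volume : Measure unitInterval))

/-- The law of one stack of arrows. -/
noncomputable def Qa (P0 : Measure (ℕ → ℝ)) : Measure (ℕ → Bool) :=
  (P0.prod (lamU ℕ)).map (fun p => arr p.1 p.2)

/-- The law of the field of arrows. -/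
noncomputable def Fld (P0 : Measure (ℕ → ℝ)) : Measure (ℤ → ℕ → Bool) :=
  Measure.infinitePi (fun _ : ℤ => Qa P0)

def Rr (a : ℕ → Bool) (n : ℕ) : ℕ := ((range n).filter (fun i => a i = true)).card

def Ll (a : ℕ → Bool) (n : ℕ) : ℕ := ((range n).filter (fun i => a i = false)).card

/-- The minimum of `N` and the time of the `y`-th left arrow. -/
def tau (a : ℕ → Bool) (y : ℕ) : ℕ → ℕ
  | 0 => 0
  | N + 1 => if Ll a N < y then N + 1 else tau a y N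

/-- The number of right arrows before the `y`-th left arrow. -/
noncomputable def Uo (a : ℕ → Bool) (y : ℕ) : ℕ :=
  if h : ∃ n, y ≤ Ll a n then Rr a (Nat.find h) else 0

noncomputable def mart (w : ℕ → ℝ) (l : ℝ) (a : ℕ → Bool) (n : ℕ) : ℝ :=
  (1 - l) ^ Rr a n * (1 + l) ^ Ll a n / ∏ i ∈ range n, (1 - l * (2 * w i - 1))

def Surv (a : ℤ → ℕ → Bool) (r : ℕ) : Prop :=
  ∃ n : ℕ → ℕ, ∀ x : ℕ, Ll (a ((x : ℤ) + 1)) (n (x + 1)) + r ≤ Rr (a (x : ℤ)) (n x)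

/-! ### Chains -/

def it {E : Type} (F : E → ℕ → ℕ) (ξ : ℕ → E) (z : ℕ) : ℕ → ℕ
  | 0 => z
  | n + 1 => F (ξ n) (it F ξ z n)

noncomputable def Kop {E : Type} [MeasurableSpace E] (Q : Measure E) (F : E → ℕ → ℕ) (r : ℕ)
    (g : ℕ → ℝ≥0∞) (z : ℕ) : ℝ≥0∞ :=
  ∫⁻ e, (if r ≤ F e z then g (F e z) else 0) ∂Q

noncomputable def qq (t : ℕ) : ℝ := 1 - 1 / (t : ℝ)

noncomputable def cc (t : ℕ) : ℝ := 1 / ((t : ℝ) * Real.log t)

/-! ### Walkers -/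

def Tr (q : ℕ → ℤ) : Prop := Tendsto (fun m => |q m|) atTop atTop

noncomputable def vis (q : ℕ → ℤ) (x : ℤ) : ℕ := Nat.card {m : ℕ // q m = x}

def cnt (q : ℕ → ℤ) (t : ℕ) : ℕ := ((range t).filter (fun m => q m = q t)).card

def Good (p : ℕ → ℕ → ℤ) (j : ℕ) : Prop := ∀ i, i < j → Tr (p i)

noncomputable def off (p : ℕ → ℕ → ℤ) (j : ℕ) (x : ℤ) : ℕ := ∑ i ∈ range j, vis (p i) x

/-- The index of the cookie that walker `j` eats at time `t`. -/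
noncomputable def idx (p : ℕ → ℕ → ℤ) (j t : ℕ) : ℕ := off p j (p j t) + cnt (p j) t

def NN (p : ℕ → ℕ → ℤ) : Prop :=
  (∀ j, p j 0 = 0) ∧ ∀ j n, p j (n + 1) = p j n + 1 ∨ p j (n + 1) = p j n - 1

def Follows (a : ℤ → ℕ → Bool) (p : ℕ → ℕ → ℤ) (k : ℕ) : Prop :=
  ∀ j, j < k → Good p j → ∀ t, (a (p j t) (idx p j t) = true ↔ p j (t + 1) = p j t + 1)

/-- The information before step `t` of walker `j`. -/
def past {Θ : Type} (W : Θ → ℤ → ℕ → ℝ) (X : ℕ → Θ → ℕ → ℤ) (j t : ℕ) : MeasurableSpace Θ :=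
  MeasurableSpace.comap
    (fun θ => (W θ, (fun i : Fin j => X (i : ℕ) θ), (fun m : Fin (t + 1) => X j θ (m : ℕ))))
    inferInstance

def Env {Θ : Type} [MeasurableSpace Θ] (μ : Measure Θ) (W : Θ → ℤ → ℕ → ℝ)
    (P0 : Measure (ℕ → ℝ)) : Prop :=
  iIndepFun (fun (x : ℤ) θ => W θ x) μ ∧ ∀ x : ℤ, μ.map (fun θ => W θ x) = P0

/-- Walkers on leftover environments, as long as the earlier ones are transient. -/
structure Run {Θ : Type} [MeasurableSpace Θ] (μ : Measure Θ) (k : ℕ) where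
  W : Θ → ℤ → ℕ → ℝ
  X : ℕ → Θ → ℕ → ℤ
  mW : Measurable W
  mX : ∀ j, Measurable (X j)
  nn : ∀ θ, NN (fun j => X j θ)
  step : ∀ j, j < k → ∀ (t : ℕ) (Z : Θ → ℝ), Measurable[past W X j t] Z → (∀ᵐ θ ∂μ, |Z θ| ≤ 1) →
    (∀ θ, Z θ ≠ 0 → Good (fun i => X i θ) j) →
    ∫ θ, Z θ * ((if X j θ (t + 1) = X j θ t + 1 then (1 : ℝ) else 0) -
      W θ (X j θ t) (idx (fun i => X i θ) j t)) ∂μ = 0

/-- The model of the problem. -/
structure Mod {Θ : Type} [MeasurableSpace Θ] (μ : Measure Θ) where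
  W : Θ → ℤ → ℕ → ℝ
  X : ℕ → Θ → ℕ → ℤ
  env : ℕ → Θ → ℤ → ℕ → ℝ
  mW : Measurable W
  mX : ∀ j, Measurable (X j)
  env0 : env 0 = W
  envT : ∀ j θ x n, Tr (X j θ) → env (j + 1) θ x n = env j θ x (n + vis (X j θ) x)
  envN : ∀ j θ x n, ¬ Tr (X j θ) → env (j + 1) θ x n = 1 / 2
  nn : ∀ θ, NN (fun j => X j θ)
  ce : ∀ j n : ℕ, condExp (past W X j n) μ
      (Set.indicator {θ | X j θ (n + 1) = X j θ n + 1} (fun _ => (1 : ℝ)))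
    =ᵐ[μ] fun θ => env j θ (X j θ n) (cnt (X j θ) n)

end Pool.Agent.P.MP_c7fa75_pr.T
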