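import Pool.Agent.P.MP_c7fa75_pr.T.Basic

/-! The statements of all steps. -/

set_option autoImplicit false

namespace Pool.Agent.P.MP_c7fa75_pr.T

open MeasureTheory ProbabilityTheory Filter Topology Finset
open scoped ENNReal Classical

-- deps:
def S_CYL : Prop :=
  ∀ (ι : Type) (w : ι → ℝ), (∀ i, w i ∈ Set.Icc (0 : ℝ) 1) → ∀ (C : Finset ι) (e : ι → Bool),
    (lamU ι).real {u | ∀ c ∈ C, arr w u c = e c} = ∏ c ∈ C, pr (w c) (e c)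

-- deps:
def S_EXT : Prop :=
  ∀ (μ ν : Measure (ℤ → ℕ → Bool)) [IsProbabilityMeasure μ] [IsProbabilityMeasure ν],
    (∀ (C : Finset (ℤ × ℕ)) (e : ℤ × ℕ → Bool),
      μ {a | ∀ c ∈ C, a c.1 c.2 = e c} = ν {a | ∀ c ∈ C, a c.1 c.2 = e c}) → μ = ν

-- deps: CYL EXT
def S_LAW : Prop :=
  ∀ (Θ : Type) [MeasurableSpace Θ] (μ : Measure Θ) [IsProbabilityMeasure μ]
    (W V : Θ → ℤ → ℕ → ℝ) (P0 : Measure (ℕ → ℝ)) [IsProbabilityMeasure P0],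
    Measurable W → Measurable V → In01 P0 → Env μ W P0 →
    (∀ᵐ θ ∂μ, ∀ x n, V θ x n ∈ Set.Icc (0 : ℝ) 1) →
    (∀ (C : Finset (ℤ × ℕ)) (e : ℤ × ℕ → Bool),
      ∫ θ, ∏ c ∈ C, pr (V θ c.1 c.2) (e c) ∂μ = ∫ θ, ∏ c ∈ C, pr (W θ c.1 c.2) (e c) ∂μ) →
    (μ.prod (lamU (ℤ × ℕ))).map (fun p (x : ℤ) (n : ℕ) => arr1 (V p.1 x n) (p.2 (x, n))) = Fld P0

-- deps:
def S_IDX : Prop :=
  ∀ (p : ℕ → ℕ → ℤ) (i j s t : ℕ), Good p j → (i < j ∨ (i = j ∧ s < t)) → p i s = p j t →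
    idx p i s < idx p j t

-- deps:
def S_MEAS : Prop :=
  ∀ (Θ : Type) [MeasurableSpace Θ] (X : ℕ → Θ → ℕ → ℤ) (j t : ℕ),
    (∀ i, i < j → Measurable (X i)) → (∀ s, s ≤ t → Measurable (fun θ => X j θ s)) →
    MeasurableSet {θ | Good (fun i => X i θ) j} ∧
    (∀ x, Measurable (fun θ => off (fun i => X i θ) j x)) ∧
    Measurable (fun θ => cnt (X j θ) t) ∧ Measurable (fun θ => idx (fun i => X i θ) j t)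

-- deps: IDX MEAS
def S_ARR : Prop :=
  ∀ (Θ : Type) [MeasurableSpace Θ] (μ : Measure Θ) [IsProbabilityMeasure μ] (k : ℕ) (R : Run μ k),
    (∀ᵐ θ ∂μ, ∀ x n, R.W θ x n ∈ Set.Icc (0 : ℝ) 1) →
    ∃ V : Θ → ℤ → ℕ → ℝ, Measurable V ∧ (∀ᵐ θ ∂μ, ∀ x n, V θ x n ∈ Set.Icc (0 : ℝ) 1) ∧
      (∀ θ j, j < k → Good (fun i => R.X i θ) j → ∀ t,
        V θ (R.X j θ t) (idx (fun i => R.X i θ) j t) =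
          if R.X j θ (t + 1) = R.X j θ t + 1 then 1 else 0) ∧
      ∀ (C : Finset (ℤ × ℕ)) (e : ℤ × ℕ → Bool),
        ∫ θ, ∏ c ∈ C, pr (V θ c.1 c.2) (e c) ∂μ = ∫ θ, ∏ c ∈ C, pr (R.W θ c.1 c.2) (e c) ∂μ

-- deps: ARR LAW
def S_FLD : Prop :=
  ∀ (Θ : Type) [MeasurableSpace Θ] (μ : Measure Θ) [IsProbabilityMeasure μ] (k : ℕ) (R : Run μ k)
    (P0 : Measure (ℕ → ℝ)) [IsProbabilityMeasure P0], In01 P0 → Env μ R.W P0 →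
    ∀ φ : (ℤ → ℕ → Bool) → Prop, (∀ᵐ a ∂Fld P0, φ a) →
    ∀ᵐ θ ∂μ, ∃ a, φ a ∧ Follows a (fun i => R.X i θ) k

-- deps: CYL
def S_INF : Prop :=
  ∀ (w : ℕ → ℝ), (∀ i, w i ∈ Set.Icc (0 : ℝ) 1) → ∀ b : Bool,
    Tendsto (fun n => ∑ i ∈ range n, pr (w i) b) atTop atTop →
    ∀ᵐ u ∂lamU ℕ, ∀ m, ∃ i, m ≤ i ∧ arr w u i = b

-- deps: CYL
def S_MART : Prop :=
  ∀ (w : ℕ → ℝ), (∀ i, w i ∈ Set.Icc (0 : ℝ) 1) → ∀ l : ℝ, 0 < l → l < 1 → ∀ y N : ℕ,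
    Integrable (fun u => mart w l (arr w u) (tau (arr w u) y N)) (lamU ℕ) ∧
    ∫ u, mart w l (arr w u) (tau (arr w u) y N) ∂lamU ℕ = 1

-- deps: MART
def S_QU : Prop :=
  ∀ (w : ℕ → ℝ), (∀ i, w i ∈ Set.Icc (0 : ℝ) 1) → ∀ l : ℝ, 0 < l → l < 1 → ∀ (y N : ℕ) (J : ℝ),
    (∀ n, y ≤ n → J ≤ psum w n) →
    ∫ u, (1 - l) ^ Rr (arr w u) (tau (arr w u) y N) ∂lamU ℕ ≤
      ((1 + l)⁻¹) ^ y * Real.exp (-(l * J)) + (1 - l) ^ (N - y)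

-- deps: MART
def S_QL : Prop :=
  ∀ (w : ℕ → ℝ), (∀ i, w i ∈ Set.Icc (0 : ℝ) 1) → ∀ l : ℝ, 0 < l → l ≤ 1 / 5 →
    ∀ (y : ℕ) (J κ : ℝ), 0 ≤ κ → κ ≤ 1 → (∀ n, y ≤ n → psum w n ≤ J ∧ Vn w n ≤ κ * n) →
    ((1 + l)⁻¹) ^ y * (1 - l * J - 2 * l ^ 2 * |J| - 4 * κ * l ^ 2 * y) ≤
      ∫ u, (1 - l) ^ Uo (arr w u) y ∂lamU ℕ

-- deps:
def S_CH : Prop :=
  ∀ (E Ω : Type) [MeasurableSpace E] [MeasurableSpace Ω] (Q : Measure E) [IsProbabilityMeasure Q]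
    (μ : Measure Ω) [IsProbabilityMeasure μ] (ξ : ℕ → Ω → E) (F : E → ℕ → ℕ) (r : ℕ),
    (∀ z, Measurable (fun e => F e z)) → (∀ n, Measurable (ξ n)) → iIndepFun ξ μ →
    (∀ n, μ.map (ξ n) = Q) → ∀ z,
    MeasurableSet {ω | ∀ n, r ≤ it F (fun i => ξ i ω) z (n + 1)} ∧
    μ {ω | ∀ n, r ≤ it F (fun i => ξ i ω) z (n + 1)} = ⨅ n, (Kop Q F r)^[n] (fun _ => 1) z

-- deps:
def S_SUP : Prop :=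
  ∀ (E : Type) [MeasurableSpace E] (Q : Measure E) [IsProbabilityMeasure Q] (F : E → ℕ → ℕ)
    (r z0 : ℕ) (f : ℕ → ℝ≥0∞), (∀ z, Measurable (fun e => F e z)) → r ≤ z0 →
    (∀ z, z < z0 → 1 ≤ f z) → (∀ z, z0 ≤ z → ∫⁻ e, f (F e z) ∂Q ≤ f z) →
    ∀ z, 1 ≤ (⨅ n, (Kop Q F r)^[n] (fun _ => 1) z) + f z

-- deps:
def S_KILL : Prop :=
  ∀ (E : Type) [MeasurableSpace E] (Q : Measure E) [IsProbabilityMeasure Q] (F : E → ℕ → ℕ)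
    (r z0 : ℕ) (f : ℕ → ℝ≥0∞), (∀ z, Measurable (fun e => F e z)) → (∀ z, f z < ⊤) →
    Tendsto f atTop (𝓝 ⊤) → (∀ z, z0 ≤ z → ∫⁻ e, f (F e z) ∂Q ≤ f z) →
    (∀ z, 0 < Q {e | F e z < r}) → ∀ z, ⨅ n, (Kop Q F r)^[n] (fun _ => 1) z = 0

/-- The weights of the Lyapunov function for transience. -/
def Wts (γ : ℝ) (c : ℕ → ℝ) : Prop :=
  0 ≤ γ ∧ (∀ t, 1 ≤ t → 0 < c t) ∧ Summable c ∧ (∀ t, 1 ≤ t → c (t + 1) ≤ c t) ∧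
    (∀ t, 1 ≤ t → c t * (1 - γ / t) ≤ c (t + 1)) ∧ ∀ t, 1 ≤ t → c t ≤ 4 * c (2 * t)

-- deps:
def S_LT0 : Prop :=
  ∀ (Ω : Type) [MeasurableSpace Ω] (P : Measure Ω) [IsProbabilityMeasure P] (J : Ω → ℝ) (γ : ℝ),
    Measurable J → Integrable J P → 1 < γ → γ ≤ 2 →
    ∃ c : ℕ → ℝ, Wts γ c ∧ ∀ y : ℕ, 1 ≤ y → P.real {ω | J ω < -((y : ℝ) / 4)} ≤ 16 * c y

-- deps:
def S_LT1 : Prop :=
  ∀ (Ω : Type) [MeasurableSpace Ω] (P : Measure Ω) [IsProbabilityMeasure P] (J : Ω → ℝ) (a β : ℝ),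
    Measurable J → Integrable J P → a < ∫ ω, J ω ∂P → 0 < β →
    ∃ t0 : ℕ, ∀ t, t0 ≤ t → ∀ y : ℕ,
      ∫ ω, min 1 (qq (t + 1) ^ y * Real.exp (-(1 / (t : ℝ) * J ω))) ∂P ≤
        qq (t + 1) ^ y * (1 - a / t) + β / t * qq (4 * t) ^ y + P.real {ω | J ω < -((y : ℝ) / 4)}

-- deps:
def S_LT2 : Prop :=
  ∀ (r y0 : ℕ) (γ η : ℝ) (c : ℕ → ℝ) (ν : ℕ → ℕ → Measure ℕ), 1 ≤ r → 0 < η → Wts γ c →
    (∀ y N, IsProbabilityMeasure (ν y N)) →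
    (∀ β : ℝ, 0 < β → ∃ t0 : ℕ, ∀ t, t0 ≤ t → ∀ y, y0 ≤ y → 1 ≤ y → ∀ N,
      ∫ u, qq t ^ u ∂ν y N ≤ qq (t + 1) ^ y * (1 - ((r : ℝ) - 1 + γ + 2 * η) / t) +
        β / t * qq (4 * t) ^ y + 16 * c y + qq t ^ (N - y)) →
    ∃ (f : ℕ → ℝ≥0∞) (z0 : ℕ) (Nz : ℕ → ℕ), r ≤ z0 ∧ (∀ z, z < z0 → 1 ≤ f z) ∧
      Tendsto f atTop (𝓝 0) ∧ ∀ z, z0 ≤ z → ∫⁻ u, f u ∂ν (z + 1 - r) (Nz z) ≤ f z

-- deps: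
def S_LR0 : Prop :=
  ∀ z t0 N : ℕ, 5 ≤ t0 → t0 ≤ z → 4 * z ≤ N →
    1 / (64 * (z : ℝ) * Real.log z ^ 2) ≤
      ∑ t ∈ Ico t0 N, qq (t + 1) ^ z / ((t : ℝ) ^ 2 * Real.log t ^ 2) ∧
    1 / (32 * (z : ℝ) * Real.log z) ≤
      ∑ t ∈ Ico t0 N, qq (t + 1) ^ z / ((t : ℝ) ^ 2 * Real.log t) ∧
    ∑ t ∈ Ico t0 N, qq (t + 1) ^ z / ((t : ℝ) ^ 2 * Real.log t) ≤ 400 / ((z : ℝ) * Real.log z) ∧
    ∑ t ∈ Ico t0 N, qq (t + 1) ^ z * z / ((t : ℝ) ^ 3 * Real.log t) ≤ 400 / ((z : ℝ) * Real.log z)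

-- deps: LR0
def S_LR1 : Prop :=
  ∀ r : ℕ, 1 ≤ r → ∃ K η : ℝ, 0 < K ∧ 0 < η ∧ ∀ B : ℝ, ∃ t0 z0 : ℕ, 5 ≤ t0 ∧ r ≤ z0 ∧
    ∀ z, z0 ≤ z → ∀ ε : ℝ, 0 ≤ ε → ε ≤ 4 → ∀ N, 4 * z ≤ N →
      0 ≤ ∑ t ∈ Ico t0 N, cc t * (qq (t + 1) ^ (z + 1 - r) *
        (1 - ((r : ℝ) + η / Real.log ((z + 1 - r : ℕ) : ℝ) - K * ε) / t - B / (t : ℝ) ^ 2 -
          ε * ((z + 1 - r : ℕ) : ℝ) / (t : ℝ) ^ 2) - qq t ^ z)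

-- deps: LR1
def S_LR2 : Prop :=
  ∀ r : ℕ, 1 ≤ r → ∃ K η : ℝ, 0 < K ∧ 0 < η ∧ ∀ (B : ℝ) (y0 : ℕ) (ν : ℕ → Measure ℕ),
    (∀ y, IsProbabilityMeasure (ν y)) →
    (∀ y, y0 ≤ y → ∃ ε : ℝ, 0 ≤ ε ∧ ε ≤ 4 ∧ ∀ t : ℕ, 5 ≤ t →
      qq (t + 1) ^ y * (1 - ((r : ℝ) + η / Real.log y - K * ε) / t - B / (t : ℝ) ^ 2 -
        ε * y / (t : ℝ) ^ 2) ≤ ∫ u, qq t ^ u ∂ν y) →
    ∃ (f : ℕ → ℝ≥0∞) (z0 : ℕ), (∀ z, f z < ⊤) ∧ Tendsto f atTop (𝓝 ⊤) ∧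
      ∀ z, z0 ≤ z → ∫⁻ u, f u ∂ν (z + 1 - r) ≤ f z

-- deps:
def S_HT : Prop :=
  ∀ (P0 : Measure (ℕ → ℝ)) [IsProbabilityMeasure P0] (a b : NNReal), Lim P0 → Hm P0 →
    (a : ℝ≥0∞) + dm P0 < dp P0 + (b : ℝ≥0∞) →
    ∃ (y0 : ℕ) (J : (ℕ → ℝ) → ℝ), Measurable J ∧ Integrable J P0 ∧
      (a : ℝ) - (b : ℝ) < ∫ w, J w ∂P0 ∧ ∀ᵐ w ∂P0, ∀ n, y0 ≤ n → J w ≤ psum w n

-- deps:
def S_KAP : Prop :=
  ∀ (P0 : Measure (ℕ → ℝ)) [IsProbabilityMeasure P0] (ε : ℝ), In01 P0 →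
    (∀ᵐ w ∂P0, ∃ s : ℝ, Tendsto (psum w) atTop (𝓝 s)) → 0 < ε →
    ∃ (y0 : ℕ) (κ : (ℕ → ℝ) → ℝ), Measurable κ ∧ (∀ w, 0 ≤ κ w ∧ κ w ≤ 1) ∧ ∫ w, κ w ∂P0 ≤ ε ∧
      ∀ᵐ w ∂P0, ∀ n, y0 ≤ n → Vn w n ≤ κ w * n

-- deps:
def S_RFL0 : Prop :=
  ∀ (P0 : Measure (ℕ → ℝ)) [IsProbabilityMeasure P0],
    IsProbabilityMeasure (P0.map rfl1) ∧ (In01 P0 → In01 (P0.map rfl1)) ∧
    (Lim P0 → Lim (P0.map rfl1) ∧ dp (P0.map rfl1) = dm P0 ∧ dm (P0.map rfl1) = dp P0) ∧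
    (Hm P0 → Hp (P0.map rfl1)) ∧ (Hp P0 → Hm (P0.map rfl1)) ∧ (Wr P0 → Wl (P0.map rfl1)) ∧
    (Hm P0 → dm P0 < ⊤) ∧ (Hp P0 → dp P0 < ⊤)

-- deps: HT KAP RFL0
def S_HR1 : Prop :=
  ∀ (P0 : Measure (ℕ → ℝ)) [IsProbabilityMeasure P0] (r : ℕ) (K η : ℝ), In01 P0 → Lim P0 →
    Hp P0 → dp P0 < (r : ℝ≥0∞) + dm P0 → 0 < K → 0 < η → Ctl P0 r K η

-- deps:
def S_HR2 : Prop :=
  ∀ (P0 : Measure (ℕ → ℝ)) [IsProbabilityMeasure P0] (r : ℕ) (K η : ℝ), In01 P0 → Lim P0 →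
    Hp P0 → Hm P0 → Rate P0 → dp P0 ≤ (r : ℝ≥0∞) + dm P0 → 0 < K → 0 < η → Ctl P0 r K η

-- deps: CYL INF QL CH KILL LR2
def S_KILLQ : Prop :=
  ∀ (P0 : Measure (ℕ → ℝ)) [IsProbabilityMeasure P0] (r : ℕ), In01 P0 → Wl P0 → 1 ≤ r →
    (∀ K η : ℝ, 0 < K → 0 < η → Ctl P0 r K η) → ∀ᵐ a ∂Fld P0, ¬ Surv a r

-- deps: INF QU CH SUP LT0 LT1 LT2 HT
def S_SURVQ : Prop :=
  ∀ (P0 : Measure (ℕ → ℝ)) [IsProbabilityMeasure P0] (r : ℕ), In01 P0 → Lim P0 → Hm P0 → 1 ≤ r →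
    (r : ℝ≥0∞) + dm P0 < dp P0 →
    ∀ᵐ a ∂Fld P0, Surv a r ∧ ∀ x m, ∃ i, m ≤ i ∧ a x i = true

/-- Steps of the path `q` from `x` to the right, or to the left, before time `t`. -/
def stp (q : ℕ → ℤ) (x : ℤ) (b : Bool) (t : ℕ) : ℕ :=
  ((range t).filter (fun m => q m = x ∧ ((q (m + 1) = q m + 1) ↔ b = true))).card

/-- Visits of the path `q` to `x` before time `t`. -/
def vst (q : ℕ → ℤ) (x : ℤ) (t : ℕ) : ℕ := ((range t).filter (fun m => q m = x)).card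

-- deps:
def S_FLOW : Prop :=
  ∀ (q : ℕ → ℤ), q 0 = 0 → (∀ n, q (n + 1) = q n + 1 ∨ q (n + 1) = q n - 1) →
    (∀ (x : ℕ) (t : ℕ), stp q x true t = stp q ((x : ℤ) + 1) false t + if (x : ℤ) < q t then 1 else 0) ∧
    (Tr q → Tendsto q atTop atTop ∨ Tendsto q atTop atBot) ∧
    (Tr q → ∀ x, ∃ T, ∀ t, T ≤ t → vst q x t = vis q x ∧ q t ≠ x) ∧
    ((∀ x, ∃ M, ∀ t, vst q x t ≤ M) → Tr q)

-- deps: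
def S_USE : Prop :=
  ∀ (a : ℤ → ℕ → Bool) (p : ℕ → ℕ → ℤ) (k j : ℕ), Follows a p k → j < k → Good p j → ∀ x t,
    Rr (a x) (off p j x + vst (p j) x t) = Rr (a x) (off p j x) + stp (p j) x true t ∧
    Ll (a x) (off p j x + vst (p j) x t) = Ll (a x) (off p j x) + stp (p j) x false t

-- deps: FLOW USE
def S_NET : Prop :=
  ∀ (a : ℤ → ℕ → Bool) (p : ℕ → ℕ → ℤ) (k j : ℕ), NN p → Follows a p k → j ≤ k → Good p j →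
    ∀ x : ℕ, Rr (a x) (off p j x) = Ll (a ((x : ℤ) + 1)) (off p j ((x : ℤ) + 1)) +
      ((range j).filter (fun i => Tendsto (p i) atTop atTop)).card

-- deps: FLOW USE NET
def S_DT : Prop :=
  ∀ (a : ℤ → ℕ → Bool) (p : ℕ → ℕ → ℤ) (k : ℕ), NN p → Follows a p k → Surv a k →
    (∀ x m, ∃ i, m ≤ i ∧ a x i = true) → Good p k

-- deps:
def S_CE : Prop :=
  ∀ (Θ : Type) [MeasurableSpace Θ] (μ : Measure Θ) [IsProbabilityMeasure μ] (M : Mod μ) (j t : ℕ)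
    (Z : Θ → ℝ), Measurable[past M.W M.X j t] Z → (∀ᵐ θ ∂μ, |Z θ| ≤ 1) →
    ∫ θ, Z θ * ((if M.X j θ (t + 1) = M.X j θ t + 1 then (1 : ℝ) else 0) -
      M.env j θ (M.X j θ t) (cnt (M.X j θ) t)) ∂μ = 0

-- deps: CE
def S_RUN0 : Prop :=
  ∀ (Θ : Type) [MeasurableSpace Θ] (μ : Measure Θ) [IsProbabilityMeasure μ] (M : Mod μ) (k : ℕ),
    ∃ R : Run μ k, R.W = M.W ∧ R.X = M.X

-- deps:
def S_REFL : Prop :=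
  ∀ (Θ : Type) [MeasurableSpace Θ] (μ : Measure Θ) [IsProbabilityMeasure μ] (k : ℕ) (R : Run μ k)
    (P0 : Measure (ℕ → ℝ)), Env μ R.W P0 →
    ∃ R' : Run μ k, (∀ j θ n, R'.X j θ n = - R.X j θ n) ∧ Env μ R'.W (P0.map rfl1)

-- deps: FLD NET KILLQ
def S_NOR : Prop :=
  ∀ (Θ : Type) [MeasurableSpace Θ] (μ : Measure Θ) [IsProbabilityMeasure μ] (k : ℕ) (R : Run μ k)
    (P0 : Measure (ℕ → ℝ)) [IsProbabilityMeasure P0] (r : ℕ), In01 P0 → Env μ R.W P0 → Wl P0 →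
    1 ≤ r → (∀ K η : ℝ, 0 < K → 0 < η → Ctl P0 r K η) →
    ∀ᵐ θ ∂μ, Good (fun i => R.X i θ) k →
      ((range k).filter (fun i => Tendsto (R.X i θ) atTop atTop)).card < r

-- deps: NOR REFL RFL0 HR1
def S_NOL : Prop :=
  ∀ (Θ : Type) [MeasurableSpace Θ] (μ : Measure Θ) [IsProbabilityMeasure μ] (k : ℕ) (R : Run μ k)
    (P0 : Measure (ℕ → ℝ)) [IsProbabilityMeasure P0], In01 P0 → Env μ R.W P0 → Wr P0 → Lim P0 →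
    Hm P0 → dm P0 < 1 + dp P0 →
    ∀ᵐ θ ∂μ, Good (fun i => R.X i θ) k → ∀ i, i < k → ¬ Tendsto (R.X i θ) atTop atBot

-- deps: NOR NOL HR1 FLOW
def S_HALF : Prop :=
  ∀ (Θ : Type) [MeasurableSpace Θ] (μ : Measure Θ) [IsProbabilityMeasure μ] (R : Run μ 1),
    (∀ θ x n, R.W θ x n = 1 / 2) → ∀ᵐ θ ∂μ, ¬ Tr (R.X 0 θ)

-- deps: CE MEAS HALF
def S_SRW : Prop :=
  ∀ (Θ : Type) [MeasurableSpace Θ] (μ : Measure Θ) [IsProbabilityMeasure μ] (M : Mod μ) (j : ℕ),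
    ∀ᵐ θ ∂μ, ¬ Good (fun i => M.X i θ) j → ¬ Tr (M.X j θ)

-- deps: RUN0 FLD DT FLOW SURVQ NOR NOL SRW HR1 HR2 RFL0
def S_CORE : Prop :=
  ∀ (Θ : Type) [MeasurableSpace Θ] (μ : Measure Θ) [IsProbabilityMeasure μ] (M : Mod μ)
    (P0 : Measure (ℕ → ℝ)) [IsProbabilityMeasure P0], In01 P0 → Env μ M.W P0 → Wl P0 → Wr P0 →
    Lim P0 → Hm P0 → dm P0 ≤ dp P0 → ∀ k : ℕ, 1 ≤ k →
    ((k : ℝ≥0∞) + dm P0 < dp P0 → ∀ᵐ θ ∂μ, Tendsto (M.X (k - 1) θ) atTop atTop) ∧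
    (Hp P0 → (dp P0 < (k : ℝ≥0∞) + dm P0 ∨ (dp P0 ≤ (k : ℝ≥0∞) + dm P0 ∧ Rate P0)) →
      ∀ᵐ θ ∂μ, ¬ Tr (M.X (k - 1) θ))

-- deps: CORE RFL0
def S_Main : Prop :=
  ∀ (P : Measure (ℤ → ℕ → ℝ)), IsProbabilityMeasure P →
    (∀ᵐ ω ∂P, ∀ (x : ℤ) (n : ℕ), ω x n ∈ Set.Icc (0 : ℝ) 1) →
    iIndepFun (fun (x : ℤ) (ω : ℤ → ℕ → ℝ) => ω x) P →
    (∀ x : ℤ, IdentDistrib (fun ω : ℤ → ℕ → ℝ => ω x) (fun ω => ω 0) P P) →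
    (∀ x : ℤ, 0 < P {ω | ∀ n, 0 < ω x n} ∧ 0 < P {ω | ∀ n, ω x n < 1}) →
    (∀ᵐ ω ∂P, ∃ s : EReal, Tendsto (fun N : ℕ => (psum (ω 0) N : EReal)) atTop (𝓝 s)) →
    (∫⁻ ω, ⨆ N : ℕ, ENNReal.ofReal (- psum (ω 0) N) ∂P) < ⊤ →
    0 ≤ drift P →
    ∀ (Θ : Type) [MeasurableSpace Θ] (μ : Measure Θ), IsProbabilityMeasure μ →
    ∀ (W : Θ → ℤ → ℕ → ℝ) (X : ℕ → Θ → ℕ → ℤ) (env : ℕ → Θ → ℤ → ℕ → ℝ),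
    Measurable W → μ.map W = P → (∀ j, Measurable (X j)) →
    env 0 = W →
    (∀ (j : ℕ) (θ : Θ) (x : ℤ) (n : ℕ),
        Tendsto (fun m => |X j θ m|) atTop atTop →
          env (j + 1) θ x n = env j θ x (n + Nat.card {m : ℕ // X j θ m = x})) →
    (∀ (j : ℕ) (θ : Θ) (x : ℤ) (n : ℕ),
        ¬ Tendsto (fun m => |X j θ m|) atTop atTop → env (j + 1) θ x n = 1 / 2) →
    (∀ (j : ℕ) (θ : Θ), X j θ 0 = 0) →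
    (∀ (j : ℕ) (θ : Θ) (n : ℕ), X j θ (n + 1) = X j θ n + 1 ∨ X j θ (n + 1) = X j θ n - 1) →
    (∀ (j n : ℕ),
        condExp
          (MeasurableSpace.comap
            (fun θ => (W θ, (fun i : Fin j => X (i : ℕ) θ), (fun m : Fin (n + 1) => X j θ (m : ℕ))))
            inferInstance)
          μ
          (Set.indicator {θ | X j θ (n + 1) = X j θ n + 1} (fun _ => (1 : ℝ)))
        =ᵐ[μ] fun θ => env j θ (X j θ n)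
          ((Finset.range n).filter (fun m => X j θ m = X j θ n)).card) →
    ∀ k : ℕ, 1 ≤ k →
      ((k : EReal) < drift P → ∀ᵐ θ ∂μ, Tendsto (fun n => X (k - 1) θ n) atTop atTop) ∧
      ((∫⁻ ω, ⨆ N : ℕ, ENNReal.ofReal (psum (ω 0) N) ∂P) < ⊤ →
        (drift P < (k : EReal) ∨ (drift P = (k : EReal) ∧
          Tendsto (fun y : ℕ => ENNReal.ofReal (Real.log y) * ∫⁻ ω, osc (ω 0) y ∂P) atTop (𝓝 0))) →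
        μ {θ | Tendsto (fun n => |X (k - 1) θ n|) atTop atTop} = 0)

end Pool.Agent.P.MP_c7fa75_pr.T
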